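import Pool.Agent.Helper63.TS.Defs

/-!
# Maps with finitely many superattracting cycles: definitions
-/

set_option autoImplicit false

namespace Pool.Agent.Helper63.TS2

open MvPolynomial
open Pool.Agent.Helper16 (Place IsFunctionField)
open Pool.Agent.Helper36 (step iter)
open Pool.Agent.Helper30.TP
open Pool.Agent.Helper63.TK
open Pool.Agent.Helper63.TS

/-- The nonzero vector `y` is a superattracting periodic point: its cycle has the multipliers
`0, 0`. (The third eigenvalue of the derivative of the lifted map is not zero, so this means that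
the determinant and the second elementary symmetric function of the eigenvalues are zero.) -/
def Superatt {L : Type} [Field L] (F : Fin 3 → MvPolynomial (Fin 3) L) (y : Fin 3 → L) : Prop :=
  y ≠ 0 ∧ ∃ N : ℕ, 0 < N ∧ PEq y (iter F y N) ∧ (mult F y N).det = 0 ∧
    (mult F y N).adjugate.trace = 0

section ring

variable {S : Type} [CommRing S]

/-- The matrix of the partial derivatives. -/
noncomputable def jmR (Φ : Fin 3 → MvPolynomial (Fin 3) S) :
    Matrix (Fin 3) (Fin 3) (MvPolynomial (Fin 3) S) :=
  Matrix.of fun i j => pderiv j (Φ i)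

/-- The matrix of the partial derivatives at a point. -/
noncomputable def jacR (Φ : Fin 3 → MvPolynomial (Fin 3) S) (y : Fin 3 → S) :
    Matrix (Fin 3) (Fin 3) S :=
  Matrix.of fun i j => eval y (pderiv j (Φ i))

/-- The polynomials which define the iterates. -/
noncomputable def itR (F : Fin 3 → MvPolynomial (Fin 3) S) (N : ℕ) (i : Fin 3) :
    MvPolynomial (Fin 3) S :=
  (fun P => aeval F P)^[N] (X i)

/-- The equations of the superattracting points of period `N` (`Φ` is the `N`-th iterate). -/
def supEqs (Φ : Fin 3 → MvPolynomial (Fin 3) S) : Set (MvPolynomial (Fin 3) S) :=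
  {P | ∃ a b : Fin 3, P = Φ a * X b - Φ b * X a} ∪
    {P | P = (jmR Φ).det ∨ P = (jmR Φ).adjugate.trace}

/-- The map `Φ` in the chart given by the vectors `e 0, e 1, e 2`; the matrix `B` is the inverse
of the matrix with the rows `e 0, e 1, e 2`. -/
noncomputable def chA (e : Fin 3 → Fin 3 → S) (B : Matrix (Fin 3) (Fin 3) S)
    (Φ : Fin 3 → MvPolynomial (Fin 3) S) (a : Fin 3) : MvPolynomial (Fin 2) S :=
  ∑ i, C (B i a) * ch e (Φ i)

/-- The derivative of the map `(A 1 / A 0, A 2 / A 0)` at its fixed point `o`, multiplied by the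
value of `A 0`. -/
noncomputable def tM (A : Fin 3 → MvPolynomial (Fin 2) S) (o : Fin 2 → S) (i j : Fin 2) : S :=
  eval o (pderiv j (A i.succ)) - o i * eval o (pderiv j (A 0))

/-- Convergence of a sequence of points. -/
def Tends (π : S) (p : ℕ → Fin 2 → S) (o : Fin 2 → S) : Prop :=
  ∀ M : ℕ, ∃ J : ℕ, ∀ j, J ≤ j → ∀ i, π ^ M ∣ p j i - o i

end ring

end Pool.Agent.Helper63.TS2
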