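import Pool.Agent.Helper63.TS.SadT
import Pool.Agent.Helper63.TS2.Defs

/-!
# Convergence of the orbits of attracting germs
-/

set_option autoImplicit false

namespace Pool.Agent.Helper63.TS2

open MvPolynomial
open Pool.Agent.Helper63.TS

variable {R : Type} [CommRing R]

theorem Conv_zero [IsDomain R] {π : R} (hπ : Unif π) {r : R} (h : ∀ M : ℕ, π ^ M ∣ r) :
    r = 0 := by
  by_contra hr
  obtain ⟨e, u, hu, rfl⟩ := hπ.fact r hr
  have h1 := h (e + 1)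
  rw [pow_succ] at h1
  exact hu ((mul_dvd_mul_iff_left (pow_ne_zero e hπ.prime.ne_zero)).1 h1)

/-- The differences of consecutive points of an orbit. -/
theorem Conv_step {π : R} {A : Fin 3 → MvPolynomial (Fin 2) R} {p : ℕ → Fin 2 → R}
    (hp : Orb π A p) (j : ℕ) :
    ∃ t r s r' s' : R,
      ((A 0).coeff 0 + π * t) * (p (j + 1 + 1) 0 - p (j + 1) 0) =
        (cX (A 1) + π * r) * (p (j + 1) 0 - p j 0) + (cY (A 1) + π * s) * (p (j + 1) 1 - p j 1) ∧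
      ((A 0).coeff 0 + π * t) * (p (j + 1 + 1) 1 - p (j + 1) 1) =
        (cX (A 2) + π * r') * (p (j + 1) 0 - p j 0) +
          (cY (A 2) + π * s') * (p (j + 1) 1 - p j 1) := by
  obtain ⟨t, ht⟩ := eval_mod (A 0) (hp.small (j + 1))
  obtain ⟨a0, b0, h0⟩ := taylor_val (A 0) (hp.small (j + 1)) (hp.small j)
  obtain ⟨a1, b1, h1⟩ := taylor_val (A 1) (hp.small (j + 1)) (hp.small j)
  obtain ⟨a2, b2, h2⟩ := taylor_val (A 2) (hp.small (j + 1)) (hp.small j)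
  obtain ⟨q0, hq0⟩ := hp.small (j + 1) 0
  obtain ⟨q1, hq1⟩ := hp.small (j + 1) 1
  have e1 := hp.step0 j
  have e2 := hp.step0 (j + 1)
  have e3 := hp.step1 j
  have e4 := hp.step1 (j + 1)
  have ht' : (A 0).coeff 0 + π * t = eval (p (j + 1)) (A 0) := by
    linear_combination -ht
  refine ⟨t, a1 - q0 * (cX (A 0) + π * a0), b1 - q0 * (cY (A 0) + π * b0),
    a2 - q1 * (cX (A 0) + π * a0), b2 - q1 * (cY (A 0) + π * b0), ?_, ?_⟩
  · rw [ht']
    have e5 : (cX (A 1) + π * (a1 - q0 * (cX (A 0) + π * a0))) * (p (j + 1) 0 - p j 0) +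
        (cY (A 1) + π * (b1 - q0 * (cY (A 0) + π * b0))) * (p (j + 1) 1 - p j 1) =
        ((cX (A 1) + π * a1) * (p (j + 1) 0 - p j 0) +
          (cY (A 1) + π * b1) * (p (j + 1) 1 - p j 1)) -
        (π * q0) * ((cX (A 0) + π * a0) * (p (j + 1) 0 - p j 0) +
          (cY (A 0) + π * b0) * (p (j + 1) 1 - p j 1)) := by ring
    rw [e5, ← h1, ← h0, ← hq0]
    linear_combination e2 - e1
  · rw [ht']
    have e5 : (cX (A 2) + π * (a2 - q1 * (cX (A 0) + π * a0))) * (p (j + 1) 0 - p j 0) +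
        (cY (A 2) + π * (b2 - q1 * (cY (A 0) + π * b0))) * (p (j + 1) 1 - p j 1) =
        ((cX (A 2) + π * a2) * (p (j + 1) 0 - p j 0) +
          (cY (A 2) + π * b2) * (p (j + 1) 1 - p j 1)) -
        (π * q1) * ((cX (A 0) + π * a0) * (p (j + 1) 0 - p j 0) +
          (cY (A 0) + π * b0) * (p (j + 1) 1 - p j 1)) := by ring
    rw [e5, ← h2, ← h0, ← hq1]
    linear_combination e4 - e3

theorem Conv_unit {π : R} (hπ : Unif π) {a : R} (ha : ¬ π ∣ a) (t : R) :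
    IsUnit (a + π * t) := by
  refine hπ.unit _ fun h => ha ?_
  have h1 := dvd_sub h (Dvd.intro t rfl)
  rwa [add_sub_cancel_right] at h1

/-- One step does not increase the size. -/
theorem Conv_one {π : R} (hπ : Unif π) {A : Fin 3 → MvPolynomial (Fin 2) R}
    (hA0 : ¬ π ∣ (A 0).coeff 0) {p : ℕ → Fin 2 → R} (hp : Orb π A p) {j m : ℕ}
    (h : ∀ i, π ^ m ∣ p (j + 1) i - p j i) : ∀ i, π ^ m ∣ p (j + 1 + 1) i - p (j + 1) i := by
  obtain ⟨t, r, s, r', s', h0, h1⟩ := Conv_step hp j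
  have hu := Conv_unit hπ hA0 t
  intro i
  fin_cases i
  · refine (hu.dvd_mul_left).1 ?_
    show π ^ m ∣ ((A 0).coeff 0 + π * t) * (p (j + 1 + 1) 0 - p (j + 1) 0)
    rw [h0]
    exact dvd_add (Dvd.dvd.mul_left (h 0) _) (Dvd.dvd.mul_left (h 1) _)
  · refine (hu.dvd_mul_left).1 ?_
    show π ^ m ∣ ((A 0).coeff 0 + π * t) * (p (j + 1 + 1) 1 - p (j + 1) 1)
    rw [h1]
    exact dvd_add (Dvd.dvd.mul_left (h 0) _) (Dvd.dvd.mul_left (h 1) _)

/-- Two steps decrease the size. -/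
theorem Conv_two {π : R} (hπ : Unif π) {A : Fin 3 → MvPolynomial (Fin 2) R}
    (hA0 : ¬ π ∣ (A 0).coeff 0) (htr : π ∣ cX (A 1) + cY (A 2))
    (hdet : π ∣ cX (A 1) * cY (A 2) - cY (A 1) * cX (A 2)) {p : ℕ → Fin 2 → R}
    (hp : Orb π A p) {j m : ℕ} (h : ∀ i, π ^ m ∣ p (j + 1) i - p j i) :
    ∀ i, π ^ (m + 1) ∣ p (j + 1 + 1 + 1) i - p (j + 1 + 1) i := by
  have h' := Conv_one hπ hA0 hp h
  have h'' := Conv_one hπ hA0 hp h'
  obtain ⟨t, r, s, r', s', h0, h1⟩ := Conv_step hp j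
  obtain ⟨t₂, r₂, s₂, r₂', s₂', h2, h3⟩ := Conv_step hp (j + 1)
  obtain ⟨α, hα⟩ := htr
  obtain ⟨β, hβ⟩ := hdet
  obtain ⟨u0, hu0⟩ := h 0
  obtain ⟨u1, hu1⟩ := h 1
  obtain ⟨v0, hv0⟩ := h' 0
  obtain ⟨v1, hv1⟩ := h' 1
  obtain ⟨w0, hw0⟩ := h'' 0
  obtain ⟨w1, hw1⟩ := h'' 1
  rw [hu0, hu1, hv0] at h0
  rw [hu0, hu1, hv1] at h1
  rw [hv0, hv1, hw0] at h2
  rw [hv0, hv1, hw1] at h3
  have hu : IsUnit ((A 0).coeff 0) := hπ.unit _ hA0
  have key : ∀ i : Fin 2, π ^ (m + 1) ∣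
      (A 0).coeff 0 * ((A 0).coeff 0 * (p (j + 1 + 1 + 1) i - p (j + 1 + 1) i)) := by
    generalize (A 0).coeff 0 = a at h0 h1 h2 h3
    generalize cX (A 1) = x1 at h0 h2 hα hβ
    generalize cY (A 1) = y1 at h0 h2 hβ
    generalize cX (A 2) = x2 at h1 h3 hβ
    generalize cY (A 2) = y2 at h1 h3 hα hβ
    intro i
    fin_cases i
    · show π ^ (m + 1) ∣ a * (a * (p (j + 1 + 1 + 1) 0 - p (j + 1 + 1) 0))
      rw [hw0, pow_succ]
      refine ⟨a * (r₂ * v0 + s₂ * v1 - t₂ * w0) + x1 * (r * u0 + s * u1 - t * v0) +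
        y1 * (r' * u0 + s' * u1 - t * v1) + (x1 * α - β) * u0 + y1 * α * u1, ?_⟩
      linear_combination a * h2 + x1 * h0 + y1 * h1 + (x1 * u0 + y1 * u1) * π ^ m * hα -
        u0 * π ^ m * hβ
    · show π ^ (m + 1) ∣ a * (a * (p (j + 1 + 1 + 1) 1 - p (j + 1 + 1) 1))
      rw [hw1, pow_succ]
      refine ⟨a * (r₂' * v0 + s₂' * v1 - t₂ * w1) + x2 * (r * u0 + s * u1 - t * v0) +
        y2 * (r' * u0 + s' * u1 - t * v1) + x2 * α * u0 + (y2 * α - β) * u1, ?_⟩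
      linear_combination a * h3 + x2 * h0 + y2 * h1 + (x2 * u0 + y2 * u1) * π ^ m * hα -
        u1 * π ^ m * hβ
  intro i
  exact (hu.dvd_mul_left).1 ((hu.dvd_mul_left).1 (key i))

theorem conv [IsDomain R] {π : R} (hπ : Unif π) {A : Fin 3 → MvPolynomial (Fin 2) R}
    (hA0 : ¬ π ∣ (A 0).coeff 0) (htr : π ∣ cX (A 1) + cY (A 2))
    (hdet : π ∣ cX (A 1) * cY (A 2) - cY (A 1) * cX (A 2)) {p : ℕ → Fin 2 → R}
    (hp : Orb π A p) :
    ∀ M : ℕ, ∃ J : ℕ, ∀ j, J ≤ j → ∀ i, π ^ M ∣ p (j + 1) i - p j i := by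
  intro M
  induction M with
  | zero => exact ⟨0, fun j _ i => by rw [pow_zero]; exact one_dvd _⟩
  | succ M ih =>
    obtain ⟨J, hJ⟩ := ih
    refine ⟨J + 2, fun j hj => ?_⟩
    obtain ⟨j', rfl⟩ : ∃ j', j = j' + 1 + 1 := ⟨j - 2, by omega⟩
    exact Conv_two hπ hA0 htr hdet hp (hJ j' (by omega))

/-- Continuity of polynomials. -/
theorem tends_eval {π : R} {p : ℕ → Fin 2 → R} {o : Fin 2 → R} (h : Tends π p o)
    (P : MvPolynomial (Fin 2) R) :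
    ∀ M : ℕ, ∃ J : ℕ, ∀ j, J ≤ j → π ^ M ∣ eval (p j) P - eval o P := by
  intro M
  obtain ⟨J, hJ⟩ := h M
  refine ⟨J, fun j hj => ?_⟩
  obtain ⟨r, s, hrs⟩ := SadT_diff P (p j) o
  rw [hrs]
  exact dvd_add (Dvd.dvd.mul_left (hJ j hj 0) _) (Dvd.dvd.mul_left (hJ j hj 1) _)

/-- A polynomial which vanishes infinitely often vanishes at the limit. -/
theorem eval_lim_eq_zero [IsDomain R] {π : R} (hπ : Unif π) {p : ℕ → Fin 2 → R} {o : Fin 2 → R}
    (h : Tends π p o) {P : MvPolynomial (Fin 2) R} (hinf : {j | eval (p j) P = 0}.Infinite) :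
    eval o P = 0 := by
  refine Conv_zero hπ fun M => ?_
  obtain ⟨J, hJ⟩ := tends_eval h P M
  obtain ⟨j, hj, hJj⟩ := hinf.exists_gt J
  have h1 := hJ j hJj.le
  have h2 : eval (p j) P = 0 := hj
  rw [h2, zero_sub, dvd_neg] at h1
  exact h1

/-- The limit is a fixed point in the open bidisc. -/
theorem lim_fixed [IsDomain R] {π : R} (hπ : Unif π) {A : Fin 3 → MvPolynomial (Fin 2) R}
    {p : ℕ → Fin 2 → R} (hp : Orb π A p) {o : Fin 2 → R} (h : Tends π p o) :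
    (∀ i, π ∣ o i) ∧ o 0 * eval o (A 0) = eval o (A 1) ∧ o 1 * eval o (A 0) = eval o (A 2) := by
  have key : ∀ (i : Fin 2) (B : MvPolynomial (Fin 2) R),
      (∀ j, p (j + 1) i * eval (p j) (A 0) = eval (p j) B) → o i * eval o (A 0) = eval o B := by
    intro i B hB
    rw [← sub_eq_zero]
    refine Conv_zero hπ fun M => ?_
    obtain ⟨J, hJ⟩ := h M
    obtain ⟨J₁, hJ₁⟩ := tends_eval h (A 0) M
    obtain ⟨J₂, hJ₂⟩ := tends_eval h B M
    have h1 := hJ (J + J₁ + J₂ + 1) (by omega) i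
    have h2 := hJ₁ (J + J₁ + J₂) (by omega)
    have h3 := hJ₂ (J + J₁ + J₂) (by omega)
    have h4 := hB (J + J₁ + J₂)
    have h5 : o i * eval o (A 0) - eval o B =
        -((p (J + J₁ + J₂ + 1) i - o i) * eval o (A 0)) -
          p (J + J₁ + J₂ + 1) i * (eval (p (J + J₁ + J₂)) (A 0) - eval o (A 0)) +
          (eval (p (J + J₁ + J₂)) B - eval o B) := by
      linear_combination h4
    rw [h5]
    exact dvd_add (dvd_sub ((dvd_neg.2 (Dvd.dvd.mul_right h1 _))) (Dvd.dvd.mul_left h2 _)) h3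
  refine ⟨fun i => ?_, key 0 (A 1) hp.step0, key 1 (A 2) hp.step1⟩
  obtain ⟨J, hJ⟩ := h 1
  have h1 := hJ J le_rfl i
  rw [pow_one] at h1
  have h2 := dvd_sub (hp.small J i) h1
  rwa [sub_sub_cancel] at h2

end Pool.Agent.Helper63.TS2
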