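import Pool.Agent.Helper63.TS.LocalK

/-!
# Elimination over the valuation ring
-/

set_option autoImplicit false

namespace Pool.Agent.Helper63.TS2

open MvPolynomial
open Pool.Agent.Helper16 (Place IsFunctionField)
open Pool.Agent.Helper36 (step iter)
open Pool.Agent.Helper30.TP
open Pool.Agent.Helper63.TK
open Pool.Agent.Helper63.TS

variable {k K : Type} [Field k] [Field K] [Algebra k K]

theorem elim_ring (b : Place k K) {π : b.ring} (hπ : Unif π)
    (hπv : ∀ r : b.ring, π ∣ r ↔ b.val (r : K) < 1) {d : ℕ}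
    {F : Fin 3 → MvPolynomial (Fin 3) K} (hF : ∀ i, (F i).IsHomogeneous d)
    {h : MvPolynomial (Fin 3) K} {D : ℕ} (hh : h.IsHomogeneous D) (hirr : Irreducible h) {N : ℕ}
    (hnd : ¬ h ∣ (cmp F)^[N] h) {e : Fin 3 → Fin 3 → k} (hdet : (Matrix.of e).det ≠ 0)
    {H : MvPolynomial (Fin 3) b.ring} (hH1 : map (algebraMap b.ring K) H = h)
    {Φ : Fin 3 → MvPolynomial (Fin 3) b.ring}
    (hΦ1 : ∀ i, map (algebraMap b.ring K) (Φ i) = itF F N i) {p : ℕ → Fin 2 → b.ring}
    {P : ℕ → Fin 3 → b.ring} (hP : ∀ j, P j = pt (fun a i => algebraMap k b.ring (e a i)) (p j))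
    {σ : ℕ → b.ring} (hσ : ∀ j i, eval (P j) (Φ i) = σ j * P (j + 1) i) :
    ∃ ρR : Polynomial b.ring, ρR ≠ 0 ∧ ∀ j, ∃ a a' : b.ring,
      ρR.eval (p j 0) = a * eval (P j) H + a' * eval (P (j + 1)) H := by
  classical
  set ι : b.ring →+* K := algebraMap b.ring K with hι
  have hιinj : Function.Injective ι := fun u v huv => Subtype.ext huv
  have hιval : ∀ r, b.val (ι r) ≤ 1 := fun r => r.2
  have hcoe : ∀ (Q : MvPolynomial (Fin 3) b.ring) (u : Fin 3 → b.ring),
      ι (eval u Q) = eval (fun i => ι (u i)) (map ι Q) := by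
    intro Q u
    rw [eval_map]
    have := MvPolynomial.eval₂_comp_left ι (RingHom.id _) u Q
    rw [RingHom.comp_id] at this
    exact this
  have hH : ∀ j, ι (eval (P j) H) = eval (fun i => ι (P j i)) h := fun j => by rw [hcoe, hH1]
  -- elimination
  set eK : Matrix (Fin 3) (Fin 3) K := (algebraMap k K).mapMatrix (Matrix.of e) with heK
  have hdetK : eK.det ≠ 0 := by
    rw [heK, ← RingHom.map_det]
    exact (map_ne_zero _).2 hdet
  have hnd' : ¬ lin eK h ∣ lin eK ((cmp F)^[N] h) := fun h3 => hnd (lin_dvd hdetK h3)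
  obtain ⟨t, A, A', ρ, hρ0, hρh, hρ2, hρ⟩ := exists_elim (lin_hom eK hh)
    (lin_hom eK (cmp_iter_hom hF hh N)) (lin_irr hdetK hirr) hnd'
  have hlin : ∀ (j : ℕ) (Q : MvPolynomial (Fin 3) K),
      eval ![1, ι (p j 0), ι (p j 1)] (lin eK Q) = eval (fun i => ι (P j i)) Q := by
    intro j Q
    rw [lin_eval]
    congr 2
    funext i
    rw [Fin.sum_univ_three, hP j]
    simp only [pt, heK, RingHom.mapMatrix_apply, Matrix.map_apply, Matrix.of_apply, map_add,
      map_mul]
    have h3 : ∀ c : k, ι (algebraMap k b.ring c) = algebraMap k K c := fun c => rfl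
    rw [h3, h3, h3]
    simp
  -- the polynomial in one variable
  set ρ1 : Polynomial K := ∑ m ∈ ρ.support, Polynomial.monomial (m 1) (ρ.coeff m) with hρ1
  have hρ1e : ∀ u v : K, eval ![1, u, v] ρ = ρ1.eval u := by
    intro u v
    rw [hρ1, eval_eq', Polynomial.eval_finsetSum]
    refine Finset.sum_congr rfl fun m hm => ?_
    rw [Fin.prod_univ_three, hρ2 m hm, Polynomial.eval_monomial]
    simp
  have hρ1c : ∀ n, ρ1.coeff n = ∑ m ∈ ρ.support, if m 1 = n then ρ.coeff m else 0 := by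
    intro n
    rw [hρ1, Polynomial.finsetSum_coeff]
    exact Finset.sum_congr rfl fun m _ => Polynomial.coeff_monomial
  have hdeg : ∀ m ∈ ρ.support, m 0 + m 1 = t := by
    intro m hm
    have h3 := hρh (mem_support_iff.1 hm)
    have h4 : m.degree = t := by
      rw [← h3, Finsupp.degree_eq_weight_one]
      rfl
    rw [Finsupp.degree_eq_sum, Fin.sum_univ_three, hρ2 m hm] at h4
    omega
  have hρ10 : ρ1 ≠ 0 := by
    obtain ⟨m, hm⟩ := support_nonempty.2 hρ0
    intro h3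
    have h4 := hρ1c (m 1)
    rw [h3, Polynomial.coeff_zero, Finset.sum_eq_single m] at h4
    · rw [if_pos rfl] at h4
      exact (mem_support_iff.1 hm) h4.symm
    · intro m' hm' hne
      rw [if_neg]
      intro h5
      apply hne
      have h6 := hdeg m hm
      have h7 := hdeg m' hm'
      have h8 := hρ2 m hm
      have h9 := hρ2 m' hm'
      ext i
      fin_cases i
      · show m' 0 = m 0
        omega
      · exact h5
      · show m' 2 = m 2
        omega
    · intro h5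
      exact absurd hm h5
  -- denominators
  have hπ1 : b.val (ι π) ≤ WithZero.exp (-1 : ℤ) := by
    have h3 : b.val (ι π) < 1 := (hπv π).1 dvd_rfl
    by_cases h0 : b.val (ι π) = 0
    · rw [h0]
      exact zero_le
    · apply WithZero.le_exp_of_log_le
      have h4 := (WithZero.log_lt_log h0 one_ne_zero).2 h3
      rw [WithZero.log_one] at h4
      omega
  have hκ : ∀ (n : ℕ) (Q : MvPolynomial (Fin 3) K), WithZero.log (gs b Q) ≤ n →
      b.val (ι (π ^ n)) * gs b Q ≤ 1 := by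
    intro n Q hn
    have h3 : gs b Q ≤ WithZero.exp (n : ℤ) := WithZero.le_exp_of_log_le hn
    have h4 : b.val (ι (π ^ n)) ≤ WithZero.exp (-(n : ℤ)) := by
      rw [map_pow, map_pow]
      calc b.val (ι π) ^ n ≤ WithZero.exp (-1 : ℤ) ^ n := pow_le_pow_left' hπ1 n
        _ = WithZero.exp (-(n : ℤ)) := by
          rw [← WithZero.exp_nsmul]
          congr 1
          simp
    calc _ ≤ WithZero.exp (-(n : ℤ)) * WithZero.exp (n : ℤ) := mul_le_mul' h4 h3
      _ = 1 := by rw [← WithZero.exp_add]; simp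
  obtain ⟨n₁, hn₁⟩ : ∃ n₁ : ℕ, WithZero.log (gs b A) ≤ n₁ ∧ WithZero.log (gs b A') ≤ n₁ ∧
      WithZero.log (gs b ρ) ≤ n₁ := by
    refine ⟨(WithZero.log (gs b A)).toNat + (WithZero.log (gs b A')).toNat +
      (WithZero.log (gs b ρ)).toNat, ?_, ?_, ?_⟩ <;> push_cast <;> omega
  obtain ⟨hnA, hnA', hnρ⟩ := hn₁
  set κ : b.ring := π ^ n₁ with hκdef
  have hlift : ∀ Q : MvPolynomial (Fin 3) K, WithZero.log (gs b Q) ≤ n₁ → ∀ j, ∃ a : b.ring,
      ι a = ι κ * eval ![1, ι (p j 0), ι (p j 1)] Q := by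
    intro Q hQ j
    have h3 : b.val (eval ![1, ι (p j 0), ι (p j 1)] Q) ≤ gs b Q := by
      apply val_eval_le_gs
      intro i
      fin_cases i
      · simp
      · exact hιval _
      · exact hιval _
    refine ⟨⟨ι κ * eval ![1, ι (p j 0), ι (p j 1)] Q, ?_⟩, rfl⟩
    show b.val _ ≤ 1
    rw [map_mul]
    exact (mul_le_mul' le_rfl h3).trans (hκ n₁ Q hQ)
  have hρlift : Polynomial.C (ι κ) * ρ1 ∈ Polynomial.lifts ι := by
    rw [Polynomial.lifts_iff_coeff_lifts]
    intro n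
    have h3 : b.val (ρ1.coeff n) ≤ gs b ρ := by
      rw [hρ1c]
      refine b.val.map_sum_le fun m _ => ?_
      split_ifs
      · exact formHeight_le b ρ m
      · rw [map_zero]
        exact zero_le
    rw [Polynomial.coeff_C_mul]
    refine ⟨⟨ι κ * ρ1.coeff n, ?_⟩, rfl⟩
    show b.val _ ≤ 1
    rw [map_mul]
    exact (mul_le_mul' le_rfl h3).trans (hκ n₁ ρ hnρ)
  obtain ⟨ρR, hρR⟩ := (Polynomial.mem_lifts _).1 hρlift
  have hκ0 : ι κ ≠ 0 := by
    intro h3
    have h4 : κ = 0 := hιinj (h3.trans (map_zero ι).symm)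
    exact pow_ne_zero _ hπ.prime.ne_zero h4
  have hρR0 : ρR ≠ 0 := by
    rintro rfl
    rw [Polynomial.map_zero] at hρR
    rcases mul_eq_zero.1 hρR.symm with h3 | h3
    · exact hκ0 (Polynomial.C_eq_zero.1 h3)
    · exact hρ10 h3
  refine ⟨ρR, hρR0, fun j => ?_⟩
  obtain ⟨a, ha⟩ := hlift A hnA j
  obtain ⟨a', ha'⟩ := hlift A' hnA' j
  refine ⟨a, a' * σ j ^ D, ?_⟩
  apply hιinj
  have h3 : ι (ρR.eval (p j 0)) = (ρR.map ι).eval (ι (p j 0)) := by
    rw [Polynomial.eval_map, Polynomial.eval₂_at_apply]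
  rw [h3, hρR, Polynomial.eval_mul, Polynomial.eval_C, ← hρ1e (ι (p j 0)) (ι (p j 1)), ← hρ,
    map_add, map_mul, map_mul, hlin, hlin, eval_cmp_iter, map_add, map_mul, map_mul, ha,
    map_mul, ha', hH, hH]
  have h4 : iter F (fun i => ι (P j i)) N = ι (σ j) • fun i => ι (P (j + 1) i) := by
    funext i
    have h5 := congrArg ι (hσ j i)
    rw [hcoe, hΦ1, eval_itF, map_mul] at h5
    exact h5
  have h6 : ι (σ j ^ D) = ι (σ j) ^ D := map_pow _ _ _
  rw [h4, eval_smul_hom hh, h6]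
  ring

end Pool.Agent.Helper63.TS2
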