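import Pool.Agent.Helper63.TS2.Defs

/-!
# Power series expansions
-/

set_option autoImplicit false

namespace Pool.Agent.Helper63.TS2

open Pool.Agent.Helper63.TS

theorem unif_X (k : Type) [Field k] : Unif (PowerSeries.X : PowerSeries k) := by
  refine ⟨PowerSeries.X_prime, fun u hu => ?_, fun r hr => ?_⟩
  · rw [PowerSeries.isUnit_iff_constantCoeff, isUnit_iff_ne_zero]
    intro h
    exact hu (PowerSeries.X_dvd_iff.2 h)
  · exact WfDvdMonoid.max_power_factor hr PowerSeries.X_prime.irreducible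

section emb

set_option linter.unusedSectionVars false

variable {R k : Type} [CommRing R] [IsDomain R] [Field k] [Algebra k R]

lemma chi_aeval {π : R} (χ : R →+* k) (hχ : ∀ c : k, χ (algebraMap k R c) = c)
    (h0 : χ π = 0) (p : Polynomial k) : χ (Polynomial.aeval π p) = p.coeff 0 := by
  induction p using Polynomial.induction_on' with
  | add p q hp hq => rw [map_add, map_add, hp, hq, Polynomial.coeff_add]
  | monomial n a =>
    rw [Polynomial.aeval_monomial, map_mul, hχ, map_pow, h0]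
    cases n with
    | zero => simp
    | succ n => simp [Polynomial.coeff_monomial]

lemma pow_dvd_aeval {π : R} (hπ : π ≠ 0) (χ : R →+* k)
    (hχ : ∀ c : k, χ (algebraMap k R c) = c) (hχ0 : ∀ r, χ r = 0 ↔ π ∣ r) (n : ℕ)
    (p : Polynomial k) : π ^ n ∣ Polynomial.aeval π p ↔ Polynomial.X ^ n ∣ p := by
  have h0 : χ π = 0 := (hχ0 π).2 dvd_rfl
  constructor
  · induction n with
    | zero => intro _; simp
    | succ n ih =>
      intro h
      obtain ⟨q, hq⟩ := ih ((pow_dvd_pow π (Nat.le_succ n)).trans h)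
      rw [hq, map_mul, map_pow, Polynomial.aeval_X, pow_succ] at h
      have h1 : π ∣ Polynomial.aeval π q := (mul_dvd_mul_iff_left (pow_ne_zero n hπ)).1 h
      rw [← hχ0, chi_aeval χ hχ h0] at h1
      rw [hq, pow_succ]
      exact mul_dvd_mul_left _ (Polynomial.X_dvd_iff.2 h1)
  · rintro ⟨q, rfl⟩
    rw [map_mul, map_pow, Polynomial.aeval_X]
    exact Dvd.intro _ rfl

/-- `f` is the expansion of `r`. -/
def Rel (π : R) (r : R) (f : PowerSeries k) : Prop :=
  ∀ n : ℕ, ∃ p : Polynomial k, PowerSeries.X ^ n ∣ f - (p : PowerSeries k) ∧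
    π ^ n ∣ r - Polynomial.aeval π p

lemma coe_dvd (n : ℕ) (p : Polynomial k) :
    (PowerSeries.X ^ n ∣ (p : PowerSeries k)) ↔ Polynomial.X ^ n ∣ p := by
  rw [PowerSeries.X_pow_dvd_iff, Polynomial.X_pow_dvd_iff]
  simp only [Polynomial.coeff_coe]

lemma Rel.add {π r r' : R} {f f' : PowerSeries k} (h : Rel π r f) (h' : Rel π r' f') :
    Rel π (r + r') (f + f') := by
  intro n
  obtain ⟨p, hp, hr⟩ := h n
  obtain ⟨p', hp', hr'⟩ := h' n
  refine ⟨p + p', ?_, ?_⟩
  · have e : f + f' - ((p + p' : Polynomial k) : PowerSeries k) =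
        (f - (p : PowerSeries k)) + (f' - (p' : PowerSeries k)) := by
      rw [Polynomial.coe_add]; ring
    rw [e]
    exact dvd_add hp hp'
  · have e : r + r' - Polynomial.aeval π (p + p') =
        (r - Polynomial.aeval π p) + (r' - Polynomial.aeval π p') := by
      rw [map_add]; ring
    rw [e]
    exact dvd_add hr hr'

lemma Rel.mul {π r r' : R} {f f' : PowerSeries k} (h : Rel π r f) (h' : Rel π r' f') :
    Rel π (r * r') (f * f') := by
  intro n
  obtain ⟨p, hp, hr⟩ := h n
  obtain ⟨p', hp', hr'⟩ := h' n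
  refine ⟨p * p', ?_, ?_⟩
  · have e : f * f' - ((p * p' : Polynomial k) : PowerSeries k) =
        (f - (p : PowerSeries k)) * f' + (p : PowerSeries k) * (f' - (p' : PowerSeries k)) := by
      rw [Polynomial.coe_mul]; ring
    rw [e]
    exact dvd_add (dvd_mul_of_dvd_left hp _) (dvd_mul_of_dvd_right hp' _)
  · have e : r * r' - Polynomial.aeval π (p * p') =
        (r - Polynomial.aeval π p) * r' + Polynomial.aeval π p * (r' - Polynomial.aeval π p') := by
      rw [map_mul]; ring
    rw [e]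
    exact dvd_add (dvd_mul_of_dvd_left hr _) (dvd_mul_of_dvd_right hr' _)

lemma rel_algebraMap (π : R) (c : k) : Rel π (algebraMap k R c) (PowerSeries.C c) := by
  intro n
  refine ⟨Polynomial.C c, ?_, ?_⟩
  · rw [Polynomial.coe_C, sub_self]
    exact dvd_zero _
  · rw [Polynomial.aeval_C, sub_self]
    exact dvd_zero _

lemma Rel.pow_dvd {π r : R} (hπ : π ≠ 0) {χ : R →+* k}
    (hχ : ∀ c : k, χ (algebraMap k R c) = c) (hχ0 : ∀ r, χ r = 0 ↔ π ∣ r)
    {f : PowerSeries k} (h : Rel π r f) (n : ℕ) : π ^ n ∣ r ↔ PowerSeries.X ^ n ∣ f := by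
  obtain ⟨p, hp, hr⟩ := h n
  rw [← dvd_iff_dvd_of_dvd_sub hr |>.symm, pow_dvd_aeval hπ χ hχ hχ0, ← coe_dvd,
    dvd_iff_dvd_of_dvd_sub hp]

lemma Rel.unique {π r : R} (hπ : π ≠ 0) {χ : R →+* k}
    (hχ : ∀ c : k, χ (algebraMap k R c) = c) (hχ0 : ∀ r, χ r = 0 ↔ π ∣ r)
    {f f' : PowerSeries k} (h : Rel π r f) (h' : Rel π r f') : f = f' := by
  have h1 : Rel π (r + algebraMap k R (-1) * r) (f + PowerSeries.C (-1) * f') :=
    h.add ((rel_algebraMap π (-1)).mul h')
  have e1 : r + algebraMap k R (-1) * r = 0 := by rw [map_neg, map_one]; ring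
  have e2 : f + PowerSeries.C (-1) * f' = f - f' := by rw [map_neg, map_one]; ring
  rw [e1, e2] at h1
  rw [← sub_eq_zero]
  ext n
  have h2 := (h1.pow_dvd hπ hχ hχ0 (n + 1)).1 (dvd_zero _)
  rw [PowerSeries.X_pow_dvd_iff] at h2
  rw [h2 n (Nat.lt_succ_self n)]
  simp

lemma rel_exists {π : R} (χ : R →+* k) (hχ : ∀ c : k, χ (algebraMap k R c) = c)
    (hχ0 : ∀ r, χ r = 0 ↔ π ∣ r) (r : R) : ∃ f : PowerSeries k, Rel π r f := by
  have hstep : ∀ r : R, ∃ r' : R, r - algebraMap k R (χ r) = π * r' := by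
    intro r
    have : χ (r - algebraMap k R (χ r)) = 0 := by rw [map_sub, hχ, sub_self]
    exact (hχ0 _).1 this
  choose nx hnx using hstep
  obtain ⟨s, hs⟩ : ∃ s : ℕ → R, s = fun n => nx^[n] r := ⟨_, rfl⟩
  have hs0 : s 0 = r := by rw [hs]; rfl
  have hs1 : ∀ n, s n - algebraMap k R (χ (s n)) = π * s (n + 1) := by
    intro n
    rw [hs]
    simp only [Function.iterate_succ_apply']
    exact hnx _
  refine ⟨PowerSeries.mk fun n => χ (s n), fun n => ?_⟩
  refine ⟨PowerSeries.trunc n (PowerSeries.mk fun n => χ (s n)), ?_, ?_⟩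
  · rw [PowerSeries.X_pow_dvd_iff]
    intro m hm
    rw [map_sub, Polynomial.coeff_coe, PowerSeries.coeff_trunc, if_pos hm, sub_self]
  · have key : r - Polynomial.aeval π (PowerSeries.trunc n (PowerSeries.mk fun n => χ (s n))) =
        π ^ n * s n := by
      induction n with
      | zero => simp [hs0]
      | succ n ih =>
        rw [PowerSeries.trunc_succ, map_add, PowerSeries.coeff_mk, Polynomial.aeval_monomial,
          ← sub_sub, ih, pow_succ, mul_assoc, ← hs1]
        ring
    rw [key]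
    exact Dvd.intro _ rfl

end emb

theorem exists_emb {R k : Type} [CommRing R] [IsDomain R] [Field k] [Algebra k R] {π : R}
    (hπ : Unif π) (χ : R →+* k) (hχ : ∀ c : k, χ (algebraMap k R c) = c)
    (hχ0 : ∀ r, χ r = 0 ↔ π ∣ r) :
    ∃ j : R →+* PowerSeries k, (∀ r n, π ^ n ∣ r ↔ PowerSeries.X ^ n ∣ j r) ∧
      (∀ r, PowerSeries.constantCoeff (j r) = χ r) ∧
      ∀ c : k, j (algebraMap k R c) = PowerSeries.C c := by
  have hne : π ≠ 0 := hπ.prime.ne_zero
  choose j hj using rel_exists (π := π) χ hχ hχ0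
  have hu : ∀ {r : R} {f : PowerSeries k}, Rel π r f → j r = f := fun h =>
    (hj _).unique hne hχ hχ0 h
  have h1 : Rel π 1 (1 : PowerSeries k) := by
    have := rel_algebraMap (k := k) π 1
    rwa [map_one, map_one] at this
  have h0 : Rel π 0 (0 : PowerSeries k) := by
    have := rel_algebraMap (k := k) π 0
    rwa [map_zero, map_zero] at this
  let J : R →+* PowerSeries k :=
    { toFun := j
      map_one' := hu h1
      map_zero' := hu h0
      map_mul' := fun a b => hu ((hj a).mul (hj b))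
      map_add' := fun a b => hu ((hj a).add (hj b)) }
  refine ⟨J, ?_, ?_, ?_⟩
  · intro r n
    exact (hj r).pow_dvd hne hχ hχ0 n
  · intro r
    obtain ⟨p, hp, hr⟩ := hj r 1
    rw [pow_one, PowerSeries.X_dvd_iff, map_sub, sub_eq_zero] at hp
    rw [pow_one, ← hχ0, map_sub, sub_eq_zero, chi_aeval χ hχ ((hχ0 π).2 dvd_rfl)] at hr
    show PowerSeries.constantCoeff (j r) = χ r
    rw [hp, hr]
    simp
  · intro c
    exact hu (rel_algebraMap π c)

theorem exists_lim {k : Type} [Field k] {r : ℕ → Fin 2 → PowerSeries k}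
    (h : ∀ M : ℕ, ∃ J : ℕ, ∀ j, J ≤ j → ∀ i, PowerSeries.X ^ M ∣ r (j + 1) i - r j i) :
    ∃ o : Fin 2 → PowerSeries k, Tends PowerSeries.X r o := by
  choose J hJ using h
  refine ⟨fun i => PowerSeries.mk fun n => PowerSeries.coeff n (r (J (n + 1)) i), fun M => ?_⟩
  refine ⟨(Finset.range M).sup fun n => J (n + 1), fun j hj i => ?_⟩
  rw [PowerSeries.X_pow_dvd_iff]
  intro n hn
  have h1 : J (n + 1) ≤ j :=
    (Finset.le_sup (f := fun n => J (n + 1)) (Finset.mem_range.2 hn)).trans hj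
  rw [map_sub, PowerSeries.coeff_mk, sub_eq_zero]
  clear hj
  induction j, h1 using Nat.le_induction with
  | base => rfl
  | succ m hm ih =>
    have h2 := hJ (n + 1) m hm i
    rw [PowerSeries.X_pow_dvd_iff] at h2
    have h3 := h2 n (Nat.lt_succ_self n)
    rw [map_sub, sub_eq_zero] at h3
    rw [h3]
    exact ih

end Pool.Agent.Helper63.TS2
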