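import Pool.Agent.Helper63.TS.IterF
import Pool.Agent.Helper63.TS2.Defs

/-!
# Iterates over rings
-/

set_option autoImplicit false

namespace Pool.Agent.Helper63.TS2

open MvPolynomial
open Pool.Agent.Helper30.TP
open Pool.Agent.Helper63.TS

section

variable {S : Type} [CommRing S]

theorem map_itR {S' : Type} [CommRing S'] (φ : S →+* S') (F : Fin 3 → MvPolynomial (Fin 3) S)
    (N : ℕ) (i : Fin 3) : map φ (itR F N i) = itR (fun i => map φ (F i)) N i := by
  have hstep : ∀ P : MvPolynomial (Fin 3) S,
      map φ (aeval F P) = aeval (fun i => map φ (F i)) (map φ P) := by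
    intro P
    induction P using MvPolynomial.induction_on with
    | C a => rw [map_C, aeval_C, aeval_C, algebraMap_eq, algebraMap_eq, map_C]
    | add p q hp hq => rw [map_add, map_add, hp, hq, map_add, map_add]
    | mul_X p n hp => rw [map_mul, map_mul, hp, map_mul, map_mul, map_X, aeval_X, aeval_X]
  unfold itR
  induction N with
  | zero => exact map_X φ i
  | succ N ih => rw [Function.iterate_succ_apply', Function.iterate_succ_apply', hstep, ih]

theorem itR_hom {d : ℕ} {F : Fin 3 → MvPolynomial (Fin 3) S} (hF : ∀ i, (F i).IsHomogeneous d)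
    (N : ℕ) (i : Fin 3) : (itR F N i).IsHomogeneous (d ^ N) := by
  unfold itR
  induction N with
  | zero => rw [pow_zero]; exact isHomogeneous_X S i
  | succ N ih =>
    rw [Function.iterate_succ_apply', pow_succ']
    exact ih.aeval F hF

/-- A kernel vector of the derivative of the map is a kernel vector of the derivatives of the
iterates. -/
theorem jacR_itR_ker {F : Fin 3 → MvPolynomial (Fin 3) S} {y κ : Fin 3 → S}
    (hκ : (jacR F y).mulVec κ = 0) {N : ℕ} (hN : 0 < N) :
    (jacR (itR F N) y).mulVec κ = 0 := by
  have hchain : ∀ (g : Fin 3 → MvPolynomial (Fin 3) S) (j : Fin 3) (P : MvPolynomial (Fin 3) S),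
      pderiv j (aeval g P) = ∑ l, aeval g (pderiv l P) * pderiv j (g l) := by
    intro g j P
    induction P using MvPolynomial.induction_on with
    | C a => simp
    | add p q hp hq =>
      simp only [map_add, hp, hq, add_mul, Finset.sum_add_distrib]
    | mul_X p n hp =>
      simp only [map_mul, aeval_X, Derivation.leibniz, hp, smul_eq_mul, map_add, add_mul,
        Finset.sum_add_distrib]
      congr 1
      · rw [Finset.sum_eq_single n]
        · simp
        · intro l _ hl
          rw [pderiv_X_of_ne hl.symm]
          simp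
        · intro h
          exact absurd (Finset.mem_univ n) h
      · rw [Finset.mul_sum]
        exact Finset.sum_congr rfl fun l _ => by ring
  obtain ⟨M, rfl⟩ := Nat.exists_eq_succ_of_ne_zero hN.ne'
  funext i
  have h1 : ∀ l, ∑ j, eval y (pderiv j (F l)) * κ j = 0 := fun l => congrFun hκ l
  have h2 : itR F (M + 1) i = aeval F (itR F M i) := by
    unfold itR
    rw [Function.iterate_succ_apply']
  change ∑ j, eval y (pderiv j (itR F (M + 1) i)) * κ j = 0
  simp only [h2, hchain, map_sum, map_mul, Finset.sum_mul]
  rw [Finset.sum_comm]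
  refine Finset.sum_eq_zero fun l _ => ?_
  simp only [mul_assoc]
  rw [← Finset.mul_sum, h1, mul_zero]

theorem map_jmR {S' : Type} [CommRing S'] (φ : S →+* S') (Φ : Fin 3 → MvPolynomial (Fin 3) S) :
    (map φ) (jmR Φ).det = (jmR fun i => map φ (Φ i)).det ∧
    (map φ) (jmR Φ).adjugate.trace = (jmR fun i => map φ (Φ i)).adjugate.trace := by
  have h1 : (map φ).mapMatrix (jmR Φ) = jmR fun i => map φ (Φ i) := by
    ext1 i j
    exact (pderiv_map (φ := φ)).symm
  constructor
  · rw [RingHom.map_det, h1]
  · rw [← h1, ← RingHom.map_adjugate, Matrix.trace, Matrix.trace, map_sum]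
    rfl

theorem eval_jmR (Φ : Fin 3 → MvPolynomial (Fin 3) S) (y : Fin 3 → S) :
    eval y (jmR Φ).det = (jacR Φ y).det ∧
    eval y (jmR Φ).adjugate.trace = (jacR Φ y).adjugate.trace := by
  have h1 : (eval y).mapMatrix (jmR Φ) = jacR Φ y := rfl
  constructor
  · rw [RingHom.map_det, h1]
  · rw [← h1, ← RingHom.map_adjugate, Matrix.trace, Matrix.trace, map_sum]
    rfl

end

section

variable {K : Type} [Field K]

theorem itR_eq (F : Fin 3 → MvPolynomial (Fin 3) K) (N : ℕ) : itR F N = itF F N := by
  rfl

theorem jacR_eq (F : Fin 3 → MvPolynomial (Fin 3) K) (y : Fin 3 → K) (N : ℕ) :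
    jacR (itF F N) y = mult F y N := by
  ext i j
  exact pderiv_itF F y N i j

end

end Pool.Agent.Helper63.TS2
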