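import Pool.Agent.Helper63.TS2.LocalCS
import Pool.Agent.Helper63.TS2.ElimR
import Pool.Agent.Helper63.TS.Trans

/-!
# The local argument at an attracting cycle
-/

set_option autoImplicit false

namespace Pool.Agent.Helper63.TS2

open MvPolynomial
open Pool.Agent.Helper16 (Place IsFunctionField)
open Pool.Agent.Helper36 (step iter)
open Pool.Agent.Helper30.TP
open Pool.Agent.Helper63.TK
open Pool.Agent.Helper63.TS

variable {k K : Type} [Field k] [Field K] [Algebra k K]

/-- A vector can be completed to a basis. -/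
theorem exists_basis_of {w : Fin 3 → k} (hw : w ≠ 0) :
    ∃ e : Fin 3 → Fin 3 → k, e 0 = w ∧ (Matrix.of e).det ≠ 0 := by
  obtain ⟨i, hi⟩ := Function.ne_iff.1 hw
  rw [Pi.zero_apply] at hi
  have h0 : w 0 ≠ 0 ∨ w 0 = 0 := (em _).symm
  rcases h0 with h | h
  · refine ⟨![w, ![0, 1, 0], ![0, 0, 1]], rfl, ?_⟩
    rw [Matrix.det_fin_three]
    simpa using h
  rcases (em (w 1 = 0)).symm with h1 | h1
  · refine ⟨![w, ![1, 0, 0], ![0, 0, 1]], rfl, ?_⟩
    rw [Matrix.det_fin_three]
    simpa [h] using h1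
  · have h2 : w 2 ≠ 0 := by
      fin_cases i
      · exact absurd h hi
      · exact absurd h1 hi
      · exact hi
    refine ⟨![w, ![1, 0, 0], ![0, 1, 0]], rfl, ?_⟩
    rw [Matrix.det_fin_three]
    simpa [h, h1] using h2

theorem local_C [IsAlgClosed k] [CharZero k] (hK : IsFunctionField k K) {d : ℕ} (hd : 1 ≤ d)
    {F : Fin 3 → MvPolynomial (Fin 3) K}
    (hF : ∀ i, (F i).IsHomogeneous d) {h : MvPolynomial (Fin 3) K} {D : ℕ}
    (hh : h.IsHomogeneous D) (hirr : Irreducible h) (hJ : h ∣ jf F) {b : Place k K}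
    {f : Fin 3 → MvPolynomial (Fin 3) k} (hf : GoodRed d b F f) {g : MvPolynomial (Fin 3) k}
    (hg : RedP b h g) {N : ℕ} (hN : 0 < N) {Q : MvPolynomial (Fin 3) K} {s₀ : ℕ}
    (hQ : Q ^ s₀ ∈ Ideal.span (supEqs (itF F N))) {q : MvPolynomial (Fin 3) k}
    (hq : RedP b Q q) {y : ℕ → Fin 3 → K}
    (hstep : ∀ j, y (j + 1) = iter F (y j) N) (hdist : ∀ j j', j ≠ j' → ¬ PEq (y j) (y j'))
    {w : Fin 3 → k} (hw : ∀ j, Red b (y j) w)
    {γ : k} (hγ : γ ≠ 0) (hper : iter f w N = γ • w) (hJw : eval w (jf f) = 0)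
    (htr : (mult f w N).adjugate.trace = 0) {j₀ : Fin 3} (hR : eval w (rf f g j₀) ≠ 0)
    (hqw : eval w q ≠ 0) (hinf : {j | eval (y j) h = 0}.Infinite) : h ∣ (cmp F)^[N] h := by
  classical
  by_contra hnd
  obtain ⟨e, he0, hdet⟩ := exists_basis_of (hw 0).1
  obtain ⟨π, hπ, hπv⟩ := exists_unif b
  obtain ⟨χ, hχ, hχv⟩ := exists_chi hK b
  have hχ0 : ∀ r, χ r = 0 ↔ π ∣ r := fun r => (hχv r).trans (hπv r).symm
  choose FR hFR1 hFR2 using fun i => exists_lift b hχ hχv (hf.red i)
  obtain ⟨H, hH1, hH2⟩ := exists_lift b hχ hχv hg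
  obtain ⟨QR, hQR1, hQR2⟩ := exists_lift b hχ hχv hq
  rw [← he0] at hw
  choose s p hs hp hy using fun j => exists_coord b hdet (hw j)
  set eR : Fin 3 → Fin 3 → b.ring := fun a i => algebraMap k b.ring (e a i) with heR
  set P : ℕ → Fin 3 → b.ring := fun j => pt eR (p j) with hP
  set ι : b.ring →+* K := algebraMap b.ring K with hι
  have hιinj : Function.Injective ι := fun u v huv => Subtype.ext huv
  have hyP : ∀ j, y j = s j • fun i => ι (P j i) := fun j => hy j
  -- the lifts
  have hFRh : ∀ i, (FR i).IsHomogeneous d := by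
    intro i
    refine IsHomogeneous.of_map hιinj ?_
    rw [hFR1]
    exact hF i
  have hHh : H.IsHomogeneous D := by
    refine IsHomogeneous.of_map hιinj ?_
    rw [hH1]
    exact hh
  have hΦ1 : ∀ i, map ι (itR FR N i) = itF F N i := by
    intro i
    rw [map_itR, ← itR_eq]
    congr 1
    funext l
    exact hFR1 l
  have hFk : (fun i => map χ (FR i)) = f := by
    funext i
    exact hFR2 i
  have hΦ2 : (fun i => map χ (itR FR N i)) = itF f N := by
    rw [← itR_eq]
    funext i
    rw [map_itR, hFk]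
  -- the dual basis
  have hB2 : Matrix.of e * (Matrix.of e)⁻¹ = 1 :=
    Matrix.mul_nonsing_inv _ (isUnit_iff_ne_zero.2 hdet)
  set B := (Matrix.of e)⁻¹ with hB
  have hBR : Matrix.of eR * (algebraMap k b.ring).mapMatrix B = 1 := by
    have h1 := congrArg (algebraMap k b.ring).mapMatrix hB2
    rw [map_mul, map_one] at h1
    exact h1
  -- the steps
  have hst : ∀ j, ∃ σ : b.ring, ∀ i, eval (P j) (itR FR N i) = σ * P (j + 1) i := by
    intro j
    have h3 : iter F (fun i => ι (P j i)) N =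
        (s (j + 1) / s j ^ d ^ N) • fun i => ι (P (j + 1) i) := by
      have h4 := hstep j
      rw [hyP j, hyP (j + 1), iter_smulK hF] at h4
      rw [div_eq_inv_mul, mul_smul, h4, smul_smul, inv_mul_cancel₀ (pow_ne_zero _ (hs j)),
        one_smul]
    have h5 : ∀ i, ι (eval (P j) (itR FR N i)) = s (j + 1) / s j ^ d ^ N * ι (P (j + 1) i) := by
      intro i
      rw [ev_map, hΦ1, eval_itF, h3]
      rfl
    refine ⟨∑ i, (algebraMap k b.ring).mapMatrix B i 0 * eval (P j) (itR FR N i), fun i => ?_⟩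
    have h6 : ι (∑ i, (algebraMap k b.ring).mapMatrix B i 0 * eval (P j) (itR FR N i)) =
        s (j + 1) / s j ^ d ^ N := by
      rw [map_sum]
      have h8 : ∀ i, ι ((algebraMap k b.ring).mapMatrix B i 0 * eval (P j) (itR FR N i)) =
          s (j + 1) / s j ^ d ^ N *
            ι ((algebraMap k b.ring).mapMatrix B i 0 * P (j + 1) i) := by
        intro i
        rw [map_mul, h5 i, map_mul]
        ring
      rw [Finset.sum_congr rfl fun i _ => h8 i, ← Finset.mul_sum, ← map_sum,
        (pt_coord hBR (p (j + 1))).1, map_one, mul_one]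
    apply hιinj
    rw [h5 i, map_mul, h6]
  choose σ hσ using hst
  have hinj : Function.Injective p := by
    intro j j' hjj
    by_contra hne
    apply hdist j j' hne
    refine ⟨s j' / s j, div_ne_zero (hs j') (hs j), ?_⟩
    have h3 : P j = P j' := by rw [hP]; simp only [hjj]
    rw [hyP j, hyP j', smul_smul, div_mul_cancel₀ _ (hs j), h3]
  have hH : ∀ j, ι (eval (P j) H) = eval (fun i => ι (P j i)) h := fun j => by rw [ev_map, hH1]
  have hinf' : {j | eval (P j) H = 0}.Infinite := by
    refine hinf.mono fun j hj => ?_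
    have h3 : eval (y j) h = 0 := hj
    rw [hyP j, eval_smul_hom hh, ← hH] at h3
    rcases mul_eq_zero.1 h3 with h4 | h4
    · exact absurd h4 (pow_ne_zero _ (hs j))
    · exact hιinj (h4.trans (map_zero ι).symm)
  have hJinf : {j | (jacR FR (P j)).det = 0}.Infinite := by
    refine hinf'.mono fun j hj => ?_
    have h3 : eval (P j) H = 0 := hj
    show (jacR FR (P j)).det = 0
    apply hιinj
    rw [map_zero, RingHom.map_det, map_jacR]
    have h4 : (jacR (fun i => map ι (FR i)) fun i => ι (P j i)).det =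
        eval (fun i => ι (P j i)) (jf F) := by
      rw [eval_jf]
      congr 2
      funext i
      exact hFR1 i
    rw [h4]
    obtain ⟨c, hc⟩ := hJ
    rw [hc, map_mul, ← hH, h3, map_zero, zero_mul]
  -- elimination
  obtain ⟨ρ₁, hρ10, hρ1⟩ := elim_ring b hπ hπv hF hh hirr hnd hdet hH1 hΦ1 (P := P) (p := p)
    (fun j => rfl) hσ
  obtain ⟨ρ₂, hρ20, hρ2⟩ := elim_ring b hπ hπv hF hh hirr hnd (e := ![e 0, e 2, e 1]) (by
      have h1 : (Matrix.of ![e 0, e 2, e 1]).det = -(Matrix.of e).det := by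
        rw [Matrix.det_fin_three, Matrix.det_fin_three]
        simp
        ring
      rw [h1]
      exact neg_ne_zero.2 hdet) hH1 hΦ1 (P := P) (p := fun j => ![p j 1, p j 0])
    (fun j => by
      rw [hP]
      funext i
      simp only [pt, heR, Matrix.cons_val_zero, Matrix.cons_val_one, Matrix.cons_val]
      ring) hσ
  -- the equations
  have heq := local_CS hπ χ hχ hχ0 hd hFRh hN hHh hdet hγ (j₀ := j₀) (by
      intro i
      have h1 := congrFun hΦ2 i
      rw [h1, eval_itF, he0, hper]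
      rfl) (by
      rw [hFk, he0]
      rw [eval_jf] at hJw
      exact hJw) (by
      rw [hΦ2, jacR_eq, he0]
      exact htr) (by
      rw [hFk, hH2, he0]
      rw [eval_rf] at hR
      exact hR) (p := p) (fun j i => (hπv _).2 (hp j i)) hinj hσ hinf' hJinf hρ10 hρ20
    (fun j => ⟨hρ1 j, hρ2 j⟩)
  -- values
  have hπ1 : ∀ M : ℕ, ∀ r : b.ring, π ^ M ∣ r → b.val (ι r) ≤ WithZero.exp (-(M : ℤ)) := by
    intro M r hr
    have h0 : b.val (ι π) ≤ WithZero.exp (-1 : ℤ) := by
      have h3 : b.val (ι π) < 1 := (hπv π).1 dvd_rfl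
      by_cases h0 : b.val (ι π) = 0
      · rw [h0]
        exact zero_le
      · apply WithZero.le_exp_of_log_le
        have h4 := (WithZero.log_lt_log h0 one_ne_zero).2 h3
        rw [WithZero.log_one] at h4
        omega
    obtain ⟨c, rfl⟩ := hr
    rw [map_mul, map_mul, map_pow, map_pow]
    calc b.val (ι π) ^ M * b.val (ι c) ≤ WithZero.exp (-1 : ℤ) ^ M * 1 :=
          mul_le_mul' (pow_le_pow_left' h0 M) c.2
      _ = WithZero.exp (-(M : ℤ)) := by
          rw [mul_one, ← WithZero.exp_nsmul]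
          congr 1
          simp
  have hspan : ∀ T ∈ Ideal.span (supEqs (itF F N)), ∀ M : ℕ, ∃ J : ℕ, ∀ j, J ≤ j →
      b.val (eval (fun i => ι (P j i)) T) ≤ WithZero.exp (-(M : ℤ)) := by
    intro T hT
    induction hT using Submodule.span_induction with
    | mem T hT =>
      have h1 : ∃ T' ∈ supEqs (itR FR N), map ι T' = T := by
        have h2 : (fun i => map ι (itR FR N i)) = itF F N := by
          funext i
          exact hΦ1 i
        rcases hT with ⟨a, c, rfl⟩ | h3 | h3
        · refine ⟨_, Or.inl ⟨a, c, rfl⟩, ?_⟩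
          rw [map_sub, map_mul, map_mul, map_X, map_X, hΦ1, hΦ1]
        · have h3' : T = (jmR (itF F N)).det := h3
          refine ⟨_, Or.inr (Or.inl rfl), ?_⟩
          rw [(map_jmR ι _).1, h2, h3']
        · have h3' : T = (jmR (itF F N)).adjugate.trace := h3
          refine ⟨_, Or.inr (Or.inr rfl), ?_⟩
          rw [(map_jmR ι _).2, h2, h3']
      obtain ⟨T', hT', rfl⟩ := h1
      intro M
      obtain ⟨J, hJ'⟩ := heq T' hT' M
      refine ⟨J, fun j hj => ?_⟩
      rw [← ev_map]
      exact hπ1 M _ (hJ' j hj)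
    | zero =>
      intro M
      refine ⟨0, fun j _ => ?_⟩
      rw [map_zero, map_zero]
      exact zero_le
    | add T T' _ _ h1 h2 =>
      intro M
      obtain ⟨J, hJ1⟩ := h1 M
      obtain ⟨J', hJ2⟩ := h2 M
      refine ⟨max J J', fun j hj => ?_⟩
      rw [map_add]
      exact (b.val.map_add _ _).trans (max_le (hJ1 j ((le_max_left _ _).trans hj))
        (hJ2 j ((le_max_right _ _).trans hj)))
    | smul c T _ h1 =>
      intro M
      obtain ⟨J, hJ1⟩ := h1 (M + (WithZero.log (gs b c)).toNat)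
      refine ⟨J, fun j hj => ?_⟩
      rw [smul_eq_mul, map_mul, map_mul]
      have h2 : b.val (eval (fun i => ι (P j i)) c) ≤ gs b c := val_eval_le_gs b c fun i => (P j i).2
      have h3 : gs b c ≤ WithZero.exp (((WithZero.log (gs b c)).toNat : ℕ) : ℤ) := by
        apply WithZero.le_exp_of_log_le
        exact Int.self_le_toNat _
      calc _ ≤ WithZero.exp (((WithZero.log (gs b c)).toNat : ℕ) : ℤ) *
            WithZero.exp (-((M + (WithZero.log (gs b c)).toNat : ℕ) : ℤ)) :=
            mul_le_mul' (h2.trans h3) (hJ1 j hj)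
        _ = WithZero.exp (-(M : ℤ)) := by
            rw [← WithZero.exp_add]
            congr 1
            push_cast
            ring
  obtain ⟨J, hJ1⟩ := hspan _ hQ 1
  have h1 := hJ1 J le_rfl
  have h2 : b.val (eval (fun i => ι (P J i)) Q) = 1 := by
    have h3 : eval (fun i => ι (P J i)) Q = ι (eval (P J) QR) := by rw [ev_map, hQR1]
    rw [h3]
    refine le_antisymm (eval (P J) QR).2 ?_
    by_contra h4
    rw [not_le] at h4
    have h5 := (hχv _).2 h4
    rw [ev_map, hQR2] at h5
    apply hqw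
    rw [← h5, ← he0]
    congr 2
    funext i
    rw [hP, map_pt]
    have h6 : (fun (l : Fin 2) => χ (p J l)) = 0 := by
      funext l
      exact (hχ0 _).2 ((hπv _).2 (hp J l))
    have h7 : (fun (a i : Fin 3) => χ (eR a i)) = e := by
      funext a i
      exact hχ _
    rw [h6, h7, pt_zero]
  rw [map_pow, map_pow, h2, one_pow] at h1
  have h3 : WithZero.exp (-((1 : ℕ) : ℤ)) < 1 := by
    rw [← WithZero.exp_zero, WithZero.exp_lt_exp]
    norm_num
  exact absurd h1 (not_le.2 h3)

end Pool.Agent.Helper63.TS2
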