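import Pool.Agent.Helper63.TS.Chart
import Pool.Agent.Helper63.TS2.Defs

/-!
# The derivative in a chart
-/

set_option autoImplicit false

namespace Pool.Agent.Helper63.TS2

open MvPolynomial
open Pool.Agent.Helper63.TS

variable {S : Type} [CommRing S]

theorem eval_pderiv_ch (e : Fin 3 → Fin 3 → S) (P : MvPolynomial (Fin 3) S) (q : Fin 2 → S)
    (j : Fin 2) :
    eval q (pderiv j (ch e P)) = ∑ i, eval (pt e q) (pderiv i P) * e j.succ i := by
  induction P using MvPolynomial.induction_on with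
  | C a =>
    have h1 : ch e (C a) = C a := by
      unfold ch
      rw [aeval_C, algebraMap_eq]
    rw [h1]
    simp
  | add p r hp hr =>
    have h1 : ch e (p + r) = ch e p + ch e r := by
      unfold ch
      rw [map_add]
    rw [h1, map_add, map_add, hp, hr, ← Finset.sum_add_distrib]
    refine Finset.sum_congr rfl fun i _ => ?_
    rw [map_add, map_add]
    ring
  | mul_X p i hp =>
    have h1 : ch e (p * X i) = ch e p * (C (e 0 i) + X 0 * C (e 1 i) + X 1 * C (e 2 i)) := by
      unfold ch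
      rw [map_mul, aeval_X]
    have h2 : eval q (C (e 0 i) + X 0 * C (e 1 i) + X 1 * C (e 2 i)) = pt e q i := by
      simp [pt]
    have h3 : eval q (pderiv j (C (e 0 i) + X 0 * C (e 1 i) + X 1 * C (e 2 i) :
        MvPolynomial (Fin 2) S)) = e j.succ i := by
      fin_cases j <;> simp [pderiv_X]
    rw [h1, Derivation.leibniz, map_add, smul_eq_mul, smul_eq_mul, map_mul, map_mul, h2, h3, hp,
      eval_ch]
    have h4 : ∀ l : Fin 3, eval (pt e q) (pderiv l (p * X i)) * e j.succ l =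
        pt e q i * (eval (pt e q) (pderiv l p) * e j.succ l) +
          (if i = l then eval (pt e q) p * e j.succ l else 0) := by
      intro l
      rw [Derivation.leibniz, map_add, smul_eq_mul, smul_eq_mul, map_mul, map_mul, pderiv_X,
        Pi.single_apply]
      split_ifs with h5
      · subst h5
        simp
        ring
      · simp
        ring
    rw [Finset.sum_congr rfl fun l _ => h4 l, Finset.sum_add_distrib, ← Finset.mul_sum,
      Finset.sum_ite_eq]
    simp
    ring

theorem coeff_single_eq (a : Fin 2) (P : MvPolynomial (Fin 2) S) :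
    P.coeff (Finsupp.single a 1) = eval 0 (pderiv a P) := by
  classical
  induction P using MvPolynomial.induction_on with
  | C c =>
    rw [coeff_C, if_neg (by
      intro h
      have := DFunLike.congr_fun h a
      simp at this)]
    simp
  | add p q hp hq => rw [coeff_add, hp, hq, map_add, map_add]
  | mul_X p i hp =>
    have h1 : (X i : MvPolynomial (Fin 2) S).coeff 0 = 0 := by simp
    have h2 : eval (0 : Fin 2 → S) p = p.coeff 0 := by
      rw [← constantCoeff_eq]
      exact (congrArg (fun φ => φ p) eval_zero)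
    have h3 : eval (0 : Fin 2 → S) (X i) = 0 := by simp
    rw [ch_coeff_mul, h1, hp, Derivation.leibniz, map_add, smul_eq_mul, smul_eq_mul, map_mul,
      map_mul, h2, h3, pderiv_X, coeff_X]
    have h4 : (Finsupp.single i 1 = Finsupp.single a 1) ↔ (i = a) :=
      Finsupp.single_left_inj one_ne_zero
    by_cases h5 : i = a
    · subst h5
      simp
    · rw [Pi.single_apply, if_neg (fun h => h5 (h4.1 h)), if_neg h5]
      simp

theorem cX_eq (P : MvPolynomial (Fin 2) S) : cX P = eval 0 (pderiv 0 P) :=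
  coeff_single_eq 0 P

theorem cY_eq (P : MvPolynomial (Fin 2) S) : cY P = eval 0 (pderiv 1 P) :=
  coeff_single_eq 1 P

theorem mul_one_entries {e : Fin 3 → Fin 3 → S} {B : Matrix (Fin 3) (Fin 3) S}
    (hB : Matrix.of e * B = 1) (a b : Fin 3) :
    ∑ i, e a i * B i b = if a = b then 1 else 0 := by
  have h1 := congrFun (congrFun hB a) b
  rw [Matrix.mul_apply, Matrix.one_apply] at h1
  exact h1

section

variable {e : Fin 3 → Fin 3 → S} {B : Matrix (Fin 3) (Fin 3) S} (hB : Matrix.of e * B = 1)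
  {Φ : Fin 3 → MvPolynomial (Fin 3) S} {E : ℕ} (hΦ : ∀ i, (Φ i).IsHomogeneous E) {o : Fin 2 → S}
  {s : S} (hs : ∀ i, eval (pt e o) (Φ i) = s * pt e o i)

theorem eval_chA (a : Fin 3) :
    eval o (chA e B Φ a) = ∑ i, B i a * eval (pt e o) (Φ i) := by
  unfold chA
  rw [map_sum]
  refine Finset.sum_congr rfl fun i _ => ?_
  rw [map_mul, eval_C, eval_ch]

include hB hs

theorem eval_chA_eq (a : Fin 3) :
    eval o (chA e B Φ a) = s * (if a = 0 then 1 else if a = 1 then o 0 else o 1) := by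
  have h0 := mul_one_entries hB 0 a
  have h1 := mul_one_entries hB 1 a
  have h2 := mul_one_entries hB 2 a
  have h3 : eval o (chA e B Φ a) = s * ((∑ i, e 0 i * B i a) + o 0 * (∑ i, e 1 i * B i a) +
      o 1 * (∑ i, e 2 i * B i a)) := by
    rw [eval_chA]
    simp only [hs, pt, Fin.sum_univ_three]
    ring
  rw [h3, h0, h1, h2]
  fin_cases a <;> simp

theorem chA_zero : eval o (chA e B Φ 0) = s := by
  rw [eval_chA_eq hB hs]
  simp

theorem chA_fixed (i : Fin 2) :
    o i * eval o (chA e B Φ 0) = eval o (chA e B Φ i.succ) := by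
  rw [eval_chA_eq hB hs, eval_chA_eq hB hs]
  fin_cases i <;> simp [mul_comm]

omit hB hs

/-- The derivative of the lifted map in the basis. -/
def nm (e : Fin 3 → Fin 3 → S) (B : Matrix (Fin 3) (Fin 3) S) (M : Matrix (Fin 3) (Fin 3) S) :
    Matrix (Fin 3) (Fin 3) S :=
  B.transpose * M * (Matrix.of e).transpose

theorem pderiv_chA (a : Fin 3) (j : Fin 2) :
    eval o (pderiv j (chA e B Φ a)) = nm e B (jacR Φ (pt e o)) a j.succ := by
  unfold chA nm
  rw [map_sum, map_sum]
  have h1 : ∀ i : Fin 3, eval o (pderiv j (C (B i a) * ch e (Φ i))) =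
      B i a * ∑ l, eval (pt e o) (pderiv l (Φ i)) * e j.succ l := by
    intro i
    rw [pderiv_C_mul, map_mul, eval_C, eval_pderiv_ch]
  rw [Finset.sum_congr rfl fun i _ => h1 i]
  simp only [Matrix.mul_apply, Matrix.transpose_apply, Matrix.of_apply, jacR,
    Fin.sum_univ_three]
  ring

include hB

theorem nm_conj (M : Matrix (Fin 3) (Fin 3) S) :
    (nm e B M).det = M.det ∧ (nm e B M).adjugate.trace = M.adjugate.trace := by
  have h1 : B * Matrix.of e = 1 := mul_eq_one_comm.1 hB
  have h2 : B.transpose * (Matrix.of e).transpose = 1 := by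
    rw [← Matrix.transpose_mul, hB, Matrix.transpose_one]
  have h3 : (Matrix.of e).transpose * B.transpose = 1 := mul_eq_one_comm.1 h2
  constructor
  · unfold nm
    rw [Matrix.det_mul, Matrix.det_mul, mul_comm B.transpose.det, mul_assoc, ← Matrix.det_mul, h2,
      Matrix.det_one, mul_one]
  · unfold nm
    rw [Matrix.adjugate_mul_distrib, Matrix.adjugate_mul_distrib, Matrix.trace_mul_comm,
      mul_assoc, ← Matrix.adjugate_mul_distrib, h3, Matrix.adjugate_one, mul_one]

omit hB

theorem tM_chA (i j : Fin 2) :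
    tM (chA e B Φ) o i j = nm e B (jacR Φ (pt e o)) i.succ j.succ -
      o i * nm e B (jacR Φ (pt e o)) 0 j.succ := by
  unfold tM
  rw [pderiv_chA, pderiv_chA]

theorem nm_apply (M : Matrix (Fin 3) (Fin 3) S) (a b : Fin 3) :
    nm e B M a b = ∑ i, B i a * ∑ l, M i l * e b l := by
  unfold nm
  simp only [Matrix.mul_apply, Matrix.transpose_apply, Matrix.of_apply, Fin.sum_univ_three]
  ring

include hΦ hs

theorem euler_jacR (i : Fin 3) :
    ∑ l, jacR Φ (pt e o) i l * pt e o l = E * (s * pt e o i) := by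
  have h1 := congrArg (eval (pt e o)) (hΦ i).sum_X_mul_pderiv
  rw [map_sum, map_nsmul, hs, nsmul_eq_mul] at h1
  rw [← h1]
  refine Finset.sum_congr rfl fun l _ => ?_
  rw [map_mul, eval_X, mul_comm]
  rfl

include hB

theorem euler_nm (a : Fin 3) :
    nm e B (jacR Φ (pt e o)) a 0 + nm e B (jacR Φ (pt e o)) a 1 * o 0 +
      nm e B (jacR Φ (pt e o)) a 2 * o 1 =
      E * s * (if a = 0 then 1 else if a = 1 then o 0 else o 1) := by
  have h1 : ∀ i : Fin 3, E * (s * pt e o i) =
      (∑ l, jacR Φ (pt e o) i l * e 0 l) + (∑ l, jacR Φ (pt e o) i l * e 1 l) * o 0 +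
        (∑ l, jacR Φ (pt e o) i l * e 2 l) * o 1 := by
    intro i
    rw [← euler_jacR hΦ hs i]
    simp only [pt, Fin.sum_univ_three]
    ring
  have h2 : nm e B (jacR Φ (pt e o)) a 0 + nm e B (jacR Φ (pt e o)) a 1 * o 0 +
      nm e B (jacR Φ (pt e o)) a 2 * o 1 = ∑ i, B i a * (E * (s * pt e o i)) := by
    rw [nm_apply, nm_apply, nm_apply, Finset.sum_mul, Finset.sum_mul, ← Finset.sum_add_distrib,
      ← Finset.sum_add_distrib]
    refine Finset.sum_congr rfl fun i _ => ?_
    rw [h1 i]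
    ring
  have h3 := eval_chA_eq hB hs a
  rw [eval_chA] at h3
  rw [h2, mul_assoc, ← h3, Finset.mul_sum]
  refine Finset.sum_congr rfl fun i _ => ?_
  rw [hs]
  ring

theorem det_jacR : (jacR Φ (pt e o)).det = E * s *
    (tM (chA e B Φ) o 0 0 * tM (chA e B Φ) o 1 1 - tM (chA e B Φ) o 0 1 * tM (chA e B Φ) o 1 0) := by
  rw [← (nm_conj hB _).1, tM_chA, tM_chA, tM_chA, tM_chA]
  have h0 := euler_nm hB hΦ hs 0
  have h1 := euler_nm hB hΦ hs 1
  have h2 := euler_nm hB hΦ hs 2
  generalize nm e B (jacR Φ (pt e o)) = N at *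
  have g1 : (Fin.succ 0 : Fin 3) = 1 := rfl
  have g2 : (Fin.succ 1 : Fin 3) = 2 := rfl
  rw [Matrix.det_fin_three, g1, g2]
  simp only [if_true, if_neg (show ¬ (1 : Fin 3) = 0 by decide),
    if_neg (show ¬ (2 : Fin 3) = 0 by decide), if_neg (show ¬ (2 : Fin 3) = 1 by decide),
    mul_one] at h0 h1 h2
  linear_combination (N 1 1 * N 2 2 - N 1 2 * N 2 1) * h0 - (N 0 1 * N 2 2 - N 0 2 * N 2 1) * h1 +
    (N 0 1 * N 1 2 - N 0 2 * N 1 1) * h2

theorem trace_adj_jacR : (jacR Φ (pt e o)).adjugate.trace =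
    E * s * (tM (chA e B Φ) o 0 0 + tM (chA e B Φ) o 1 1) +
    (tM (chA e B Φ) o 0 0 * tM (chA e B Φ) o 1 1 - tM (chA e B Φ) o 0 1 * tM (chA e B Φ) o 1 0) := by
  rw [← (nm_conj hB _).2, tM_chA, tM_chA, tM_chA, tM_chA]
  have h0 := euler_nm hB hΦ hs 0
  have h1 := euler_nm hB hΦ hs 1
  have h2 := euler_nm hB hΦ hs 2
  generalize nm e B (jacR Φ (pt e o)) = N at *
  have g1 : (Fin.succ 0 : Fin 3) = 1 := rfl
  have g2 : (Fin.succ 1 : Fin 3) = 2 := rfl
  rw [Matrix.adjugate_fin_three, Matrix.trace_fin_three, g1, g2]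
  simp only [if_true, if_neg (show ¬ (1 : Fin 3) = 0 by decide),
    if_neg (show ¬ (2 : Fin 3) = 0 by decide), if_neg (show ¬ (2 : Fin 3) = 1 by decide),
    mul_one] at h0 h1 h2
  have k0 : (E : S) * s = N 0 0 + N 0 1 * o 0 + N 0 2 * o 1 := h0.symm
  rw [k0] at h1 h2 ⊢
  simp only [Matrix.of_apply, Matrix.cons_val', Matrix.cons_val_zero, Matrix.cons_val_one,
    Matrix.cons_val_two, Matrix.head_cons, Matrix.tail_cons, Matrix.empty_val',
    Matrix.cons_val_fin_one, Matrix.head_fin_const]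
  linear_combination (-(N 0 1)) * h1 - (N 0 2) * h2

/-- The coordinates of a kernel vector. -/
theorem ker_jacR {κ : Fin 3 → S} (hκ : (jacR Φ (pt e o)).mulVec κ = 0) {ε : Fin 2 → S}
    (hε : ∀ j, ε j = ∑ i, κ i * B i j.succ - (∑ i, κ i * B i 0) * o j) (i : Fin 2) :
    ∑ j, tM (chA e B Φ) o i j * ε j = 0 := by
  have h0 : B * Matrix.of e = 1 := mul_eq_one_comm.1 hB
  have h1 : ∀ l : Fin 3, κ l = (∑ i, κ i * B i 0) * e 0 l + (∑ i, κ i * B i 1) * e 1 l +
      (∑ i, κ i * B i 2) * e 2 l := by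
    intro l
    have h2 : ∀ i : Fin 3, ∑ a, B i a * e a l = if i = l then 1 else 0 := by
      intro i
      have := congrFun (congrFun h0 i) l
      rw [Matrix.mul_apply, Matrix.one_apply] at this
      exact this
    have h3 : κ l = ∑ i, κ i * (∑ a, B i a * e a l) := by
      simp [h2]
    rw [h3]
    simp only [Fin.sum_univ_three]
    ring
  have h4 : ∀ a : Fin 3, (∑ i, κ i * B i 0) * nm e B (jacR Φ (pt e o)) a 0 +
      (∑ i, κ i * B i 1) * nm e B (jacR Φ (pt e o)) a 1 +
      (∑ i, κ i * B i 2) * nm e B (jacR Φ (pt e o)) a 2 = 0 := by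
    intro a
    have h5 : (∑ i, κ i * B i 0) * nm e B (jacR Φ (pt e o)) a 0 +
        (∑ i, κ i * B i 1) * nm e B (jacR Φ (pt e o)) a 1 +
        (∑ i, κ i * B i 2) * nm e B (jacR Φ (pt e o)) a 2 =
        ∑ i, B i a * (∑ l, jacR Φ (pt e o) i l * κ l) := by
      rw [nm_apply, nm_apply, nm_apply, Finset.mul_sum, Finset.mul_sum, Finset.mul_sum,
        ← Finset.sum_add_distrib, ← Finset.sum_add_distrib]
      refine Finset.sum_congr rfl fun i _ => ?_
      have h6 : ∑ l, jacR Φ (pt e o) i l * κ l =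
          ∑ l, jacR Φ (pt e o) i l * ((∑ i, κ i * B i 0) * e 0 l + (∑ i, κ i * B i 1) * e 1 l +
            (∑ i, κ i * B i 2) * e 2 l) :=
        Finset.sum_congr rfl fun l _ => by rw [← h1 l]
      rw [h6]
      generalize (∑ i, κ i * B i 0) = c0
      generalize (∑ i, κ i * B i 1) = c1
      generalize (∑ i, κ i * B i 2) = c2
      simp only [Fin.sum_univ_three]
      ring
    rw [h5]
    refine Finset.sum_eq_zero fun i _ => ?_
    have h7 := congrFun hκ i
    simp only [Matrix.mulVec, dotProduct, Pi.zero_apply] at h7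
    rw [h7, mul_zero]
  have e0 := euler_nm hB hΦ hs 0
  have e1 := euler_nm hB hΦ hs i.succ
  have f0 := h4 0
  have f1 := h4 i.succ
  have k0 := hε 0
  have k1 := hε 1
  rw [Fin.sum_univ_two, tM_chA, tM_chA, k0, k1]
  have g1 : (Fin.succ 0 : Fin 3) = 1 := rfl
  have g2 : (Fin.succ 1 : Fin 3) = 2 := rfl
  rw [g1, g2]
  have e2 : (if (i.succ : Fin 3) = 0 then (1 : S) else if (i.succ : Fin 3) = 1 then o 0 else o 1) =
      o i := by
    fin_cases i <;> simp
  rw [e2] at e1
  rw [if_pos rfl] at e0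
  generalize nm e B (jacR Φ (pt e o)) = N at *
  generalize (∑ i, κ i * B i 0) = c0 at *
  generalize (∑ i, κ i * B i 1) = c1 at *
  generalize (∑ i, κ i * B i 2) = c2 at *
  linear_combination f1 - o i * f0 - c0 * e1 + c0 * o i * e0

end

/-- The gradient in the chart. -/
theorem grad_ch {e : Fin 3 → Fin 3 → S} {B : Matrix (Fin 3) (Fin 3) S}
    (hB : B * Matrix.of e = 1) {h : MvPolynomial (Fin 3) S} {D : ℕ} (hh : h.IsHomogeneous D)
    {o : Fin 2 → S} (ho : eval (pt e o) h = 0) {κ : Fin 3 → S} {ε : Fin 2 → S}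
    (hε : ∀ j, ε j = ∑ i, κ i * B i j.succ - (∑ i, κ i * B i 0) * o j) :
    ∑ j, eval o (pderiv j (ch e h)) * ε j = ∑ i, eval (pt e o) (pderiv i h) * κ i := by
  have h1 : ∀ l : Fin 3, κ l = (∑ i, κ i * B i 0) * e 0 l + (∑ i, κ i * B i 1) * e 1 l +
      (∑ i, κ i * B i 2) * e 2 l := by
    intro l
    have h2 : ∀ i : Fin 3, ∑ a, B i a * e a l = if i = l then 1 else 0 := by
      intro i
      have := congrFun (congrFun hB i) l
      rw [Matrix.mul_apply, Matrix.one_apply] at this
      exact this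
    have h3 : κ l = ∑ i, κ i * (∑ a, B i a * e a l) := by
      simp [h2]
    rw [h3]
    simp only [Fin.sum_univ_three]
    ring
  have h4 : ∑ i, pt e o i * eval (pt e o) (pderiv i h) = 0 := by
    have h5 := congrArg (eval (pt e o)) hh.sum_X_mul_pderiv
    rw [map_sum, map_nsmul, ho, smul_zero] at h5
    rw [← h5]
    refine Finset.sum_congr rfl fun l _ => ?_
    rw [map_mul, eval_X]
  have h6 : ∑ i, eval (pt e o) (pderiv i h) * κ i =
      ∑ l, eval (pt e o) (pderiv l h) * ((∑ i, κ i * B i 0) * e 0 l + (∑ i, κ i * B i 1) * e 1 l +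
        (∑ i, κ i * B i 2) * e 2 l) :=
    Finset.sum_congr rfl fun l _ => by rw [← h1 l]
  rw [h6, Fin.sum_univ_two, hε 0, hε 1, eval_pderiv_ch, eval_pderiv_ch]
  have g1 : (Fin.succ 0 : Fin 3) = 1 := rfl
  have g2 : (Fin.succ 1 : Fin 3) = 2 := rfl
  rw [g1, g2]
  simp only [pt] at h4 ⊢
  generalize (∑ i, κ i * B i 0) = c0 at *
  generalize (∑ i, κ i * B i 1) = c1 at *
  generalize (∑ i, κ i * B i 2) = c2 at *
  simp only [Fin.sum_univ_three] at h4 ⊢
  linear_combination (-c0) * h4

end Pool.Agent.Helper63.TS2
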