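import Pool.Agent.Helper63.TS2.Slow
import Pool.Agent.Helper63.TS2.Emb
import Pool.Agent.Helper63.TS2.Mat
import Pool.Agent.Helper63.TS2.ItR

/-!
# The local argument at an attracting cycle, over the valuation ring
-/

set_option autoImplicit false

namespace Pool.Agent.Helper63.TS2

open MvPolynomial
open Pool.Agent.Helper63.TS

section general

variable {S S' : Type} [CommRing S] [CommRing S']

theorem ev_map {n : ℕ} (φ : S →+* S') (u : Fin n → S) (P : MvPolynomial (Fin n) S) :
    φ (eval u P) = eval (fun i => φ (u i)) (map φ P) := by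
  rw [eval_map]
  have := MvPolynomial.eval₂_comp_left φ (RingHom.id _) u P
  rw [RingHom.comp_id] at this
  exact this

theorem map_pt (φ : S →+* S') (e : Fin 3 → Fin 3 → S) (q : Fin 2 → S) (i : Fin 3) :
    φ (pt e q i) = pt (fun a i => φ (e a i)) (fun l => φ (q l)) i := by
  simp only [pt, map_add, map_mul]

theorem pderiv_map' {n : ℕ} (φ : S →+* S') (j : Fin n) (P : MvPolynomial (Fin n) S) :
    pderiv j (map φ P) = map φ (pderiv j P) := by
  induction P using MvPolynomial.induction_on with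
  | C a => simp
  | add p q hp hq => simp only [map_add, hp, hq]
  | mul_X p i hp =>
    rw [map_mul, map_X, Derivation.leibniz, Derivation.leibniz, hp, map_add, smul_eq_mul,
      smul_eq_mul, smul_eq_mul, smul_eq_mul, map_mul, map_mul, map_X, pderiv_X, pderiv_X]
    congr 2
    by_cases h : j = i
    · subst h
      simp
    · rw [Pi.single_eq_of_ne (Ne.symm h), Pi.single_eq_of_ne (Ne.symm h), map_zero]

theorem map_jacR (φ : S →+* S') (Φ : Fin 3 → MvPolynomial (Fin 3) S) (y : Fin 3 → S) :
    φ.mapMatrix (jacR Φ y) = jacR (fun i => map φ (Φ i)) (fun i => φ (y i)) := by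
  ext i j
  rw [RingHom.mapMatrix_apply, Matrix.map_apply]
  unfold jacR
  rw [Matrix.of_apply, Matrix.of_apply, ev_map, pderiv_map']

theorem map_chA (φ : S →+* S') (e : Fin 3 → Fin 3 → S) (B : Matrix (Fin 3) (Fin 3) S)
    (Φ : Fin 3 → MvPolynomial (Fin 3) S) (a : Fin 3) :
    map φ (chA e B Φ a) =
      chA (fun a i => φ (e a i)) (φ.mapMatrix B) (fun i => map φ (Φ i)) a := by
  unfold chA
  rw [map_sum]
  refine Finset.sum_congr rfl fun i _ => ?_
  rw [map_mul, map_C, map_ch, RingHom.mapMatrix_apply, Matrix.map_apply]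

theorem eval_chA (e : Fin 3 → Fin 3 → S) (B : Matrix (Fin 3) (Fin 3) S)
    (Φ : Fin 3 → MvPolynomial (Fin 3) S) (a : Fin 3) (u : Fin 2 → S) :
    eval u (chA e B Φ a) = ∑ i, B i a * eval (pt e u) (Φ i) := by
  unfold chA
  rw [map_sum]
  refine Finset.sum_congr rfl fun i _ => ?_
  rw [map_mul, eval_C, eval_ch]

theorem pt_zero (e : Fin 3 → Fin 3 → S) : pt e 0 = e 0 := by
  funext i
  simp [pt]

theorem pt_coord {e : Fin 3 → Fin 3 → S} {B : Matrix (Fin 3) (Fin 3) S}
    (hB : Matrix.of e * B = 1) (u : Fin 2 → S) :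
    ∑ i, B i 0 * pt e u i = 1 ∧ ∀ l : Fin 2, ∑ i, B i l.succ * pt e u i = u l := by
  have h1 : ∀ a c, ∑ i, e a i * B i c = if a = c then 1 else 0 := by
    intro a c
    have h2 := congrFun (congrFun hB a) c
    rw [Matrix.mul_apply, Matrix.one_apply] at h2
    exact h2
  have h2 : ∀ c, ∑ i, B i c * pt e u i =
      (∑ i, e 0 i * B i c) + u 0 * (∑ i, e 1 i * B i c) + u 1 * ∑ i, e 2 i * B i c := by
    intro c
    simp only [pt, Finset.mul_sum, ← Finset.sum_add_distrib]
    refine Finset.sum_congr rfl fun i _ => ?_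
    ring
  refine ⟨?_, fun l => ?_⟩
  · rw [h2, h1, h1, h1]
    simp
  · rw [h2, h1, h1, h1]
    fin_cases l <;> simp

theorem jacR_adj (F : Fin 3 → MvPolynomial (Fin 3) S) (y : Fin 3 → S) (h : (jacR F y).det = 0)
    (j₀ : Fin 3) : (jacR F y).mulVec (fun i => (jacR F y).adjugate i j₀) = 0 := by
  funext i
  have h1 := congrFun (congrFun (Matrix.mul_adjugate (jacR F y)) i) j₀
  rw [h, zero_smul, Matrix.mul_apply] at h1
  exact h1

end general

variable {R k : Type} [CommRing R] [IsDomain R] [Field k] [CharZero k] [Algebra k R]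

theorem local_CS {π : R} (hπ : Unif π) (χ : R →+* k) (hχ : ∀ c : k, χ (algebraMap k R c) = c)
    (hχ0 : ∀ r, χ r = 0 ↔ π ∣ r) {d : ℕ} (hd : 1 ≤ d) {F : Fin 3 → MvPolynomial (Fin 3) R}
    (hF : ∀ i, (F i).IsHomogeneous d) {N : ℕ} (hN : 0 < N)
    {H : MvPolynomial (Fin 3) R} {D : ℕ} (hHh : H.IsHomogeneous D)
    {e : Fin 3 → Fin 3 → k} (hdet : (Matrix.of e).det ≠ 0) {γ : k} (hγ : γ ≠ 0)
    (hfix : ∀ i, eval (e 0) (map χ (itR F N i)) = γ * e 0 i)
    (hJw : (jacR (fun i => map χ (F i)) (e 0)).det = 0)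
    (htrw : (jacR (fun i => map χ (itR F N i)) (e 0)).adjugate.trace = 0) {j₀ : Fin 3}
    (hR : ∑ i, eval (e 0) (pderiv i (map χ H)) *
      (jacR (fun i => map χ (F i)) (e 0)).adjugate i j₀ ≠ 0)
    {p : ℕ → Fin 2 → R} (hp : ∀ j i, π ∣ p j i) (hinj : Function.Injective p) {σ : ℕ → R}
    (hσ : ∀ j i, eval (pt (fun a i => algebraMap k R (e a i)) (p j)) (itR F N i) =
      σ j * pt (fun a i => algebraMap k R (e a i)) (p (j + 1)) i)
    (hinf : {j | eval (pt (fun a i => algebraMap k R (e a i)) (p j)) H = 0}.Infinite)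
    (hJinf : {j | (jacR F (pt (fun a i => algebraMap k R (e a i)) (p j))).det = 0}.Infinite)
    {ρ₁ ρ₂ : Polynomial R} (hρ1 : ρ₁ ≠ 0) (hρ2 : ρ₂ ≠ 0)
    (hρ : ∀ j, (∃ a a' : R, ρ₁.eval (p j 0) =
        a * eval (pt (fun a i => algebraMap k R (e a i)) (p j)) H +
        a' * eval (pt (fun a i => algebraMap k R (e a i)) (p (j + 1))) H) ∧
      ∃ a a' : R, ρ₂.eval (p j 1) =
        a * eval (pt (fun a i => algebraMap k R (e a i)) (p j)) H +
        a' * eval (pt (fun a i => algebraMap k R (e a i)) (p (j + 1))) H) :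
    ∀ P ∈ supEqs (itR F N), ∀ M : ℕ, ∃ J : ℕ, ∀ j, J ≤ j →
      π ^ M ∣ eval (pt (fun a i => algebraMap k R (e a i)) (p j)) P := by
  classical
  obtain ⟨eR, heR⟩ : ∃ eR : Fin 3 → Fin 3 → R, eR = fun a i => algebraMap k R (e a i) := ⟨_, rfl⟩
  rw [← heR] at hσ hinf hJinf hρ ⊢
  obtain ⟨B, hB⟩ : ∃ B : Matrix (Fin 3) (Fin 3) k, Matrix.of e * B = 1 :=
    ⟨(Matrix.of e)⁻¹, Matrix.mul_nonsing_inv _ (isUnit_iff_ne_zero.2 hdet)⟩
  obtain ⟨BR, hBR⟩ : ∃ BR : Matrix (Fin 3) (Fin 3) R, BR = (algebraMap k R).mapMatrix B := ⟨_, rfl⟩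
  have hmapB : ∀ {T : Type} [CommRing T] (φ : k →+* T),
      Matrix.of (fun a i => φ (e a i)) * φ.mapMatrix B = 1 := by
    intro T _ φ
    have h1 := congrArg φ.mapMatrix hB
    rw [map_mul, map_one] at h1
    exact h1
  have hBR1 : Matrix.of eR * BR = 1 := by
    rw [heR, hBR]
    exact hmapB _
  set A : Fin 3 → MvPolynomial (Fin 2) R := chA eR BR (itR F N) with hA
  -- the orbit
  have hA0e : ∀ j, eval (p j) (A 0) = σ j := by
    intro j
    rw [hA, eval_chA, Finset.sum_congr rfl fun i _ => by rw [hσ j i]]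
    have h1 : ∀ i, BR i 0 * (σ j * pt eR (p (j + 1)) i) =
        σ j * (BR i 0 * pt eR (p (j + 1)) i) := fun i => by ring
    rw [Finset.sum_congr rfl fun i _ => h1 i, ← Finset.mul_sum, (pt_coord hBR1 _).1, mul_one]
  have hAle : ∀ j (l : Fin 2), eval (p j) (A l.succ) = σ j * p (j + 1) l := by
    intro j l
    rw [hA, eval_chA, Finset.sum_congr rfl fun i _ => by rw [hσ j i]]
    have h1 : ∀ i, BR i l.succ * (σ j * pt eR (p (j + 1)) i) =
        σ j * (BR i l.succ * pt eR (p (j + 1)) i) := fun i => by ring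
    rw [Finset.sum_congr rfl fun i _ => h1 i, ← Finset.mul_sum, (pt_coord hBR1 _).2]
  have hOrb : Orb π A p := by
    refine ⟨hp, fun j => ?_, fun j => ?_⟩
    · rw [hA0e]
      exact (mul_comm _ _).trans (hAle j 0).symm
    · rw [hA0e]
      exact (mul_comm _ _).trans (hAle j 1).symm
  -- reduction
  have hχe : (fun (a i : Fin 3) => χ (eR a i)) = e := by
    funext a i
    rw [heR]
    exact hχ _
  have hχB : χ.mapMatrix BR = B := by
    ext i a
    rw [hBR, RingHom.mapMatrix_apply, RingHom.mapMatrix_apply, Matrix.map_apply, Matrix.map_apply,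
      hχ]
  set Fk : Fin 3 → MvPolynomial (Fin 3) k := fun i => map χ (F i) with hFk
  have hFkh : ∀ i, (Fk i).IsHomogeneous d := fun i => (hF i).map χ
  have hitk : (fun i => map χ (itR F N i)) = itR Fk N := by
    funext i
    exact map_itR χ F N i
  rw [hitk] at htrw
  have hmapA : ∀ a, map χ (A a) = chA e B (itR Fk N) a := by
    intro a
    rw [hA, map_chA, hχe, hχB, hitk]
  have hfixk : ∀ i, eval (pt e 0) (itR Fk N i) = γ * pt e 0 i := by
    intro i
    rw [pt_zero, ← hitk]
    exact hfix i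
  have hitkh := fun i => itR_hom hFkh N i
  have hdeg0 : ((d ^ N : ℕ) : k) ≠ 0 := by
    rw [Nat.cast_ne_zero]
    exact pow_ne_zero _ (by omega)
  have hcoeff0 : ∀ (P : MvPolynomial (Fin 2) R), χ (P.coeff 0) = eval 0 (map χ P) := by
    intro P
    rw [← coeff_map, eval_zero]
    rfl
  have hA0 : ¬ π ∣ (A 0).coeff 0 := by
    rw [← hχ0, hcoeff0, hmapA, chA_zero hB hfixk]
    exact hγ
  have hkerk : (jacR (itR Fk N) (e 0)).det = 0 := by
    rw [← Matrix.exists_mulVec_eq_zero_iff]
    refine ⟨fun i => (jacR Fk (e 0)).adjugate i j₀, ?_,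
      jacR_itR_ker (jacR_adj Fk (e 0) hJw j₀) hN⟩
    intro h0
    apply hR
    refine Finset.sum_eq_zero fun i _ => ?_
    have := congrFun h0 i
    rw [Pi.zero_apply] at this
    rw [this, mul_zero]
  have hT1 := det_jacR hB hitkh hfixk
  have hT2 := trace_adj_jacR hB hitkh hfixk
  rw [pt_zero] at hT1 hT2
  rw [hkerk] at hT1
  have hTdet : tM (chA e B (itR Fk N)) 0 0 0 * tM (chA e B (itR Fk N)) 0 1 1 -
      tM (chA e B (itR Fk N)) 0 0 1 * tM (chA e B (itR Fk N)) 0 1 0 = 0 :=
    (mul_eq_zero.1 hT1.symm).resolve_left (mul_ne_zero hdeg0 hγ)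
  have hTtr : tM (chA e B (itR Fk N)) 0 0 0 + tM (chA e B (itR Fk N)) 0 1 1 = 0 := by
    rw [htrw, hTdet, add_zero] at hT2
    exact (mul_eq_zero.1 hT2.symm).resolve_left (mul_ne_zero hdeg0 hγ)
  have hTX : ∀ l : Fin 2, tM (chA e B (itR Fk N)) 0 l 0 = χ (cX (A l.succ)) := by
    intro l
    have h1 : χ (cX (A l.succ)) = cX (map χ (A l.succ)) := by
      unfold cX
      rw [coeff_map]
    rw [h1, cX_eq, hmapA]
    simp [tM]
  have hTY : ∀ l : Fin 2, tM (chA e B (itR Fk N)) 0 l 1 = χ (cY (A l.succ)) := by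
    intro l
    have h1 : χ (cY (A l.succ)) = cY (map χ (A l.succ)) := by
      unfold cY
      rw [coeff_map]
    rw [h1, cY_eq, hmapA]
    simp [tM]
  have hconv := conv hπ (A := A) hA0 (by
      rw [← hχ0, map_add]
      have h1 := hTtr
      rw [hTX, hTY] at h1
      exact h1) (by
      rw [← hχ0, map_sub, map_mul, map_mul]
      have h1 := hTdet
      rw [hTX, hTY, hTY, hTX] at h1
      exact h1) hOrb
  -- power series
  obtain ⟨jj, hjd, hjc, hjk⟩ := exists_emb hπ χ hχ hχ0
  have hjinj : Function.Injective jj := by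
    rw [injective_iff_map_eq_zero]
    intro r hr
    by_contra hr0
    obtain ⟨m, u, hu, hru⟩ := hπ.fact r hr0
    have h1 : π ^ (m + 1) ∣ r := by
      rw [hjd, hr]
      exact dvd_zero _
    rw [hru, pow_succ] at h1
    exact hu ((mul_dvd_mul_iff_left (pow_ne_zero _ hπ.prime.ne_zero)).1 h1)
  have hUX := unif_X k
  set FS : Fin 3 → MvPolynomial (Fin 3) (PowerSeries k) := fun i => map jj (F i) with hFS
  have hitS : (fun i => map jj (itR F N i)) = itR FS N := by
    funext i
    exact map_itR jj F N i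
  set eS : Fin 3 → Fin 3 → PowerSeries k := fun a i => PowerSeries.C (e a i) with heS
  set BS : Matrix (Fin 3) (Fin 3) (PowerSeries k) := (PowerSeries.C (R := k)).mapMatrix B with hBS
  have hBS1 : Matrix.of eS * BS = 1 := hmapB _
  have hBS2 : BS * Matrix.of eS = 1 := mul_eq_one_comm.1 hBS1
  have hje : (fun (a i : Fin 3) => jj (eR a i)) = eS := by
    funext a i
    rw [heR]
    exact hjk _
  have hjB : jj.mapMatrix BR = BS := by
    ext i a
    rw [hBR, hBS, RingHom.mapMatrix_apply, RingHom.mapMatrix_apply, RingHom.mapMatrix_apply,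
      Matrix.map_apply, Matrix.map_apply, Matrix.map_apply, hjk]
  set AS : Fin 3 → MvPolynomial (Fin 2) (PowerSeries k) := chA eS BS (itR FS N) with hAS
  have hmapAS : ∀ a, map jj (A a) = AS a := by
    intro a
    rw [hA, map_chA, hje, hjB, hitS]
  set pS : ℕ → Fin 2 → PowerSeries k := fun j i => jj (p j i) with hpS
  have hjX : ∀ r : R, PowerSeries.X ∣ jj r ↔ π ∣ r := by
    intro r
    have := hjd r 1
    rw [pow_one, pow_one] at this
    exact this.symm
  have hOrbS : Orb PowerSeries.X AS pS := by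
    refine ⟨fun j i => (hjX _).2 (hp j i), fun j => ?_, fun j => ?_⟩
    · have h1 := congrArg jj (hOrb.step0 j)
      rw [map_mul, ev_map, ev_map, hmapAS, hmapAS] at h1
      exact h1
    · have h1 := congrArg jj (hOrb.step1 j)
      rw [map_mul, ev_map, ev_map, hmapAS, hmapAS] at h1
      exact h1
  have hinjS : Function.Injective pS := by
    intro j j' h1
    apply hinj
    funext i
    exact hjinj (congrFun h1 i)
  obtain ⟨o, ho⟩ := exists_lim (r := pS) (by
    intro M
    obtain ⟨J, hJ⟩ := hconv M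
    refine ⟨J, fun j hj i => ?_⟩
    have h1 := (hjd _ M).1 (hJ j hj i)
    rw [map_sub] at h1
    exact h1)
  obtain ⟨hosmall, hofix0, hofix1⟩ := lim_fixed hUX hOrbS ho
  set y : Fin 3 → PowerSeries k := pt eS o with hy
  have hptS : ∀ j, (fun i => jj (pt eR (p j) i)) = pt eS (pS j) := by
    intro j
    funext i
    rw [map_pt, hje]
  -- values at the limit
  have hlimval : ∀ P : MvPolynomial (Fin 3) R, {j | eval (pt eR (p j)) P = 0}.Infinite →
      eval y (map jj P) = 0 := by
    intro P hP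
    rw [hy, ← eval_ch]
    refine eval_lim_eq_zero hUX ho (hP.mono fun j hj => ?_)
    show eval (pS j) (ch eS (map jj P)) = 0
    have h1 : eval (pt eR (p j)) P = 0 := hj
    rw [eval_ch, ← hptS, ← ev_map, h1, map_zero]
  have hHy : eval y (map jj H) = 0 := hlimval H hinf
  have hJy : (jacR FS y).det = 0 := by
    have h1 := hlimval (jmR F).det (hJinf.mono fun j hj => by
      show eval _ _ = 0
      rw [(eval_jmR F _).1]
      exact hj)
    rw [(map_jmR jj F).1, (eval_jmR _ _).1] at h1
    exact h1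
  -- constant coefficients
  have hcc : ∀ r : R, PowerSeries.constantCoeff (jj r) = χ r := hjc
  have hcco : ∀ i, PowerSeries.constantCoeff (o i) = 0 := fun i =>
    PowerSeries.X_dvd_iff.1 (hosmall i)
  have hccy : ∀ i, PowerSeries.constantCoeff (y i) = e 0 i := by
    intro i
    rw [hy, map_pt]
    have h1 : (fun l => PowerSeries.constantCoeff (o l)) = 0 := by
      funext l
      exact hcco l
    have h2 : (fun (a i : Fin 3) => PowerSeries.constantCoeff (eS a i)) = e := by
      funext a i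
      rw [heS]
      simp
    rw [h1, h2, pt_zero]
  have hccmap : ∀ P : MvPolynomial (Fin 3) R,
      map (PowerSeries.constantCoeff (R := k)) (map jj P) = map χ P := by
    intro P
    have h1 : (PowerSeries.constantCoeff (R := k)).comp jj = χ := RingHom.ext hcc
    rw [map_map, h1]
  have hcceval : ∀ P : MvPolynomial (Fin 3) R,
      PowerSeries.constantCoeff (eval y (map jj P)) = eval (e 0) (map χ P) := by
    intro P
    rw [ev_map, hccmap]
    congr 2
    funext i
    exact hccy i
  -- the fixed point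
  set s : PowerSeries k := eval o (AS 0) with hs
  have hsfix : ∀ i, eval (pt eS o) (itR FS N i) = s * pt eS o i := by
    intro i
    -- the coordinates of the image
    have h1 : ∀ a, ∑ l, BS l a * eval y (itR FS N l) = s * ∑ l, BS l a * y l := by
      intro a
      rw [← eval_chA eS BS (itR FS N) a o]
      refine Fin.cases ?_ (fun l => ?_) a
      · rw [hy, (pt_coord hBS1 o).1, mul_one]
      · rw [hy, (pt_coord hBS1 o).2 l]
        fin_cases l
        · show eval o (AS 1) = s * o 0
          rw [← hofix0, hs, mul_comm]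
        · show eval o (AS 2) = s * o 1
          rw [← hofix1, hs, mul_comm]
    have h2 : ∀ v : Fin 3 → PowerSeries k, ∑ a, (∑ l, BS l a * v l) * eS a i = v i := by
      intro v
      have h3 : ∀ l, ∑ a, BS l a * eS a i = if l = i then 1 else 0 := by
        intro l
        have h4 := congrFun (congrFun hBS2 l) i
        rw [Matrix.mul_apply, Matrix.one_apply] at h4
        exact h4
      have h5 : ∑ a, (∑ l, BS l a * v l) * eS a i = ∑ l, v l * ∑ a, BS l a * eS a i := by
        simp only [Finset.sum_mul, Finset.mul_sum]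
        rw [Finset.sum_comm]
        refine Finset.sum_congr rfl fun l _ => Finset.sum_congr rfl fun a _ => ?_
        ring
      rw [h5, Finset.sum_congr rfl fun l _ => by rw [h3 l]]
      simp
    have h6 := h2 fun l => eval y (itR FS N l)
    rw [← hy, ← h6, Finset.sum_congr rfl fun a _ => by rw [h1 a]]
    have h7 := h2 y
    calc ∑ a, s * (∑ l, BS l a * y l) * eS a i = s * ∑ a, (∑ l, BS l a * y l) * eS a i := by
          rw [Finset.mul_sum]
          refine Finset.sum_congr rfl fun a _ => ?_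
          ring
      _ = s * y i := by rw [h7]
  have hccs : PowerSeries.constantCoeff s = γ := by
    have h1 : map (PowerSeries.constantCoeff (R := k)) (AS 0) = map χ (A 0) := by
      have h2 : (PowerSeries.constantCoeff (R := k)).comp jj = χ := RingHom.ext hcc
      rw [← hmapAS, map_map, h2]
    rw [hs, ev_map, h1, hmapA]
    have h2 : (fun l => PowerSeries.constantCoeff (o l)) = 0 := by
      funext l
      exact hcco l
    rw [h2, chA_zero hB hfixk]
  have hs0 : s ≠ 0 := by
    intro h1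
    rw [h1, map_zero] at hccs
    exact hγ hccs.symm
  have hdS0 : ((d ^ N : ℕ) : PowerSeries k) ≠ 0 := by
    intro h1
    have h2 := congrArg (PowerSeries.constantCoeff (R := k)) h1
    rw [map_natCast, map_zero] at h2
    exact hdeg0 h2
  have hFSh : ∀ i, (FS i).IsHomogeneous d := fun i => (hF i).map jj
  have hitSh := fun i => itR_hom hFSh N i
  -- the kernel
  set κ : Fin 3 → PowerSeries k := fun i => (jacR FS y).adjugate i j₀ with hκ
  have hκ1 : (jacR FS y).mulVec κ = 0 := jacR_adj FS y hJy j₀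
  have hκ2 : (jacR (itR FS N) y).mulVec κ = 0 := jacR_itR_ker hκ1 hN
  have hκ3 : ∀ i, PowerSeries.constantCoeff (κ i) = (jacR Fk (e 0)).adjugate i j₀ := by
    intro i
    have h1 : (PowerSeries.constantCoeff (R := k)).mapMatrix (jacR FS y) = jacR Fk (e 0) := by
      rw [map_jacR]
      congr 1
      · funext i
        exact hccmap _
      · funext i
        exact hccy i
    have h2 := congrFun (congrFun (RingHom.map_adjugate (PowerSeries.constantCoeff (R := k))
      (jacR FS y)) i) j₀
    rw [h1] at h2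
    exact h2
  have hgrad : PowerSeries.constantCoeff (∑ i, eval y (pderiv i (map jj H)) * κ i) ≠ 0 := by
    rw [map_sum]
    intro h1
    apply hR
    rw [← h1]
    refine Finset.sum_congr rfl fun i _ => ?_
    rw [map_mul, hκ3, pderiv_map', pderiv_map', hcceval]
  have hκ0 : κ ≠ 0 := by
    intro h1
    apply hgrad
    rw [h1]
    simp
  have hMdet : (jacR (itR FS N) y).det = 0 :=
    Matrix.exists_mulVec_eq_zero_iff.1 ⟨κ, hκ0, hκ2⟩
  have hS1 := det_jacR hBS1 hitSh hsfix
  have hS2 := trace_adj_jacR hBS1 hitSh hsfix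
  rw [← hy, hMdet] at hS1
  rw [← hy] at hS2
  have hSdet := (mul_eq_zero.1 hS1.symm).resolve_left (mul_ne_zero hdS0 hs0)
  rw [hSdet, add_zero] at hS2
  -- the trace is zero
  have htr : (jacR (itR FS N) y).adjugate.trace = 0 := by
    by_contra hne
    have hT0 : tM AS o 0 0 + tM AS o 1 1 ≠ 0 := by
      intro h1
      apply hne
      rw [hS2]
      have h2 : tM (chA eS BS (itR FS N)) o 0 0 + tM (chA eS BS (itR FS N)) o 1 1 = 0 := h1
      rw [h2, mul_zero]
    have hTX1 : PowerSeries.X ∣ tM AS o 0 0 + tM AS o 1 1 := by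
      have h1 : PowerSeries.constantCoeff ((jacR (itR FS N) y).adjugate.trace) = 0 := by
        rw [← htrw]
        have h2 : (PowerSeries.constantCoeff (R := k)).mapMatrix (jacR (itR FS N) y) =
            jacR (itR Fk N) (e 0) := by
          rw [map_jacR]
          congr 1
          · funext i
            rw [← hitS, ← hitk]
            exact hccmap _
          · funext i
            exact hccy i
        rw [← h2, ← RingHom.map_adjugate]
        simp only [Matrix.trace, Matrix.diag_apply, map_sum]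
        rfl
      rw [hS2, map_mul, map_mul, hccs, map_natCast] at h1
      have h3 := (mul_eq_zero.1 h1).resolve_left (mul_ne_zero hdeg0 hγ)
      exact PowerSeries.X_dvd_iff.2 h3
    have hA0S : ¬ PowerSeries.X ∣ (AS 0).coeff 0 := by
      rw [← hmapAS, coeff_map, hjX]
      exact hA0
    obtain ⟨ε, hε⟩ : ∃ ε : Fin 2 → PowerSeries k,
        ∀ j, ε j = ∑ i, κ i * BS i j.succ - (∑ i, κ i * BS i 0) * o j :=
      ⟨_, fun j => rfl⟩
    have hε1 := ker_jacR hBS1 hitSh hsfix (κ := κ) (by rw [← hy]; exact hκ2) hε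
    have hε2 := grad_ch hBS2 (hHh.map jj) (o := o) (by rw [← hy]; exact hHy) (κ := κ) hε
    rcases slow_case hUX hA0S hOrbS hinjS ho hSdet hT0 hTX1 (H := ch eS (map jj H)) hε1 (by
        rw [hε2, ← hy]
        intro h1
        exact hgrad (PowerSeries.X_dvd_iff.1 h1)) (hinf.mono fun j hj => by
        show eval (pS j) (ch eS (map jj H)) = 0
        have h1 : eval (pt eR (p j)) H = 0 := hj
        rw [eval_ch, ← hptS, ← ev_map, h1, map_zero]) (ρ₁.map jj) (ρ₂.map jj) (by
        intro I j hI hI'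
        have h1 : ∀ j, eval (pS j) (ch eS (map jj H)) = jj (eval (pt eR (p j)) H) := by
          intro j
          rw [eval_ch, ← hptS, ← ev_map]
        rw [h1] at hI hI'
        obtain ⟨⟨a, a', h2⟩, ⟨c, c', h3⟩⟩ := hρ j
        have h4 : ∀ (ρ : Polynomial R) (r : R), (ρ.map jj).eval (jj r) = jj (ρ.eval r) := by
          intro ρ r
          rw [Polynomial.eval_map, Polynomial.eval₂_at_apply]
        refine ⟨?_, ?_⟩
        · show PowerSeries.X ^ I ∣ (ρ₁.map jj).eval (jj (p j 0))
          rw [h4, h2, map_add, map_mul, map_mul]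
          exact dvd_add (dvd_mul_of_dvd_right hI _) (dvd_mul_of_dvd_right hI' _)
        · show PowerSeries.X ^ I ∣ (ρ₂.map jj).eval (jj (p j 1))
          rw [h4, h3, map_add, map_mul, map_mul]
          exact dvd_add (dvd_mul_of_dvd_right hI _) (dvd_mul_of_dvd_right hI' _)) with h1 | h1
    · exact hρ1 ((Polynomial.map_eq_zero_iff hjinj).1 h1)
    · exact hρ2 ((Polynomial.map_eq_zero_iff hjinj).1 h1)
  -- the equations
  have heqs : ∀ P ∈ supEqs (itR F N), eval y (map jj P) = 0 := by
    intro P hP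
    rcases hP with ⟨a, c, rfl⟩ | h1 | h1
    · have h2 : ∀ i, map jj (itR F N i) = itR FS N i := fun i => congrFun hitS i
      rw [map_sub, map_mul, map_mul, map_X, map_X, h2, h2, map_sub, map_mul, map_mul, eval_X,
        eval_X]
      have h3 : ∀ i, eval y (itR FS N i) = s * y i := hsfix
      rw [h3, h3]
      ring
    · have h1' : P = (jmR (itR F N)).det := h1
      rw [h1', (map_jmR jj _).1, hitS, (eval_jmR _ _).1]
      exact hMdet
    · have h1' : P = (jmR (itR F N)).adjugate.trace := h1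
      rw [h1', (map_jmR jj _).2, hitS, (eval_jmR _ _).2]
      exact htr
  intro P hP M
  obtain ⟨J, hJ⟩ := tends_eval ho (ch eS (map jj P)) M
  refine ⟨J, fun j hj => ?_⟩
  have h1 := hJ j hj
  rw [eval_ch, eval_ch, ← hy, heqs P hP, sub_zero, ← hptS, ← ev_map] at h1
  exact (hjd _ M).2 h1

end Pool.Agent.Helper63.TS2
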