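import Pool.Agent.Helper63.TS2.ItR

/-!
# Existence of forms which vanish at the superattracting periodic points
-/

set_option autoImplicit false

namespace Pool.Agent.Helper63.TS2

open MvPolynomial
open Pool.Agent.Helper36 (step iter iter_zero iter_succ)
open Pool.Agent.Helper30.TP
open Pool.Agent.Helper63.TS

section aux

variable {L : Type} [Field L]

theorem supForm_iter_ne {d : ℕ} {G : Fin 3 → MvPolynomial (Fin 3) L} (hG : IsEndo d G)
    {y : Fin 3 → L} (hy : y ≠ 0) (N : ℕ) : iter G y N ≠ 0 := by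
  induction N with
  | zero => exact hy
  | succ N ih =>
    rw [iter_succ]
    intro h
    apply ih
    apply hG.nz
    intro i
    have h1 := congrFun h i
    rw [← coe_aeval_eq_eval]
    exact h1

theorem supForm_zero {G : Fin 3 → MvPolynomial (Fin 3) L} {y : Fin 3 → L} {N : ℕ}
    (hP : PEq y (iter G y N)) (hd : (mult G y N).det = 0)
    (ht : (mult G y N).adjugate.trace = 0) : ∀ P ∈ supEqs (itF G N), eval y P = 0 := by
  intro P hPs
  rcases hPs with ⟨a, b, rfl⟩ | (rfl | rfl)
  · obtain ⟨c, -, hc⟩ := hP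
    rw [map_sub, map_mul, map_mul, eval_X, eval_X, eval_itF, eval_itF, hc]
    simp only [Pi.smul_apply, smul_eq_mul]
    ring
  · rw [(eval_jmR _ _).1, jacR_eq]
    exact hd
  · rw [(eval_jmR _ _).2, jacR_eq]
    exact ht

theorem supForm_of_zero {G : Fin 3 → MvPolynomial (Fin 3) L} {z : Fin 3 → L} {N : ℕ}
    (hN : 0 < N) (hz : z ≠ 0) (hi : iter G z N ≠ 0)
    (h : ∀ P ∈ supEqs (itF G N), eval z P = 0) : Superatt G z := by
  have h1 : ∀ a b, iter G z N a * z b - iter G z N b * z a = 0 := by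
    intro a b
    have h2 := h (itF G N a * X b - itF G N b * X a) (Or.inl ⟨a, b, rfl⟩)
    rwa [map_sub, map_mul, map_mul, eval_X, eval_X, eval_itF, eval_itF] at h2
  refine ⟨hz, N, hN, ?_, ?_, ?_⟩
  · apply Cl_peq hz hi
    obtain ⟨c0, c1, c2⟩ := Cl_cross_apply z (iter G z N)
    funext i
    rw [Pi.zero_apply]
    have h3 : ∀ i : Fin 3, i = 0 ∨ i = 1 ∨ i = 2 := by decide
    rcases h3 i with rfl | rfl | rfl
    · rw [c0]
      linear_combination h1 2 1
    · rw [c1]
      linear_combination h1 0 2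
    · rw [c2]
      linear_combination h1 1 0
  · rw [← jacR_eq, ← (eval_jmR _ _).1]
    exact h _ (Or.inr (Or.inl rfl))
  · rw [← jacR_eq, ← (eval_jmR _ _).2]
    exact h _ (Or.inr (Or.inr rfl))

theorem supForm_peq_symm {x y : Fin 3 → L} (h : PEq x y) : PEq y x := by
  obtain ⟨c, hc, rfl⟩ := h
  exact ⟨c⁻¹, inv_ne_zero hc, by rw [smul_smul, inv_mul_cancel₀ hc, one_smul]⟩

theorem supForm_peq_trans {x y z : Fin 3 → L} (h : PEq x y) (h' : PEq y z) : PEq x z := by
  obtain ⟨c, hc, rfl⟩ := h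
  obtain ⟨e, he, rfl⟩ := h'
  exact ⟨e * c, mul_ne_zero he hc, by rw [smul_smul]⟩

theorem supForm_eval_smul {e : ℕ} {P : MvPolynomial (Fin 3) L} (hP : P.IsHomogeneous e) (c : L)
    (y : Fin 3 → L) : eval (c • y) P = c ^ e * eval y P := by
  rw [← coe_aeval_eq_eval, ← coe_aeval_eq_eval]
  exact Pool.Agent.Helper36.aeval_smul_homogeneous hP c y

theorem supForm_smul {d : ℕ} {G : Fin 3 → MvPolynomial (Fin 3) L} (hG : IsEndo d G)
    {y : Fin 3 → L} (hy : Superatt G y) {c : L} (hc : c ≠ 0) : Superatt G (c • y) := by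
  obtain ⟨hy0, N, hN, hP, hd, ht⟩ := hy
  have hyc : PEq y (c • y) := ⟨c, hc, rfl⟩
  have hj : mult G (c • y) N = (c ^ (d ^ N - 1)) • mult G y N := by
    rw [← jacR_eq, ← jacR_eq]
    ext i j
    rw [Matrix.smul_apply, smul_eq_mul]
    exact supForm_eval_smul (itF_hom hG.hom N i).pderiv c y
  refine ⟨smul_ne_zero hc hy0, N, hN, ?_, ?_, ?_⟩
  · have h1 : PEq (iter G y N) (iter G (c • y) N) :=
      Pool.Agent.Helper36.PEq.iter hG.hom hyc N
    exact supForm_peq_trans (supForm_peq_symm hyc) (supForm_peq_trans hP h1)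
  · rw [hj, Matrix.det_smul, hd, mul_zero]
  · rw [hj, Matrix.adjugate_smul, Matrix.trace_smul, ht, smul_zero]

end aux

variable {K : Type} [Field K] [Algebra K ℂ]

theorem supForm_aeval (z : Fin 3 → ℂ) (P : MvPolynomial (Fin 3) K) :
    aeval z P = eval z (map (algebraMap K ℂ) P) := by
  rw [eval_map, aeval_def]

theorem supForm_map_itF (F : Fin 3 → MvPolynomial (Fin 3) K) (N : ℕ) (i : Fin 3) :
    map (algebraMap K ℂ) (itF F N i) = itF (fun i => map (algebraMap K ℂ) (F i)) N i := by
  rw [← itR_eq, ← itR_eq]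
  exact map_itR _ F N i

theorem supForm_iff (F : Fin 3 → MvPolynomial (Fin 3) K) (N : ℕ) (z : Fin 3 → ℂ) :
    (∀ P ∈ supEqs (itF F N), aeval z P = 0) ↔
      ∀ P ∈ supEqs (itF (fun i => map (algebraMap K ℂ) (F i)) N), eval z P = 0 := by
  have hfun : (fun i => map (algebraMap K ℂ) (itF F N i)) =
      itF (fun i => map (algebraMap K ℂ) (F i)) N := by
    funext i
    exact supForm_map_itF F N i
  have hdet := map_jmR (algebraMap K ℂ) (itF F N)
  rw [hfun] at hdet
  constructor
  · intro h P hP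
    rcases hP with ⟨a, b, rfl⟩ | (rfl | rfl)
    · have h1 := h (itF F N a * X b - itF F N b * X a) (Or.inl ⟨a, b, rfl⟩)
      rw [supForm_aeval, map_sub, map_mul, map_mul, map_X, map_X, supForm_map_itF,
        supForm_map_itF] at h1
      exact h1
    · have h1 := h _ (Or.inr (Or.inl rfl))
      rw [supForm_aeval, hdet.1] at h1
      exact h1
    · have h1 := h _ (Or.inr (Or.inr rfl))
      rw [supForm_aeval, hdet.2] at h1
      exact h1
  · intro h P hP
    rw [supForm_aeval]
    rcases hP with ⟨a, b, rfl⟩ | (rfl | rfl)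
    · rw [map_sub, map_mul, map_mul, map_X, map_X, supForm_map_itF, supForm_map_itF]
      exact h _ (Or.inl ⟨a, b, rfl⟩)
    · rw [hdet.1]
      exact h _ (Or.inr (Or.inl rfl))
    · rw [hdet.2]
      exact h _ (Or.inr (Or.inr rfl))

/-- If the superattracting periodic points are finite in number, then the quotients of their
coordinates are algebraic over the field of definition of the map. -/
theorem sup_algebraic {d : ℕ} {F : Fin 3 → MvPolynomial (Fin 3) K}
    (hF : IsEndo d fun i => map (algebraMap K ℂ) (F i)) {T : Finset (Fin 3 → ℂ)}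
    (hT : ∀ y : Fin 3 → ℂ, Superatt (fun i => map (algebraMap K ℂ) (F i)) y →
      ∃ t ∈ T, PEq y t) {y : Fin 3 → ℂ}
    (hy : Superatt (fun i => map (algebraMap K ℂ) (F i)) y) (a b : Fin 3) (ha : y a = 1) :
    IsAlgebraic K (y b) := by
  classical
  obtain ⟨hy0, N, hN, hP, hd, ht⟩ := hy
  set I : Ideal (MvPolynomial (Fin 3) K) := Ideal.span (supEqs (itF F N) ∪ {X a - 1}) with hI
  set S : Finset ℂ := (T.image fun t => t b / t a).filter fun s => IsAlgebraic K s with hS
  set q : Polynomial K := ∏ s ∈ S, minpoly K s with hq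
  have hq0 : q ≠ 0 := by
    rw [hq, Finset.prod_ne_zero_iff]
    intro s hs
    exact minpoly.ne_zero (Finset.mem_filter.1 hs).2.isIntegral
  set Q : MvPolynomial (Fin 3) K := Polynomial.aeval (X b) q with hQ
  have hQev : ∀ (A : Type) [Field A] [Algebra K A] (z : Fin 3 → A),
      aeval z Q = Polynomial.aeval (z b) q := by
    intro A _ _ z
    rw [hQ, ← Polynomial.aeval_algHom_apply, aeval_X]
  let ι : AlgebraicClosure K →ₐ[K] ℂ := IsAlgClosed.lift
  have hmem : Q ∈ I.radical := by
    rw [← vanishingIdeal_zeroLocus_eq_radical (K := AlgebraicClosure K),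
      mem_vanishingIdeal_iff]
    intro z hz
    rw [mem_zeroLocus_iff] at hz
    rw [hQev]
    have hza : z a = 1 := by
      have h1 := hz (X a - 1) (Ideal.subset_span (Or.inr rfl))
      rw [map_sub, aeval_X, map_one, sub_eq_zero] at h1
      exact h1
    have hiz : ∀ P : MvPolynomial (Fin 3) K, aeval (fun i => ι (z i)) P = ι (aeval z P) := by
      intro P
      rw [← comp_aeval_apply]
    have hw0 : (fun i => ι (z i)) ≠ 0 := by
      intro h
      have h1 := congrFun h a
      rw [Pi.zero_apply, hza, map_one] at h1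
      exact one_ne_zero h1
    have hsup : Superatt (fun i => map (algebraMap K ℂ) (F i)) fun i => ι (z i) := by
      refine supForm_of_zero hN hw0 (supForm_iter_ne hF hw0 N) ?_
      rw [← supForm_iff]
      intro P hP'
      rw [hiz, hz P (Ideal.subset_span (Or.inl hP')), map_zero]
    obtain ⟨t, htT, c, hc, hct⟩ := hT _ hsup
    have hs : ι (z b) ∈ S := by
      rw [hS, Finset.mem_filter, Finset.mem_image]
      refine ⟨⟨t, htT, ?_⟩, ?_⟩
      · rw [hct]
        simp only [Pi.smul_apply, smul_eq_mul]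
        rw [hza, map_one, mul_one, mul_div_cancel_left₀ _ hc]
      · exact (Algebra.IsAlgebraic.isAlgebraic (R := K) (z b)).algHom ι
    have h2 : Polynomial.aeval (ι (z b)) q = 0 := by
      rw [hq, map_prod]
      exact Finset.prod_eq_zero hs (minpoly.aeval K _)
    rw [Polynomial.aeval_algHom_apply] at h2
    exact (map_eq_zero_iff ι ι.injective).1 h2
  obtain ⟨m, hm⟩ := hmem
  have hle : ∀ P ∈ I, aeval y P = 0 := by
    intro P hPI
    have h1 : I ≤ RingHom.ker (aeval y : MvPolynomial (Fin 3) K →ₐ[K] ℂ) := by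
      rw [hI, Ideal.span_le]
      rintro P' (hP' | hP')
      · exact (supForm_iff F N y).2 (supForm_zero hP hd ht) P' hP'
      · rw [Set.mem_singleton_iff] at hP'
        subst hP'
        show aeval y (X a - 1) = 0
        rw [map_sub, aeval_X, map_one, ha, sub_self]
    exact h1 hPI
  have h3 := hle _ hm
  rw [map_pow] at h3
  have h5 : aeval y Q = 0 := eq_zero_of_pow_eq_zero h3
  rw [hQev] at h5
  exact ⟨q, hq0, h5⟩

/-- The homogenisation of a polynomial in one variable. -/
noncomputable def hmg (a b : Fin 3) (m : Polynomial K) : MvPolynomial (Fin 3) K :=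
  ∑ i ∈ Finset.range (m.natDegree + 1), C (m.coeff i) * X b ^ i * X a ^ (m.natDegree - i)

omit [Algebra K ℂ] in
theorem hmg_hom (a b : Fin 3) (m : Polynomial K) : (hmg a b m).IsHomogeneous m.natDegree := by
  refine IsHomogeneous.sum _ _ _ fun i hi => ?_
  have hi' : i ≤ m.natDegree := Nat.lt_succ_iff.1 (Finset.mem_range.1 hi)
  have h1 := (((isHomogeneous_X K b).pow i).C_mul (m.coeff i)).mul
    ((isHomogeneous_X K a).pow (m.natDegree - i))
  rwa [one_mul, one_mul, Nat.add_sub_cancel' hi'] at h1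

theorem hmg_aeval (a b : Fin 3) (m : Polynomial K) (z : Fin 3 → ℂ) :
    aeval z (hmg a b m) = ∑ i ∈ Finset.range (m.natDegree + 1),
      algebraMap K ℂ (m.coeff i) * z b ^ i * z a ^ (m.natDegree - i) := by
  unfold hmg
  rw [map_sum]
  refine Finset.sum_congr rfl fun i _ => ?_
  rw [map_mul, map_mul, map_pow, map_pow, aeval_X, aeval_X, aeval_C]

theorem hmg_zero (a b : Fin 3) (m : Polynomial K) {y : Fin 3 → ℂ} (ha : y a = 1)
    (hb : Polynomial.aeval (y b) m = 0) : aeval y (hmg a b m) = 0 := by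
  rw [hmg_aeval, ← hb, Polynomial.aeval_eq_sum_range]
  refine Finset.sum_congr rfl fun i _ => ?_
  rw [ha, one_pow, mul_one, Algebra.smul_def]

/-- The homogenisation does not vanish on the lines parallel to an axis. -/
theorem hmg_line {a b : Fin 3} (hab : a ≠ b) {m : Polynomial K} (hm : m.Monic) (w : Fin 3 → ℂ)
    (h : ∀ s : ℂ, aeval (Function.update w b s) (hmg a b m) = 0) : False := by
  set p : Polynomial ℂ := ∑ i ∈ Finset.range (m.natDegree + 1),
    Polynomial.C (algebraMap K ℂ (m.coeff i) * w a ^ (m.natDegree - i)) * Polynomial.X ^ i with hp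
  have h1 : p = 0 := by
    apply Polynomial.funext
    intro s
    have h2 := h s
    rw [hmg_aeval, Function.update_self, Function.update_of_ne hab] at h2
    rw [hp, Polynomial.eval_finsetSum, Polynomial.eval_zero, ← h2]
    refine Finset.sum_congr rfl fun i _ => ?_
    rw [Polynomial.eval_mul, Polynomial.eval_C, Polynomial.eval_pow, Polynomial.eval_X]
    ring
  have h3 : p.coeff m.natDegree = 1 := by
    rw [hp, Polynomial.finsetSum_coeff, Finset.sum_eq_single m.natDegree]
    · rw [Polynomial.coeff_C_mul, Polynomial.coeff_X_pow, if_pos rfl, mul_one, Nat.sub_self,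
        pow_zero, mul_one, Polynomial.coeff_natDegree, hm.leadingCoeff, map_one]
    · intro i _ hi
      rw [Polynomial.coeff_C_mul, Polynomial.coeff_X_pow, if_neg (Ne.symm hi), mul_zero]
    · intro hn
      exact absurd (Finset.mem_range.2 (Nat.lt_succ_self _)) hn
  rw [h1, Polynomial.coeff_zero] at h3
  exact zero_ne_one h3

omit [Algebra K ℂ] in
theorem hmg_degreeOf {a b c : Fin 3} (hca : c ≠ a) (hcb : c ≠ b) (m : Polynomial K) :
    degreeOf c (hmg a b m) = 0 := by
  classical
  refine Nat.le_zero.1 ((degreeOf_sum_le _ _ _).trans (Finset.sup_le fun i _ => ?_))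
  have h1 : degreeOf c (X b ^ i : MvPolynomial (Fin 3) K) = 0 := by
    refine Nat.le_zero.1 ((degreeOf_pow_le _ _ _).trans ?_)
    rw [degreeOf_X_of_ne hcb, mul_zero]
  have h2 : degreeOf c (X a ^ (m.natDegree - i) : MvPolynomial (Fin 3) K) = 0 := by
    refine Nat.le_zero.1 ((degreeOf_pow_le _ _ _).trans ?_)
    rw [degreeOf_X_of_ne hca, mul_zero]
  have h3 := degreeOf_mul_le c (C (m.coeff i) * X b ^ i) (X a ^ (m.natDegree - i))
  have h4 := degreeOf_mul_le c (C (m.coeff i) : MvPolynomial (Fin 3) K) (X b ^ i)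
  rw [degreeOf_C] at h4
  omega

/-- A non-constant irreducible polynomial has a zero. -/
theorem supForm_exists_zero {h : MvPolynomial (Fin 3) K} (hirr : Irreducible h) :
    ∃ w : Fin 3 → ℂ, aeval w h = 0 := by
  by_contra hcon
  push Not at hcon
  apply hirr.not_isUnit
  rw [← Ideal.span_singleton_eq_top, ← Ideal.radical_eq_top,
    ← vanishingIdeal_zeroLocus_eq_radical (K := ℂ), Ideal.eq_top_iff_one,
    mem_vanishingIdeal_iff]
  intro w hw
  rw [mem_zeroLocus_iff] at hw
  exact absurd (hw h (Ideal.mem_span_singleton_self h)) (hcon w)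

theorem hmg_not_both {a b c : Fin 3} (hab : a ≠ b) (hac : a ≠ c) (hbc : b ≠ c)
    {m m' : Polynomial K} (hm : m.Monic) (hm' : m'.Monic) {h : MvPolynomial (Fin 3) K}
    (hirr : Irreducible h) : ¬ (h ∣ hmg a b m ∧ h ∣ hmg a c m') := by
  rintro ⟨h1, h2⟩
  have hne : ∀ {b : Fin 3} {m : Polynomial K}, a ≠ b → m.Monic → hmg a b m ≠ 0 := by
    intro b m hab hm h0
    exact hmg_line hab hm 0 fun s => by rw [h0, map_zero]
  have hdeg : ∀ {b c : Fin 3} {m : Polynomial K}, a ≠ b → c ≠ a → c ≠ b → m.Monic →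
      h ∣ hmg a b m → degreeOf c h = 0 := by
    intro b c m hab hca hcb hm hd
    obtain ⟨r, hr⟩ := hd
    have h3 := hne hab hm
    rw [hr] at h3
    have h4 := degreeOf_mul_eq (n := c) (left_ne_zero_of_mul h3) (right_ne_zero_of_mul h3)
    rw [← hr, hmg_degreeOf hca hcb] at h4
    omega
  have hc : degreeOf c h = 0 := hdeg hab (Ne.symm hac) (Ne.symm hbc) hm h1
  have hb : degreeOf b h = 0 := hdeg hac (Ne.symm hab) hbc hm' h2
  obtain ⟨w, hw⟩ := supForm_exists_zero hirr
  apply hmg_line hab hm w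
  intro s
  obtain ⟨r, hr⟩ := h1
  rw [hr, map_mul]
  have h5 : aeval (Function.update w b s) h = aeval w h := by
    have h6 := eval₂Hom_congr' (f₁ := algebraMap K ℂ) (f₂ := algebraMap K ℂ)
      (g₁ := Function.update w b s) (g₂ := w) (p₁ := h) (p₂ := h) rfl (fun i hi _ => ?_) rfl
    · exact h6
    · rw [mem_vars_iff_degreeOf_ne_zero] at hi
      have hib : i ≠ b := by
        rintro rfl
        exact hi hb
      exact Function.update_of_ne hib _ _
  rw [h5, hw, zero_mul]

theorem exists_sup_form {d : ℕ} {F : Fin 3 → MvPolynomial (Fin 3) K}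
    (hF : IsEndo d fun i => map (algebraMap K ℂ) (F i)) {T : Finset (Fin 3 → ℂ)}
    (hT : ∀ y : Fin 3 → ℂ, Superatt (fun i => map (algebraMap K ℂ) (F i)) y →
      ∃ t ∈ T, PEq y t) {h : MvPolynomial (Fin 3) K} (hirr : Irreducible h) :
    ∃ (e : ℕ) (Q : MvPolynomial (Fin 3) K), 1 ≤ e ∧ Q.IsHomogeneous e ∧ ¬ h ∣ Q ∧
      ∀ y : Fin 3 → ℂ, Superatt (fun i => map (algebraMap K ℂ) (F i)) y → aeval y Q = 0 := by
  classical
  -- a coordinate which is not divisible by `h`
  have hX : ∃ a : Fin 3, ¬ h ∣ (X a : MvPolynomial (Fin 3) K) := by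
    by_contra hcon
    push Not at hcon
    have h1 := hmg_not_both (a := 2) (b := 0) (c := 1) (by decide) (by decide) (by decide)
      (m := (Polynomial.X : Polynomial K)) (m' := Polynomial.X) Polynomial.monic_X
      Polynomial.monic_X hirr
    apply h1
    have h2 : ∀ b : Fin 3, hmg 2 b (Polynomial.X : Polynomial K) = X b := by
      intro b
      unfold hmg
      rw [Polynomial.natDegree_X, Finset.sum_range_succ, Finset.sum_range_one,
        Polynomial.coeff_X_zero, Polynomial.coeff_X_one]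
      simp
    rw [h2, h2]
    exact ⟨hcon 0, hcon 1⟩
  obtain ⟨a0, ha0⟩ := hX
  -- one class of points
  have hone : ∀ t : Fin 3 → ℂ, ∃ (e : ℕ) (Q : MvPolynomial (Fin 3) K), 1 ≤ e ∧
      Q.IsHomogeneous e ∧ ¬ h ∣ Q ∧ ∀ y : Fin 3 → ℂ,
        Superatt (fun i => map (algebraMap K ℂ) (F i)) y → PEq y t → aeval y Q = 0 := by
    intro t
    by_cases hex : ∃ y : Fin 3 → ℂ, Superatt (fun i => map (algebraMap K ℂ) (F i)) y ∧ PEq y t
    · obtain ⟨y, hy, hyt⟩ := hex
      obtain ⟨a, ha⟩ : ∃ a, y a ≠ 0 := by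
        by_contra hc
        push Not at hc
        exact hy.1 (funext hc)
      set z : Fin 3 → ℂ := (y a)⁻¹ • y with hz
      have hzs : Superatt (fun i => map (algebraMap K ℂ) (F i)) z :=
        supForm_smul hF hy (inv_ne_zero ha)
      have hza : z a = 1 := by
        rw [hz, Pi.smul_apply, smul_eq_mul, inv_mul_cancel₀ ha]
      have hyz : PEq y z := ⟨(y a)⁻¹, inv_ne_zero ha, rfl⟩
      have halg : ∀ b, IsIntegral K (z b) := fun b =>
        (sup_algebraic hF hT hzs a b hza).isIntegral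
      obtain ⟨b, c, hab, hac, hbc⟩ : ∃ b c : Fin 3, a ≠ b ∧ a ≠ c ∧ b ≠ c := by
        have h3 : ∀ a : Fin 3, ∃ b c : Fin 3, a ≠ b ∧ a ≠ c ∧ b ≠ c := by decide
        exact h3 a
      have hnb := hmg_not_both hab hac hbc (minpoly.monic (halg b)) (minpoly.monic (halg c)) hirr
      have hgood : ∃ b, ¬ h ∣ hmg a b (minpoly K (z b)) := by
        by_contra hcon
        push Not at hcon
        exact hnb ⟨hcon b, hcon c⟩
      obtain ⟨b, hb⟩ := hgood
      refine ⟨(minpoly K (z b)).natDegree, hmg a b (minpoly K (z b)),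
        minpoly.natDegree_pos (halg b), hmg_hom _ _ _, hb, fun y' hy' hyt' => ?_⟩
      have h4 : PEq z y' := supForm_peq_trans (supForm_peq_symm hyz)
        (supForm_peq_trans hyt (supForm_peq_symm hyt'))
      obtain ⟨s, -, rfl⟩ := h4
      have h5 := Pool.Agent.Helper36.aeval_smul_homogeneous (hmg_hom a b (minpoly K (z b))) s z
      have h6 : (fun i => s * z i) = s • z := rfl
      rw [h6] at h5
      rw [h5, hmg_zero a b _ hza (minpoly.aeval K _), mul_zero]
    · refine ⟨1, X a0, le_rfl, isHomogeneous_X K a0, ha0, fun y hy hyt => ?_⟩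
      exact absurd ⟨y, hy, hyt⟩ hex
  choose e Q he hQh hQn hQ0 using hone
  refine ⟨1 + ∑ t ∈ T, e t, X a0 * ∏ t ∈ T, Q t, by omega,
    (isHomogeneous_X K a0).mul (IsHomogeneous.prod _ _ _ fun t _ => hQh t), ?_, ?_⟩
  · intro hd
    rcases hirr.prime.dvd_or_dvd hd with h1 | h1
    · exact ha0 h1
    · obtain ⟨t, -, ht⟩ := (Prime.dvd_finsetProd_iff hirr.prime _).1 h1
      exact hQn t ht
  · intro y hy
    obtain ⟨t, htT, hyt⟩ := hT y hy
    rw [map_mul, map_prod, Finset.prod_eq_zero htT (hQ0 t y hy hyt), mul_zero]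

end Pool.Agent.Helper63.TS2
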