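import Pool.Agent.Helper63.TS2.ItR

/-!
# Forms which vanish at the superattracting periodic points
-/

set_option autoImplicit false

namespace Pool.Agent.Helper63.TS2

open MvPolynomial
open Pool.Agent.Helper36 (step iter)
open Pool.Agent.Helper30.TP
open Pool.Agent.Helper63.TS

variable {K : Type} [Field K] [Algebra K ℂ]

theorem SupNull_iter_ne {d : ℕ} {f : Fin 3 → MvPolynomial (Fin 3) ℂ} (hf : IsEndo d f)
    {y : Fin 3 → ℂ} (hy : y ≠ 0) (N : ℕ) : iter f y N ≠ 0 := by
  induction N with
  | zero => exact hy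
  | succ N ih =>
    rw [Pool.Agent.Helper36.iter_succ]
    intro h0
    exact ih (hf.nz _ fun i => congrFun h0 i)

theorem SupNull_aeval (P : MvPolynomial (Fin 3) K) (y : Fin 3 → ℂ) :
    aeval y P = eval y (map (algebraMap K ℂ) P) := by
  rw [eval_map]
  rfl

theorem sup_null {d : ℕ} {F : Fin 3 → MvPolynomial (Fin 3) K}
    (hF : IsEndo d fun i => map (algebraMap K ℂ) (F i)) {Q : MvPolynomial (Fin 3) K} {e : ℕ}
    (he : 1 ≤ e) (hQ : Q.IsHomogeneous e)
    (hQ0 : ∀ y : Fin 3 → ℂ, Superatt (fun i => map (algebraMap K ℂ) (F i)) y → aeval y Q = 0)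
    {N : ℕ} (hN : 0 < N) : ∃ s : ℕ, Q ^ s ∈ Ideal.span (supEqs (itF F N)) := by
  have h2 : Q ∈ (Ideal.span (supEqs (itF F N))).radical := by
    rw [← MvPolynomial.vanishingIdeal_zeroLocus_eq_radical (K := ℂ)]
    rw [MvPolynomial.mem_vanishingIdeal_iff]
    intro y hy
    rw [MvPolynomial.mem_zeroLocus_iff] at hy
    by_cases hy0 : y = 0
    · rw [hy0]
      have h3 : aeval (0 : Fin 3 → ℂ) Q = algebraMap K ℂ (constantCoeff Q) := by
        rw [aeval_zero]
      rw [h3, constantCoeff_eq, hQ.coeff_eq_zero (by simp; omega), map_zero]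
    · apply hQ0
      set f : Fin 3 → MvPolynomial (Fin 3) ℂ := fun i => map (algebraMap K ℂ) (F i) with hf
      have hit : ∀ i, map (algebraMap K ℂ) (itF F N i) = itF f N i := by
        intro i
        rw [← itR_eq, ← itR_eq]
        exact map_itR _ _ _ _
      have hev : ∀ i, aeval y (itF F N i) = iter f y N i := by
        intro i
        rw [SupNull_aeval, hit, eval_itF]
      have hitf : (fun i => map (algebraMap K ℂ) (itF F N i)) = itF f N := funext hit
      refine ⟨hy0, N, hN, ?_, ?_, ?_⟩
      · refine Cl_peq hy0 (SupNull_iter_ne hF hy0 N) ?_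
        have h4 : ∀ a b : Fin 3, iter f y N a * y b - iter f y N b * y a = 0 := by
          intro a b
          have h5 := hy _ (Ideal.subset_span (Or.inl ⟨a, b, rfl⟩))
          simp only [map_sub, map_mul, aeval_X] at h5
          rw [hev, hev] at h5
          exact h5
        obtain ⟨h0, h1, h2⟩ := Cl_cross_apply y (iter f y N)
        funext i
        fin_cases i <;> simp only [Fin.zero_eta, Fin.mk_one, Fin.reduceFinMk]
        · rw [h0, Pi.zero_apply]
          linear_combination h4 2 1
        · rw [h1, Pi.zero_apply]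
          linear_combination h4 0 2
        · rw [h2, Pi.zero_apply]
          linear_combination h4 1 0
      · have h5 := hy _ (Ideal.subset_span (Or.inr (Or.inl rfl)))
        rw [SupNull_aeval, (map_jmR _ _).1, hitf, (eval_jmR _ _).1, jacR_eq] at h5
        exact h5
      · have h5 := hy _ (Ideal.subset_span (Or.inr (Or.inr rfl)))
        rw [SupNull_aeval, (map_jmR _ _).2, hitf, (eval_jmR _ _).2, jacR_eq] at h5
        exact h5
  exact h2

end Pool.Agent.Helper63.TS2
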