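import Pool.Agent.Helper63.TS.Trans
import Pool.Agent.Helper63.TS2.Defs

/-!
# Transversality, without the hypothesis on the rank
-/

set_option autoImplicit false

namespace Pool.Agent.Helper63.TS2

open MvPolynomial
open Pool.Agent.Helper36 (step iter exists_nullstellensatz)
open Pool.Agent.Helper30.TP
open Pool.Agent.Helper63.TK
open Pool.Agent.Helper63.TS

/-- A `4 × 3` matrix with vanishing maximal minors has a nonzero vector in its kernel. -/
theorem trans2_lin {A : Type} [CommRing A] [IsDomain A] (M : Matrix (Fin 3) (Fin 3) A)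
    (g : Fin 3 → A) (h0 : M.det = 0) (h1 : ∀ j, ∑ i, g i * M.adjugate i j = 0) :
    ∃ v : Fin 3 → A, v ≠ 0 ∧ (∀ i, ∑ j, M i j * v j = 0) ∧ ∑ i, g i * v i = 0 := by
  classical
  have key : ∀ l : Fin 3, ∃ v : Fin 3 → A, v ≠ 0 ∧
      ∀ i, ∑ j, M i j * v j + (if i = l then 1 else 0) * ∑ j, g j * v j = 0 := by
    intro l
    have hdet : (M + Matrix.of fun i j => (if i = l then 1 else 0) * g j).det = 0 := by
      have h2 := h1 l
      rw [Fin.sum_univ_three, trans_adj3, trans_adj3, trans_adj3] at h2
      rw [Matrix.det_fin_three] at h0 ⊢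
      fin_cases l <;> simp [Matrix.add_apply] at h2 ⊢ <;> linear_combination h0 + h2
    obtain ⟨v, hv, hMv⟩ := Matrix.exists_mulVec_eq_zero_iff.2 hdet
    refine ⟨v, hv, fun i => ?_⟩
    have h3 := congrFun hMv i
    simp only [Matrix.mulVec, dotProduct, Matrix.add_apply, Matrix.of_apply, Pi.zero_apply] at h3
    refine Eq.trans ?_ h3
    rw [Finset.mul_sum, ← Finset.sum_add_distrib]
    exact Finset.sum_congr rfl fun j _ => by ring
  choose v hv hMv using key
  by_cases hc : ∃ l, ∑ j, g j * v l j = 0
  · obtain ⟨l, hl⟩ := hc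
    refine ⟨v l, hv l, fun i => ?_, hl⟩
    have := hMv l i
    rwa [hl, mul_zero, add_zero] at this
  · push Not at hc
    exfalso
    have h3 : M * Matrix.of (fun i l => v l i) =
        Matrix.diagonal fun l => - ∑ j, g j * v l j := by
      ext i l
      rw [Matrix.mul_apply, Matrix.diagonal_apply]
      have h4 := hMv l i
      by_cases hil : i = l
      · rw [if_pos hil, one_mul] at h4
        rw [if_pos hil]
        subst hil
        exact eq_neg_of_add_eq_zero_left h4
      · rw [if_neg hil, zero_mul, add_zero] at h4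
        rw [if_neg hil]
        exact h4
    have h5 := congrArg Matrix.det h3
    rw [Matrix.det_mul, h0, zero_mul, Matrix.det_diagonal] at h5
    exact (Finset.prod_ne_zero_iff.2 fun l _ => neg_ne_zero.2 (hc l)) h5.symm

theorem exists_rf_not_dvd2 {K : Type} [Field K] [Algebra K ℂ] {d : ℕ}
    {F : Fin 3 → MvPolynomial (Fin 3) K}
    (hF : IsEndo d fun i => map (algebraMap K ℂ) (F i)) {h : MvPolynomial (Fin 3) K}
    (hirr : Irreducible h) (hJ : h ∣ jf F) : ∃ j, ¬ h ∣ rf F h j := by
  classical
  by_contra hcon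
  push Not at hcon
  have hchar : CharZero K := (algebraMap K ℂ).charZero
  -- the quotient
  set I : Ideal (MvPolynomial (Fin 3) K) := Ideal.span {h} with hI
  have hprime : I.IsPrime := (Ideal.span_singleton_prime hirr.ne_zero).2 hirr.prime
  let π : MvPolynomial (Fin 3) K →ₐ[K] (MvPolynomial (Fin 3) K ⧸ I) := Ideal.Quotient.mkₐ K I
  have hπs : Function.Surjective π := Ideal.Quotient.mkₐ_surjective K I
  have hπ0 : ∀ P, π P = 0 ↔ h ∣ P := by
    intro P
    rw [← Ideal.mem_span_singleton, ← hI]
    exact Ideal.Quotient.eq_zero_iff_mem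
  have hcharA : CharZero (MvPolynomial (Fin 3) K ⧸ I) :=
    charZero_of_injective_algebraMap (algebraMap K (MvPolynomial (Fin 3) K ⧸ I)).injective
  -- the vector
  obtain ⟨v, hv0, hv1, hv2⟩ := trans2_lin ((jm F).map π) (fun i => π (pderiv i h)) (by
      have h1 := RingHom.map_det π.toRingHom (jm F)
      exact h1.symm.trans ((hπ0 _).2 hJ)) (by
      intro j
      have h1 := (hπ0 _).2 (hcon j)
      unfold rf at h1
      rw [map_sum] at h1
      rw [← h1]
      refine Finset.sum_congr rfl fun i _ => ?_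
      rw [map_mul]
      congr 1
      have h2 := RingHom.map_adjugate π.toRingHom (jm F)
      exact (congrFun (congrFun h2 i) j).symm)
  choose P hP using fun i => hπs (v i)
  -- the derivation
  let D : Derivation K (MvPolynomial (Fin 3) K) (MvPolynomial (Fin 3) K) :=
    P 0 • pderiv 0 + P 1 • pderiv 1 + P 2 • pderiv 2
  have hDap : ∀ Q, D Q = ∑ i, P i * pderiv i Q := by
    intro Q
    rw [Fin.sum_univ_three]
    rfl
  have hDh : h ∣ D h := by
    rw [← hπ0, hDap, map_sum, ← hv2]
    refine Finset.sum_congr rfl fun i _ => ?_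
    rw [map_mul, hP, mul_comm]
  have hDF : ∀ l, h ∣ D (F l) := by
    intro l
    rw [← hπ0, hDap, map_sum, ← hv1 l]
    refine Finset.sum_congr rfl fun i _ => ?_
    rw [map_mul, hP, mul_comm]
    rfl
  obtain ⟨D', hD'⟩ := trans_quot π hπs D (by
    intro Q hQ
    rw [hπ0] at hQ ⊢
    obtain ⟨Q, rfl⟩ := hQ
    rw [Derivation.leibniz, smul_eq_mul, smul_eq_mul]
    exact dvd_add (Dvd.intro _ rfl) (Dvd.dvd.mul_left hDh _))
  have hkill : ∀ Q ∈ Algebra.adjoin K (Set.range F), π (D Q) = 0 := by
    intro Q hQ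
    induction hQ using Algebra.adjoin_induction with
    | mem x hx =>
      obtain ⟨i, rfl⟩ := hx
      exact (hπ0 _).2 (hDF i)
    | algebraMap r => rw [D.map_algebraMap, map_zero]
    | add x y _ _ hx hy => rw [map_add, map_add, hx, hy, add_zero]
    | mul x y _ _ hx hy =>
      rw [Derivation.leibniz, smul_eq_mul, smul_eq_mul, map_add, map_mul, map_mul, hx, hy,
        mul_zero, mul_zero, add_zero]
  -- conclusion
  let R := Algebra.adjoin K (Set.range F)
  have hkill' : ∀ u ∈ R.map π, D' u = 0 := by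
    rintro _ ⟨Q, hQ, rfl⟩
    exact (hD' Q).trans (hkill Q hQ)
  apply hv0
  funext a
  have hint : IsIntegral (R.map π) (π (X a)) := by
    have h1 : IsIntegral R (X a : MvPolynomial (Fin 3) K) := trans_isIntegral hF (X a)
    let φ : R →+* (R.map π) :=
      { toFun := fun r => ⟨π r, ⟨r, r.2, rfl⟩⟩
        map_one' := Subtype.ext (map_one π)
        map_mul' := fun r s => Subtype.ext (map_mul π _ _)
        map_zero' := Subtype.ext (map_zero π)
        map_add' := fun r s => Subtype.ext (map_add π _ _) }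
    exact h1.map_of_comp_eq φ π.toRingHom (RingHom.ext fun r => rfl)
  obtain ⟨Q, hQ, h0⟩ := hint
  have h1 := derivation_algebraic (R.map π) D' hkill' (π (X a)) Q.natDegree Q hQ.ne_zero le_rfl h0
  rw [hD'] at h1
  have h2 : D (X a) = P a := by
    rw [hDap]
    simp [pderiv_X, Pi.single_apply]
  rw [h2, hP] at h1
  exact h1

end Pool.Agent.Helper63.TS2
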