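import Pool.Agent.Helper63.TS.Main
import Pool.Agent.Helper63.TS2.LocalC
import Pool.Agent.Helper63.TS2.Trans2
import Pool.Agent.Helper63.TS2.Exist3
import Pool.Agent.Helper63.TS2.SupNull
import Pool.Agent.Helper63.TS2.SupForm

/-!
# Maps with finitely many superattracting periodic points
-/

set_option autoImplicit false

namespace Pool.Agent.Helper63.TS2

open MvPolynomial
open Pool.Agent.Helper16 (Place IsFunctionField)
open Pool.Agent.Helper36 (step iter iter_add iter_succ iter_zero)
open Pool.Agent.Helper30.TP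
open Pool.Agent.Helper63.TK
open Pool.Agent.Helper63.TS

variable {k K : Type} [Field k] [IsAlgClosed k] [CharZero k] [Field K] [Algebra k K] [Algebra K ℂ]

/-- If the map has only finitely many superattracting periodic points and if the critical curve is
met infinitely often, then it is met along an arithmetic progression. -/
theorem crit_progression2 (hK : IsFunctionField k K) {d : ℕ}
    {F : Fin 3 → MvPolynomial (Fin 3) K}
    (hF : IsEndo d fun i => map (algebraMap K ℂ) (F i)) {x : Fin 3 → K} (hx : x ≠ 0)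
    (hunb : ∀ B : ℤ, ∃ n, B < ht k (iter F x n))
    (hinf : {n | eval (iter F x n) (jf F) = 0}.Infinite) {T : Finset (Fin 3 → ℂ)}
    (hT : ∀ y : Fin 3 → ℂ, Superatt (fun i => map (algebraMap K ℂ) (F i)) y →
      ∃ t ∈ T, PEq y t) :
    ∃ n₀ N : ℕ, 0 < N ∧ ∀ a, eval (iter F x (n₀ + N * a)) (jf F) = 0 := by
  classical
  have hhom := fun i => homog_of_endo hF i
  by_cases hJ0 : jf F = 0
  · exact ⟨0, 1, one_pos, fun a => by rw [hJ0, map_zero]⟩
  obtain ⟨h, D, hh, hirr, hdvd, hinf1⟩ := exists_factor (iter F x) (jf_hom hhom) hJ0 hinf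
  have hx0 : ∀ n, iter F x n ≠ 0 := fun n => iter_ne_zeroK hF hx n
  have hdist := distinct_of_unbounded hK hF hx hunb
  -- transversality
  obtain ⟨j, hj⟩ := exists_rf_not_dvd2 hF hirr hdvd
  obtain ⟨e, Q, he, hQh, hQd, hQ0⟩ := exists_sup_form hF hT hirr
  have hprime : Prime h := hirr.prime
  have hPd : ¬ h ∣ rf F h j * Q := fun h1 => (hprime.dvd_or_dvd h1).elim hj hQd
  have hPh : (rf F h j * Q).IsHomogeneous (((D - 1) + 2 * (d - 1)) + e) :=
    (rf_hom hhom hh j).mul hQh
  have hfin := finite_common_zeros hh hPh hirr hPd (iter F x) hx0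
    (fun i i' hne => hdist i i' hne)
  obtain ⟨m₁, hm₁⟩ := hfin.bddAbove
  set m₂ := m₁ + 1 with hm₂
  have hPx : ∀ l, m₂ ≤ l → eval (iter F x l) h = 0 →
      eval (iter F x l) (rf F h j * Q) ≠ 0 := by
    intro l hl h1 h2
    have h3 : l ≤ m₁ := hm₁ ⟨h1, h2⟩
    omega
  have hinf2 : {l | m₂ ≤ l ∧ eval (iter F x l) h = 0}.Infinite := by
    have h1 : {l | m₂ ≤ l ∧ eval (iter F x l) h = 0} =
        {n | eval (iter F x n) h = 0} \ {n | n < m₂} := by
      ext l
      simp only [Set.mem_ofPred_eq, Set.mem_sdiff, not_lt]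
      exact and_comm
    rw [h1]
    exact hinf1.sdiff (Set.finite_lt_nat m₂)
  obtain ⟨i, n, b, f, z, g, pp, hbQ, hmi, hin, hih, -, hgood, hgh, hgP, hred, hper, hcl1,
    hcl2⟩ := exists_place3 hK hF hx hunb hh hirr hinf2 hPh hPx (Good2_fin hK Q)
  have hfh : ∀ i, (f i).IsHomogeneous d := hgood.endo.hom
  have hd1 : 1 ≤ d := by
    have := hF.two_le
    omega
  obtain ⟨N, rfl⟩ := Nat.exists_eq_add_of_lt hin
  have hN : 0 < N + 1 := Nat.succ_pos N
  rw [add_assoc] at hper hcl1 hcl2
  have hreds : ∀ l, Red b (iter F x l) (iter f z l) := fun l => hgood.iter hhom hred l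
  have hval : ∀ {P : MvPolynomial (Fin 3) K} {p : MvPolynomial (Fin 3) k} {t : ℕ},
      P.IsHomogeneous t → RedP b P p → ∀ l, eval (iter F x l) P = 0 → eval (iter f z l) p = 0 := by
    intro P p t hP hPp l hl
    obtain ⟨-, c, -, hc⟩ := hreds l
    have h1 := hPp.eval (u := c • iter F x l) (z := iter f z l) hc
    rw [eval_smul_hom hP, hl, mul_zero, zero_sub, Valuation.map_neg] at h1
    by_contra h2
    rw [Star_val_unit b h2] at h1
    exact lt_irrefl _ h1
  have hinf3 : {l | i ≤ l ∧ eval (iter F x l) h = 0}.Infinite := by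
    have h1 : {l | i ≤ l ∧ eval (iter F x l) h = 0} =
        {n | eval (iter F x n) h = 0} \ {n | n < i} := by
      ext l
      simp only [Set.mem_ofPred_eq, Set.mem_sdiff, not_lt]
      exact and_comm
    rw [h1]
    exact hinf1.sdiff (Set.finite_lt_nat i)
  obtain ⟨c, hic, hcN, hcinf⟩ := exists_class (p := fun l => eval (iter F x l) h = 0) hN hinf3
  have hcyc : ∀ a, PEq (iter f z c) (iter f z (c + (N + 1) * a)) := peq_cycle hfh hic hper
  set w := iter f z c with hw
  have hw0 : w ≠ 0 := (hreds c).1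
  have hgw : eval w g = 0 := by
    obtain ⟨a, ha⟩ := hcinf.nonempty
    have h1 : eval (iter f z (c + (N + 1) * a)) g = 0 := hval hh hgh _ ha
    have hghom : g.IsHomogeneous D := by
      intro mm hmm
      by_contra hne
      apply hmm
      have h2 := hgh mm
      have h3 : h.coeff mm = 0 := by
        by_contra h4
        exact hne (hh h4)
      rw [h3, zero_sub, Valuation.map_neg] at h2
      by_contra h5
      rw [Star_val_unit b h5] at h2
      exact lt_irrefl _ h2
    obtain ⟨s, hs, h2⟩ := hcyc a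
    rw [h2, eval_smul_hom hghom] at h1
    exact (mul_eq_zero.1 h1).resolve_left (pow_ne_zero _ hs)
  have hch : eval (iter F x c) h = 0 := by
    by_contra h1
    exact hcl1 c (by omega) (by omega) h1 hgw
  have hPw : eval w pp ≠ 0 := hcl2 c (by omega) (by omega) hch
  have hJw : eval w (jf f) = 0 := by
    refine hval (jf_hom hhom) (redP_jf hgood.red) c ?_
    obtain ⟨q, hq⟩ := hdvd
    rw [hq, map_mul, hch, zero_mul]
  -- the two factors
  obtain ⟨γ, hγ, hγw⟩ : ∃ γ : k, γ ≠ 0 ∧ iter f w (N + 1) = γ • w := by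
    obtain ⟨s, hs, h1⟩ := hcyc 1
    refine ⟨s, hs, ?_⟩
    rw [hw, ← iter_add, ← hw]
    rw [mul_one] at h1
    rw [add_comm (N + 1) c]
    exact h1
  have hRw : eval w (rf f g j) ≠ 0 ∧ ∃ q, RedP b Q q ∧ eval w q ≠ 0 := by
    have hint : ∀ m, b.val (Q.coeff m) ≤ 1 := by
      by_contra h1
      exact hbQ h1
    obtain ⟨q, hq, -⟩ := redP_exists hK b hQh hint
    have h1 : pp = rf f g j * q := hgP.unique ((redP_rf hgood.red hgh j).mul hq)
    rw [h1, map_mul] at hPw
    exact ⟨left_ne_zero_of_mul hPw, q, hq, right_ne_zero_of_mul hPw⟩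
  obtain ⟨hRw, q₀, hq₀, hq₀w⟩ := hRw
  have hstar : ∃ N' : ℕ, 0 < N' ∧ h ∣ (cmp F)^[N'] h := by
    by_cases htr : (mult f w (N + 1)).adjugate.trace = 0
    · obtain ⟨s₀, hs₀⟩ := sup_null hF he hQh hQ0 hN
      refine ⟨N + 1, hN, ?_⟩
      refine local_C hK hd1 hhom hh hirr hdvd hgood hgh hN hs₀ hq₀
        (y := fun a => iter F x (c + (N + 1) * a)) ?_ ?_ (w := w) ?_ hγ hγw hJw htr hRw hq₀w hcinf
      · intro a
        show iter F x _ = iter F (iter F x _) _
        rw [← iter_add]
        congr 1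
        ring
      · intro a a' hne
        apply hdist
        intro h1
        apply hne
        have h2 : (N + 1) * a = (N + 1) * a' := by omega
        exact Nat.eq_of_mul_eq_mul_left hN h2
      · intro a
        exact red_peq (hreds _) (hcyc _).symm
    · obtain ⟨q, γ', hq, hγ', hper', htr', hμ⟩ := exists_period hd1 hfh hN hγ hγw hJw htr
      obtain ⟨e, μ, α, he0, hdet, hμ0, hμtr, he1, he2, hgt⟩ :=
        normal_form hd1 hfh hw0 (Nat.mul_pos hN hq) hγ' hper' hJw htr' hRw
      obtain ⟨r, -, -, hrinf⟩ := exists_class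
        (p := fun a => eval (iter F x (c + (N + 1) * a)) h = 0) (i := 0) hq (by simpa using hcinf)
      refine ⟨(N + 1) * q, Nat.mul_pos hN hq, ?_⟩
      rw [← he0] at hper' he1 he2 hgt
      refine local_K hK hhom hh hirr hgood hgh
        (y := fun a => iter F x (c + (N + 1) * (r + q * a))) ?_ ?_ ?_ hdet hγ' hper' hμ0
        (hμ μ hμtr) he1 he2 hgt hrinf
      · intro a
        show iter F x _ = iter F (iter F x _) _
        rw [← iter_add]
        congr 1
        ring
      · intro a a' hne
        apply hdist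
        intro h1
        apply hne
        have h2 : (N + 1) * (r + q * a) = (N + 1) * (r + q * a') := by omega
        have h3 := Nat.eq_of_mul_eq_mul_left hN h2
        have h4 : q * a = q * a' := by omega
        exact Nat.eq_of_mul_eq_mul_left hq h4
      · intro a
        rw [he0]
        exact red_peq (hreds _) (hcyc _).symm
  -- the progression
  obtain ⟨N', hN', hstar⟩ := hstar
  refine ⟨c, N', hN', fun a => ?_⟩
  have hall : eval (iter F x (c + N' * a)) h = 0 := by
    induction a with
    | zero => simpa using hch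
    | succ a ih =>
      obtain ⟨Q', hQ'⟩ := hstar
      have h1 := congrArg (eval (iter F x (c + N' * a))) hQ'
      rw [map_mul, ih, zero_mul, eval_cmp_iter, ← iter_add] at h1
      rw [show c + N' * (a + 1) = N' + (c + N' * a) by ring]
      exact h1
  obtain ⟨q', hq'⟩ := hdvd
  rw [hq', map_mul, hall, zero_mul]

end Pool.Agent.Helper63.TS2
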