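import Pool.Agent.Helper63.TS2.SlowA

/-!
# Slowly convergent orbits which meet a transversal curve infinitely often
-/

set_option autoImplicit false

namespace Pool.Agent.Helper63.TS2

open MvPolynomial
open Pool.Agent.Helper63.TS

variable {S : Type} [CommRing S] [IsDomain S]

omit [IsDomain S] in
/-- the value of one element is bounded by the values of two others -/
theorem slow_val_le {π : S} {v : Valuation (FractionRing S) (WithZero (Multiplicative ℤ))}
    (hv : ∀ (r : S) (n : ℕ), π ^ n ∣ r ↔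
      v (algebraMap S (FractionRing S) r) ≤ WithZero.exp (-(n : ℤ)))
    {x y z : S} (h : ∀ I : ℕ, π ^ I ∣ x → π ^ I ∣ y → π ^ I ∣ z) :
    v (algebraMap S (FractionRing S) z) ≤
      max (v (algebraMap S (FractionRing S) x)) (v (algebraMap S (FractionRing S) y)) := by
  have h1 : ∀ r : S, v (algebraMap S (FractionRing S) r) ≤ 1 := by
    intro r
    have := (hv r 0).1 (by rw [pow_zero]; exact one_dvd _)
    simpa using this
  set M := max (v (algebraMap S (FractionRing S) x)) (v (algebraMap S (FractionRing S) y)) with hM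
  have hx : v (algebraMap S (FractionRing S) x) ≤ M := le_max_left _ _
  have hy : v (algebraMap S (FractionRing S) y) ≤ M := le_max_right _ _
  have hM1 : M ≤ 1 := max_le (h1 x) (h1 y)
  by_cases hM0 : M = 0
  · rw [hM0]
    by_contra hcon
    rw [not_le] at hcon
    have hne : v (algebraMap S (FractionRing S) z) ≠ 0 := hcon.ne'
    -- a nonzero value is not smaller than all powers
    obtain ⟨m, hm⟩ : ∃ m : ℤ, v (algebraMap S (FractionRing S) z) = WithZero.exp m :=
      ⟨WithZero.log (v (algebraMap S (FractionRing S) z)), (WithZero.exp_log hne).symm⟩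
    have hI := h (m.natAbs + 1) ((hv x _).2 (by rw [hM0] at hx; exact hx.trans zero_le'))
      ((hv y _).2 (by rw [hM0] at hy; exact hy.trans zero_le'))
    have h2 := (hv z _).1 hI
    rw [hm, WithZero.exp_le_exp] at h2
    push_cast at h2
    have h3 : -(|m| : ℤ) ≤ m := neg_abs_le m
    omega
  · obtain ⟨m, hm⟩ : ∃ m : ℤ, M = WithZero.exp m := ⟨WithZero.log M, (WithZero.exp_log hM0).symm⟩
    have hm0 : m ≤ 0 := by
      rw [hm, ← WithZero.exp_zero, WithZero.exp_le_exp] at hM1
      exact hM1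
    obtain ⟨n, hn⟩ : ∃ n : ℕ, m = -(n : ℤ) := ⟨m.natAbs, by omega⟩
    rw [hm, hn] at hx hy ⊢
    exact (hv z n).1 (h n ((hv x n).2 hx) ((hv y n).2 hy))

theorem slow_case {π : S} (hπ : Unif π) {A : Fin 3 → MvPolynomial (Fin 2) S}
    (hA0 : ¬ π ∣ (A 0).coeff 0) {p : ℕ → Fin 2 → S}
    (hp : Orb π A p) (hinj : Function.Injective p) {o : Fin 2 → S} (hlim : Tends π p o)
    (hdet : tM A o 0 0 * tM A o 1 1 - tM A o 0 1 * tM A o 1 0 = 0)
    (htr0 : tM A o 0 0 + tM A o 1 1 ≠ 0) (htr : π ∣ tM A o 0 0 + tM A o 1 1)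
    {H : MvPolynomial (Fin 2) S} {ε : Fin 2 → S} (hε : ∀ i, ∑ j, tM A o i j * ε j = 0)
    (hH : ¬ π ∣ ∑ j, eval o (pderiv j H) * ε j) (hinf : {j | eval (p j) H = 0}.Infinite)
    (ρ₁ ρ₂ : Polynomial S)
    (hρ : ∀ I j, π ^ I ∣ eval (p j) H → π ^ I ∣ eval (p (j + 1)) H →
      π ^ I ∣ ρ₁.eval (p j 0) ∧ π ^ I ∣ ρ₂.eval (p j 1)) : ρ₁ = 0 ∨ ρ₂ = 0 := by
  classical
  obtain ⟨v, hv, -⟩ := exists_val hπ
  obtain ⟨J, a, g, β, β₀, b, n₁, n₂, lam, E, hs, hE, hpar⟩ :=
    slow_regime hπ hv hA0 hp hinj hlim hdet htr0 htr hε hH hinf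
  -- the curve in the coordinates `(a, g)`
  let PH : MvPolynomial (Fin 2) (FractionRing S) :=
    aeval (fun i => C (algebraMap S (FractionRing S) (o i)) +
      X 0 * (C (E i) + X 1 * C (algebraMap S (FractionRing S) (ε i))))
      (map (algebraMap S (FractionRing S)) H)
  have hPH : ∀ t, eval ![a t, g t] PH = algebraMap S (FractionRing S) (eval (p (J + t)) H) := by
    intro t
    have h1 : eval ![a t, g t] PH = eval (fun i => algebraMap S (FractionRing S) (p (J + t) i))
        (map (algebraMap S (FractionRing S)) H) := by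
      have h2 : (fun i => algebraMap S (FractionRing S) (p (J + t) i)) =
          fun i => eval ![a t, g t] (C (algebraMap S (FractionRing S) (o i)) +
            X 0 * (C (E i) + X 1 * C (algebraMap S (FractionRing S) (ε i)))) := by
        funext i
        rw [hpar t i]
        simp
      rw [h2]
      exact eval₂Hom_bind₁ (RingHom.id _) ![a t, g t] _ _
    rw [h1, eval_map]
    rw [show (fun i => algebraMap S (FractionRing S) (p (J + t) i)) =
      (algebraMap S (FractionRing S)) ∘ p (J + t) from rfl, ← eval₂_comp]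
  have hinf' : {t | eval ![a t, g t] PH = 0}.Infinite := by
    intro hfin
    apply hinf
    refine ((Set.finite_lt_nat J).union (hfin.image fun t => J + t)).subset ?_
    intro j hj
    by_cases hjJ : j < J
    · exact Or.inl hjJ
    · refine Or.inr ⟨j - J, ?_, by simp; omega⟩
      have h1 : J + (j - J) = j := by omega
      have hj' : eval (p j) H = 0 := hj
      change eval ![a (j - J), g (j - J)] PH = 0
      rw [hPH, h1, hj', map_zero]
  -- the values at the points of the orbit
  have hz : ∀ I : ℕ, ∃ (c : WithZero (Multiplicative ℤ)) (T : ℕ), ∀ t, T ≤ t →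
      v (algebraMap S (FractionRing S) (eval (p (J + t)) H)) ≤ c * v (a t) ^ I := by
    intro I
    obtain ⟨c, T, hT⟩ := slow_zero hs hinf' I
    exact ⟨c, T, fun t ht => by rw [← hPH]; exact hT t ht⟩
  have hz2 : ∀ (z : ℕ → S), (∀ I j, π ^ I ∣ eval (p j) H → π ^ I ∣ eval (p (j + 1)) H →
      π ^ I ∣ z j) → ∀ I : ℕ, ∃ (c : WithZero (Multiplicative ℤ)) (T : ℕ), ∀ t, T ≤ t →
      v (algebraMap S (FractionRing S) (z (J + t))) ≤ c * v (a t) ^ I := by
    intro z hz' I
    obtain ⟨c, T, hT⟩ := hz I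
    refine ⟨c, T, fun t ht => ?_⟩
    refine (slow_val_le hv (x := eval (p (J + t)) H) (y := eval (p (J + t + 1)) H)
      (z := z (J + t)) fun I => hz' I (J + t)).trans (max_le (hT t ht) ?_)
    have h1 := hT (t + 1) (by omega)
    rw [show J + (t + 1) = J + t + 1 by omega] at h1
    refine h1.trans ?_
    gcongr
    rw [hs.val_a t]
    exact mul_le_of_le_one_left' hs.lam1.le
  have key : ∀ (i : Fin 2) (ρ : Polynomial S), E i ≠ 0 →
      (∀ I j, π ^ I ∣ eval (p j) H → π ^ I ∣ eval (p (j + 1)) H → π ^ I ∣ ρ.eval (p j i)) →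
      ρ = 0 := by
    intro i ρ hEi hρi
    have h1 : ρ.map (algebraMap S (FractionRing S)) = 0 := by
      refine slow_univ hs (ρ := ρ.map (algebraMap S (FractionRing S)))
        (o := algebraMap S (FractionRing S) (o i)) (E := E i)
        (e := algebraMap S (FractionRing S) (ε i)) hEi fun I => ?_
      obtain ⟨c, T, hT⟩ := hz2 (fun j => ρ.eval (p j i)) hρi I
      refine ⟨c, T, fun t ht => ?_⟩
      rw [← hpar t i, Polynomial.eval_map, Polynomial.eval₂_at_apply]
      exact hT t ht
    exact (Polynomial.map_eq_zero_iff (IsFractionRing.injective S (FractionRing S))).1 h1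
  by_cases hE0 : E 0 = 0
  · right
    have hE1 : E 1 ≠ 0 := by
      intro h
      apply hE
      funext i
      fin_cases i
      · exact hE0
      · exact h
    exact key 1 ρ₂ hE1 fun I j h1 h2 => (hρ I j h1 h2).2
  · left
    exact key 0 ρ₁ hE0 fun I j h1 h2 => (hρ I j h1 h2).1

end Pool.Agent.Helper63.TS2
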