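import Pool.Agent.Helper63.TS2.Defs

/-!
# The valuation of the fraction field
-/

set_option autoImplicit false

namespace Pool.Agent.Helper63.TS2

open Pool.Agent.Helper63.TS

theorem exists_val {R : Type} [CommRing R] [IsDomain R] {π : R} (hπ : Unif π) :
    ∃ v : Valuation (FractionRing R) (WithZero (Multiplicative ℤ)),
      (∀ (r : R) (n : ℕ), π ^ n ∣ r ↔
        v (algebraMap R (FractionRing R) r) ≤ WithZero.exp (-(n : ℤ))) ∧
      ∀ x : FractionRing R, v x ≤ 1 → ∃ r : R, algebraMap R (FractionRing R) r = x := by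
  have hdvr : IsDiscreteValuationRing R := by
    apply IsDiscreteValuationRing.ofHasUnitMulPowIrreducibleFactorization
    refine ⟨π, hπ.prime.irreducible, fun {x} hx => ?_⟩
    obtain ⟨e, u, hu, rfl⟩ := hπ.fact x hx
    obtain ⟨w, hw⟩ := hπ.unit u hu
    exact ⟨e, w, by rw [hw]⟩
  have hm : (IsDiscreteValuationRing.maximalIdeal R).asIdeal = Ideal.span {π} :=
    (IsDiscreteValuationRing.irreducible_iff_uniformizer π).1 hπ.prime.irreducible
  refine ⟨(IsDiscreteValuationRing.maximalIdeal R).valuation (FractionRing R),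
    fun r n => ?_, fun x hx => IsDiscreteValuationRing.exists_lift_of_le_one hx⟩
  rw [(IsDiscreteValuationRing.maximalIdeal R).valuation_of_algebraMap,
    (IsDiscreteValuationRing.maximalIdeal R).intValuation_le_pow_iff_dvd, hm,
    Ideal.span_singleton_pow, Ideal.dvd_span_singleton, Ideal.mem_span_singleton]

end Pool.Agent.Helper63.TS2
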