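import Pool.Agent.Helper63.TS2.SlowB
import Pool.Agent.Helper63.TS2.ValF
import Pool.Agent.Helper63.TS2.Conv

/-!
# The slow regime
-/

set_option autoImplicit false

namespace Pool.Agent.Helper63.TS2

open MvPolynomial
open Pool.Agent.Helper63.TS

/-- expansion of second order along a direction -/
theorem SlowA_taylor {S L : Type} [CommRing S] [CommRing L] [Algebra S L]
    (P : MvPolynomial (Fin 2) S) (o : Fin 2 → S) :
    ∃ R : MvPolynomial (Fin 3) S, ∀ (a : L) (w : Fin 2 → L),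
      aeval (fun i => algebraMap S L (o i) + a * w i) P =
        algebraMap S L (eval o P) + a * (algebraMap S L (eval o (pderiv 0 P)) * w 0 +
          algebraMap S L (eval o (pderiv 1 P)) * w 1) + a ^ 2 * aeval ![a, w 0, w 1] R := by
  induction P using MvPolynomial.induction_on with
  | C r =>
    refine ⟨0, fun a w => ?_⟩
    simp only [aeval_C, eval_C, pderiv_C, map_zero, zero_mul, add_zero, mul_zero]
  | add P Q hP hQ =>
    obtain ⟨R, hR⟩ := hP
    obtain ⟨R', hR'⟩ := hQ
    refine ⟨R + R', fun a w => ?_⟩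
    rw [map_add, hR, hR']
    simp only [map_add]
    ring
  | mul_X P k hP =>
    obtain ⟨R, hR⟩ := hP
    refine ⟨(C (eval o (pderiv 0 P)) * X 1 + C (eval o (pderiv 1 P)) * X 2) * X k.succ +
      R * C (o k) + X 0 * R * X k.succ, fun a w => ?_⟩
    have h0 : (![a, w 0, w 1] : Fin 3 → L) 0 = a := rfl
    have h1 : (![a, w 0, w 1] : Fin 3 → L) 1 = w 0 := rfl
    have h2 : (![a, w 0, w 1] : Fin 3 → L) 2 = w 1 := rfl
    have hk : (![a, w 0, w 1] : Fin 3 → L) k.succ = w k := by
      fin_cases k <;> rfl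
    have hd : ∀ i : Fin 2, eval o (pderiv i (P * X k)) =
        eval o P * (if k = i then 1 else 0) + o k * eval o (pderiv i P) := by
      intro i
      rw [Derivation.leibniz, pderiv_X, smul_eq_mul, smul_eq_mul, map_add, map_mul, map_mul,
        eval_X]
      congr 2
      rw [Pi.single_apply]
      by_cases h : k = i
      · simp [h]
      · simp [h]
    rw [map_mul, hR, aeval_X, hd, hd]
    simp only [map_mul, map_add, eval_X, aeval_C, aeval_X, h0, h1, h2, hk]
    fin_cases k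
    · simp
      ring
    · simp
      ring

/-- the polynomials in `a, g` -/
theorem SlowA_sub {S L : Type} [CommRing S] [CommRing L] [Algebra S L]
    (R : MvPolynomial (Fin 3) S) (E e : Fin 2 → L) :
    ∃ Q : MvPolynomial (Fin 2) L, ∀ a g : L,
      eval ![a, g] Q = aeval ![a, E 0 + g * e 0, E 1 + g * e 1] R := by
  induction R using MvPolynomial.induction_on with
  | C r => exact ⟨C (algebraMap S L r), fun a g => by rw [eval_C, aeval_C]⟩
  | add P Q hP hQ =>
    obtain ⟨P', hP'⟩ := hP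
    obtain ⟨Q', hQ'⟩ := hQ
    exact ⟨P' + Q', fun a g => by rw [map_add, map_add, hP', hQ']⟩
  | mul_X P k hP =>
    obtain ⟨P', hP'⟩ := hP
    refine ⟨P' * (![X 0, C (E 0) + X 1 * C (e 0), C (E 1) + X 1 * C (e 1)] :
      Fin 3 → MvPolynomial (Fin 2) L) k, fun a g => ?_⟩
    rw [map_mul, map_mul, hP', aeval_X]
    congr 1
    fin_cases k
    · show eval ![a, g] (X 0) = a
      rw [eval_X]
      rfl
    · show eval ![a, g] (C (E 0) + X 1 * C (e 0)) = E 0 + g * e 0
      rw [map_add, map_mul, eval_C, eval_C, eval_X]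
      rfl
    · show eval ![a, g] (C (E 1) + X 1 * C (e 1)) = E 1 + g * e 1
      rw [map_add, map_mul, eval_C, eval_C, eval_X]
      rfl

theorem SlowA_le {S L : Type} [CommRing S] [Field L] [Algebra S L]
    {v : Valuation L (WithZero (Multiplicative ℤ))} (hv1 : ∀ r : S, v (algebraMap S L r) ≤ 1)
    (R : MvPolynomial (Fin 3) S) (f : Fin 3 → L) (hf : ∀ i, v (f i) ≤ 1) :
    v (aeval f R) ≤ 1 := by
  induction R using MvPolynomial.induction_on with
  | C r =>
    rw [aeval_C]
    exact hv1 r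
  | add P Q hP hQ =>
    rw [map_add]
    exact v.map_add_le hP hQ
  | mul_X P k hP =>
    rw [map_mul, aeval_X, map_mul]
    exact mul_le_one' hP (hf k)

theorem SlowA_exists_exp {x : WithZero (Multiplicative ℤ)} (hx : x ≠ 0) :
    ∃ M : ℕ, WithZero.exp (-(M : ℤ)) < x := by
  refine ⟨(-WithZero.log x).toNat + 1, ?_⟩
  rw [← WithZero.exp_log hx, WithZero.exp_lt_exp]
  push_cast
  have h1 := Int.self_le_toNat (-WithZero.log x)
  rw [WithZero.log_exp]
  omega

/-- The linear algebra: `E = T e`, `T E = τ E`, and the decomposition with respect to `E, ε`. -/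
theorem SlowA_lin {L : Type} [Field L] (t : Fin 2 → Fin 2 → L) (ε e : Fin 2 → L)
    (hε : ∀ i, t i 0 * ε 0 + t i 1 * ε 1 = 0)
    (hdet : t 0 0 * t 1 1 - t 0 1 * t 1 0 = 0)
    (hδ : e 0 * ε 1 - e 1 * ε 0 ≠ 0) :
    ∃ (ν : L), (∀ i, t i 0 * e 0 + t i 1 * e 1 = (t 0 0 + t 1 1) * e i + ν * ε i) ∧
      ν = (e 0 * (t 1 0 * e 0 + t 1 1 * e 1) - e 1 * (t 0 0 * e 0 + t 0 1 * e 1)) /
        (e 0 * ε 1 - e 1 * ε 0) ∧
      (∀ i, t i 0 * (t 0 0 * e 0 + t 0 1 * e 1) + t i 1 * (t 1 0 * e 0 + t 1 1 * e 1) =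
        (t 0 0 + t 1 1) * (t i 0 * e 0 + t i 1 * e 1)) := by
  refine ⟨_, ?_, rfl, ?_⟩
  · have h0 := hε 0
    have h1 := hε 1
    intro i
    rw [div_mul_eq_mul_div, ← sub_eq_iff_eq_add', eq_div_iff hδ]
    fin_cases i
    · show (t 0 0 * e 0 + t 0 1 * e 1 - (t 0 0 + t 1 1) * e 0) * (e 0 * ε 1 - e 1 * ε 0) =
        (e 0 * (t 1 0 * e 0 + t 1 1 * e 1) - e 1 * (t 0 0 * e 0 + t 0 1 * e 1)) * ε 0
      linear_combination (e 0 * e 1) * h0 - (e 0 * e 0) * h1
    · show (t 1 0 * e 0 + t 1 1 * e 1 - (t 0 0 + t 1 1) * e 1) * (e 0 * ε 1 - e 1 * ε 0) =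
        (e 0 * (t 1 0 * e 0 + t 1 1 * e 1) - e 1 * (t 0 0 * e 0 + t 0 1 * e 1)) * ε 1
      linear_combination (e 1 * e 1) * h0 - (e 0 * e 1) * h1
  · intro i
    fin_cases i
    · show t 0 0 * (t 0 0 * e 0 + t 0 1 * e 1) + t 0 1 * (t 1 0 * e 0 + t 1 1 * e 1) =
        (t 0 0 + t 1 1) * (t 0 0 * e 0 + t 0 1 * e 1)
      linear_combination (-e 0) * hdet
    · show t 1 0 * (t 0 0 * e 0 + t 0 1 * e 1) + t 1 1 * (t 1 0 * e 0 + t 1 1 * e 1) =
        (t 0 0 + t 1 1) * (t 1 0 * e 0 + t 1 1 * e 1)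
      linear_combination (-e 1) * hdet

theorem SlowA_coord {L : Type} [Field L] {v : Valuation L (WithZero (Multiplicative ℤ))}
    {e ε E : Fin 2 → L} {τ ν : L} (he : ∀ i, v (e i) ≤ 1) (hε : ∀ i, v (ε i) ≤ 1)
    (hδ : v (e 0 * ε 1 - e 1 * ε 0) = 1) (hτ : τ ≠ 0) (hτ1 : v τ ≤ 1) (hν : v ν ≤ 1)
    (hE : ∀ i, E i = τ * e i + ν * ε i) :
    ∃ x y : Fin 2 → L,
      (∀ (u : Fin 2 → L) (i : Fin 2),
        u i = (x 0 * u 0 + x 1 * u 1) * E i + (y 0 * u 0 + y 1 * u 1) * ε i) ∧
      x 0 * E 0 + x 1 * E 1 = 1 ∧ y 0 * E 0 + y 1 * E 1 = 0 ∧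
      (∀ i, v (x i) * v τ ≤ 1) ∧ ∀ i, v (y i) * v τ ≤ 1 := by
  have hδ0 : e 0 * ε 1 - e 1 * ε 0 ≠ 0 := by
    intro h
    rw [h, map_zero] at hδ
    exact zero_ne_one hδ
  generalize hd : e 0 * ε 1 - e 1 * ε 0 = d at hδ hδ0
  have key : ∀ z : L, v z ≤ 1 → v (z / (d * τ)) * v τ ≤ 1 := by
    intro z hz
    rw [← map_mul, div_mul_eq_mul_div, mul_div_mul_right _ _ hτ, map_div₀, hδ, div_one]
    exact hz
  have key2 : ∀ z z' : L, v z ≤ 1 → v z' ≤ 1 → v (z / d - ν * (z' / (d * τ))) * v τ ≤ 1 := by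
    intro z z' hz hz'
    have h1 : (z / d - ν * (z' / (d * τ))) * τ = (z * τ - ν * z') / d := by
      field_simp
    rw [← map_mul, h1, map_div₀, hδ, div_one]
    refine (v.map_sub _ _).trans (max_le ?_ ?_)
    · rw [map_mul]
      exact mul_le_one' hz hτ1
    · rw [map_mul]
      exact mul_le_one' hν hz'
  refine ⟨![ε 1 / (d * τ), -ε 0 / (d * τ)],
    ![-e 1 / d - ν * (ε 1 / (d * τ)), e 0 / d - ν * (-ε 0 / (d * τ))], ?_, ?_, ?_, ?_, ?_⟩
  · intro u i
    show u i = (ε 1 / (d * τ) * u 0 + -ε 0 / (d * τ) * u 1) * E i +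
      ((-e 1 / d - ν * (ε 1 / (d * τ))) * u 0 + (e 0 / d - ν * (-ε 0 / (d * τ))) * u 1) * ε i
    rw [hE i]
    have h1 : (ε 1 / (d * τ) * u 0 + -ε 0 / (d * τ) * u 1) * (τ * e i + ν * ε i) +
      ((-e 1 / d - ν * (ε 1 / (d * τ))) * u 0 + (e 0 / d - ν * (-ε 0 / (d * τ))) * u 1) * ε i =
      ((ε 1 * u 0 - ε 0 * u 1) * e i + (e 0 * u 1 - e 1 * u 0) * ε i) / d := by
      field_simp
      ring
    rw [h1, eq_div_iff hδ0, ← hd]
    fin_cases i
    · show u 0 * (e 0 * ε 1 - e 1 * ε 0) =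
        (ε 1 * u 0 - ε 0 * u 1) * e 0 + (e 0 * u 1 - e 1 * u 0) * ε 0
      ring
    · show u 1 * (e 0 * ε 1 - e 1 * ε 0) =
        (ε 1 * u 0 - ε 0 * u 1) * e 1 + (e 0 * u 1 - e 1 * u 0) * ε 1
      ring
  · show ε 1 / (d * τ) * E 0 + -ε 0 / (d * τ) * E 1 = 1
    rw [hE, hE]
    have h1 : ε 1 / (d * τ) * (τ * e 0 + ν * ε 0) + -ε 0 / (d * τ) * (τ * e 1 + ν * ε 1) =
      (e 0 * ε 1 - e 1 * ε 0) / d := by
      field_simp
      ring
    rw [h1, hd, div_self hδ0]
  · show (-e 1 / d - ν * (ε 1 / (d * τ))) * E 0 + (e 0 / d - ν * (-ε 0 / (d * τ))) * E 1 = 0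
    rw [hE, hE]
    have h1 : (-e 1 / d - ν * (ε 1 / (d * τ))) * (τ * e 0 + ν * ε 0) +
      (e 0 / d - ν * (-ε 0 / (d * τ))) * (τ * e 1 + ν * ε 1) =
      ν * (e 0 * ε 1 - e 1 * ε 0) / d - ν * (e 0 * ε 1 - e 1 * ε 0) / d := by
      field_simp
      ring
    rw [h1, sub_self]
  · intro i
    fin_cases i
    · exact key _ (hε 1)
    · exact key _ (by rw [Valuation.map_neg]; exact hε 0)
  · intro i
    fin_cases i
    · exact key2 _ _ (by rw [Valuation.map_neg]; exact he 1) (hε 1)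
    · exact key2 _ _ (he 0) (by rw [Valuation.map_neg]; exact hε 0)

/-- the expansions of the map at the fixed point -/
theorem SlowA_expand {S L : Type} [CommRing S] [CommRing L] [Algebra S L]
    (A : Fin 3 → MvPolynomial (Fin 2) S) (o : Fin 2 → S)
    (hfix : ∀ i : Fin 2, o i * eval o (A 0) = eval o (A i.succ)) :
    ∃ (B : MvPolynomial (Fin 3) S) (V : Fin 2 → MvPolynomial (Fin 3) S),
      ∀ (a : L) (w : Fin 2 → L),
      aeval (fun i => algebraMap S L (o i) + a * w i) (A 0) =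
        algebraMap S L (eval o (A 0)) + a * aeval ![a, w 0, w 1] B ∧
      ∀ i : Fin 2, aeval (fun i => algebraMap S L (o i) + a * w i) (A i.succ) -
        algebraMap S L (o i) * aeval (fun i => algebraMap S L (o i) + a * w i) (A 0) =
        a * (algebraMap S L (tM A o i 0) * w 0 + algebraMap S L (tM A o i 1) * w 1) +
          a ^ 2 * aeval ![a, w 0, w 1] (V i) := by
  choose R hR using fun k => SlowA_taylor (L := L) (A k) o
  refine ⟨C (eval o (pderiv 0 (A 0))) * X 1 + C (eval o (pderiv 1 (A 0))) * X 2 + X 0 * R 0,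
    fun i => R i.succ - C (o i) * R 0, fun a w => ⟨?_, fun i => ?_⟩⟩
  · have h0 : (![a, w 0, w 1] : Fin 3 → L) 0 = a := rfl
    have h1 : (![a, w 0, w 1] : Fin 3 → L) 1 = w 0 := rfl
    have h2 : (![a, w 0, w 1] : Fin 3 → L) 2 = w 1 := rfl
    rw [hR]
    simp only [map_mul, map_add, aeval_C, aeval_X, h0, h1, h2]
    ring
  · rw [hR, hR]
    have hf := congrArg (algebraMap S L) (hfix i)
    rw [map_mul] at hf
    simp only [tM, map_mul, map_sub, aeval_C]
    linear_combination -hf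

theorem SlowA_core {S L : Type} [CommRing S] [Field L] [Algebra S L]
    {v : Valuation L (WithZero (Multiplicative ℤ))}
    (hv1 : ∀ r : S, v (algebraMap S L r) ≤ 1)
    {A : Fin 3 → MvPolynomial (Fin 2) S} {p : ℕ → Fin 2 → S} {o : Fin 2 → S}
    (hfix : ∀ i : Fin 2, o i * eval o (A 0) = eval o (A i.succ))
    (hstep : ∀ (j : ℕ) (i : Fin 2), p (j + 1) i * eval (p j) (A 0) = eval (p j) (A i.succ))
    (hα : ∀ j, v (algebraMap S L (eval (p j) (A 0))) = 1)
    (hα0 : v (algebraMap S L (eval o (A 0))) = 1)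
    {τ : L} (hτ : τ ≠ 0) (hτ1 : v τ < 1) {E ε x y : Fin 2 → L}
    (hE1 : ∀ i, v (E i) ≤ 1) (hε1 : ∀ i, v (ε i) ≤ 1)
    (hTE : ∀ i : Fin 2, algebraMap S L (tM A o i 0) * E 0 +
      algebraMap S L (tM A o i 1) * E 1 = τ * E i)
    (hTε : ∀ i : Fin 2, algebraMap S L (tM A o i 0) * ε 0 +
      algebraMap S L (tM A o i 1) * ε 1 = 0)
    (hxy : ∀ (u : Fin 2 → L) (i : Fin 2),
      u i = (x 0 * u 0 + x 1 * u 1) * E i + (y 0 * u 0 + y 1 * u 1) * ε i)
    (hxE : x 0 * E 0 + x 1 * E 1 = 1) (hyE : y 0 * E 0 + y 1 * E 1 = 0)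
    (hx : ∀ i, v (x i) * v τ ≤ 1) (hy : ∀ i, v (y i) * v τ ≤ 1)
    {J : ℕ} {a w : ℕ → L}
    (ha : ∀ t, a t = x 0 * algebraMap S L (p (J + t) 0 - o 0) +
      x 1 * algebraMap S L (p (J + t) 1 - o 1))
    (hw : ∀ t, w t = y 0 * algebraMap S L (p (J + t) 0 - o 0) +
      y 1 * algebraMap S L (p (J + t) 1 - o 1))
    (ha0 : a 0 ≠ 0) (haτ : v (a 0) < v τ ^ 2) (hwa : v (w 0) ≤ v (a 0)) :
    (∃ b n₁ n₂ : MvPolynomial (Fin 2) L, Slow v a (fun t => w t / a t) τ
      (algebraMap S L (eval o (A 0))) b n₁ n₂ (v τ)) ∧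
    ∀ t (i : Fin 2), algebraMap S L (p (J + t) i) = algebraMap S L (o i) +
        a t * (E i + w t / a t * ε i) := by
  have hvτ : v τ ≠ 0 := (v.ne_zero_iff).2 hτ
  have hvτ0 : 0 < v τ := zero_lt_iff.2 hvτ
  have hu : ∀ t, a t ≠ 0 → ∀ i : Fin 2, algebraMap S L (p (J + t) i) = algebraMap S L (o i) +
      a t * (E i + w t / a t * ε i) := by
    intro t ht i
    have h1 := hxy (fun i => algebraMap S L (p (J + t) i - o i)) i
    rw [← ha, ← hw, map_sub] at h1
    rw [mul_add, ← mul_assoc, mul_div_cancel₀ _ ht]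
    linear_combination h1
  obtain ⟨B, V, hBV⟩ := SlowA_expand (L := L) A o hfix
  obtain ⟨Q, hQ⟩ := SlowA_sub B E ε
  choose W hW using fun i => SlowA_sub (V i) E ε
  have hval : ∀ a' g' : L, v a' ≤ 1 → v g' ≤ 1 → ∀ P : MvPolynomial (Fin 3) S,
      v (aeval ![a', E 0 + g' * ε 0, E 1 + g' * ε 1] P) ≤ 1 := by
    intro a' g' h1 h2 P
    refine SlowA_le hv1 P _ ?_
    have h3 : ∀ i, v (E i + g' * ε i) ≤ 1 := fun i =>
      v.map_add_le (hE1 i) (by rw [map_mul]; exact mul_le_one' h2 (hε1 i))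
    intro i
    fin_cases i
    · exact h1
    · exact h3 0
    · exact h3 1
  have step : ∀ t, a t ≠ 0 → v (a t) < v τ ^ 2 → v (w t) ≤ v (a t) →
      v (w t / a t) ≤ 1 ∧
      v (a (t + 1)) = v τ * v (a t) ∧ v (w (t + 1)) ≤ v (a (t + 1)) ∧
      a (t + 1) * (algebraMap S L (eval o (A 0)) + a t * eval ![a t, w t / a t] Q) =
        a t * (τ + a t * eval ![a t, w t / a t] (C (x 0) * W 0 + C (x 1) * W 1)) ∧
      w (t + 1) / a (t + 1) *
        (τ + a t * eval ![a t, w t / a t] (C (x 0) * W 0 + C (x 1) * W 1)) =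
        a t * eval ![a t, w t / a t] (C (y 0) * W 0 + C (y 1) * W 1) := by
    intro t h0 h1 h2
    have hva : v (a t) ≠ 0 := (v.ne_zero_iff).2 h0
    have hg : v (w t / a t) ≤ 1 := by
      rw [map_div₀]
      exact div_le_one_of_le₀ h2 zero_le
    have hat : v (a t) ≤ 1 := h1.le.trans (pow_le_one' hτ1.le 2)
    have hp := hu t h0
    generalize w t / a t = g at hg hp ⊢
    obtain ⟨e1, e2⟩ := hBV (a t) (fun i => E i + g * ε i)
    have hfun : (fun i => algebraMap S L (o i) + a t * (E i + g * ε i)) =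
        fun i => algebraMap S L (p (J + t) i) := by
      funext i
      exact (hp i).symm
    have hev : ∀ P : MvPolynomial (Fin 2) S, aeval (fun i => algebraMap S L (p (J + t) i)) P =
        algebraMap S L (eval (p (J + t)) P) := by
      intro P
      have h3 := aeval_algebraMap_apply (R := S) L (p (J + t)) P
      rw [← coe_aeval_eq_eval]
      exact h3
    simp only [hfun, hev] at e1 e2
    rw [← hQ] at e1
    have e3 : ∀ i : Fin 2, algebraMap S L (p (J + (t + 1)) i - o i) *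
        algebraMap S L (eval (p (J + t)) (A 0)) =
        a t * (τ * E i) + a t ^ 2 * eval ![a t, g] (W i) := by
      intro i
      have h3 := e2 i
      rw [← hW, ← hstep, map_mul] at h3
      rw [map_sub, ← add_assoc, sub_mul, h3]
      have h4 : algebraMap S L (tM A o i 0) * (E 0 + g * ε 0) +
          algebraMap S L (tM A o i 1) * (E 1 + g * ε 1) = τ * E i := by
        linear_combination hTE i + g * hTε i
      rw [h4]
    have ea : a (t + 1) * algebraMap S L (eval (p (J + t)) (A 0)) =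
        a t * (τ + a t * eval ![a t, g] (C (x 0) * W 0 + C (x 1) * W 1)) := by
      rw [ha (t + 1), map_add, map_mul, map_mul, eval_C, eval_C]
      linear_combination x 0 * e3 0 + x 1 * e3 1 + a t * τ * hxE
    have ew : w (t + 1) * algebraMap S L (eval (p (J + t)) (A 0)) =
        a t * (a t * eval ![a t, g] (C (y 0) * W 0 + C (y 1) * W 1)) := by
      rw [hw (t + 1), map_add, map_mul, map_mul, eval_C, eval_C]
      linear_combination y 0 * e3 0 + y 1 * e3 1 + a t * τ * hyE
    have hbound : ∀ z : Fin 2 → L, (∀ i, v (z i) * v τ ≤ 1) →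
        v (a t * eval ![a t, g] (C (z 0) * W 0 + C (z 1) * W 1)) < v τ := by
      intro z hz
      refine lt_of_mul_lt_mul_right (a := v τ) ?_ zero_le
      have h3 : v (eval ![a t, g] (C (z 0) * W 0 + C (z 1) * W 1)) * v τ ≤ 1 := by
        rw [map_add, map_mul, map_mul, eval_C, eval_C, ← map_mul, add_mul]
        refine (v.map_add _ _).trans (max_le ?_ ?_)
        · rw [mul_right_comm, map_mul, map_mul, hW]
          exact mul_le_one' (hz 0) (hval _ _ hat hg _)
        · rw [mul_right_comm, map_mul, map_mul, hW]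
          exact mul_le_one' (hz 1) (hval _ _ hat hg _)
      rw [map_mul, mul_assoc]
      calc v (a t) * (v (eval ![a t, g] (C (z 0) * W 0 + C (z 1) * W 1)) * v τ)
          ≤ v (a t) * 1 := mul_le_mul_right h3 _
        _ = v (a t) := mul_one _
        _ < v τ ^ 2 := h1
        _ = v τ * v τ := sq _
    have hb1 := hbound x hx
    have hb2 := hbound y hy
    have hsum : v (τ + a t * eval ![a t, g] (C (x 0) * W 0 + C (x 1) * W 1)) = v τ :=
      v.map_add_eq_of_lt_left hb1
    have hva1 : v (a (t + 1)) = v τ * v (a t) := by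
      have h3 := congrArg v ea
      rw [map_mul, hα, mul_one, map_mul, hsum, mul_comm] at h3
      exact h3
    have hva1' : a (t + 1) ≠ 0 := by
      intro h3
      rw [h3, map_zero] at hva1
      exact mul_ne_zero hvτ hva hva1.symm
    refine ⟨hg, hva1, ?_, ?_, ?_⟩
    · have h3 := congrArg v ew
      rw [map_mul, hα, mul_one, map_mul] at h3
      rw [h3, hva1, mul_comm]
      exact mul_le_mul_left hb2.le _
    · rw [← ea, e1]
    · rw [div_mul_eq_mul_div, div_eq_iff hva1']
      have hne : algebraMap S L (eval (p (J + t)) (A 0)) ≠ 0 := by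
        intro h3
        have h4 := hα (J + t)
        rw [h3, map_zero] at h4
        exact zero_ne_one h4
      refine mul_right_cancel₀ hne ?_
      refine mul_left_cancel₀ h0 ?_
      linear_combination (a t * (τ + a t * eval ![a t, g] (C (x 0) * W 0 + C (x 1) * W 1))) * ew -
        a t * (a t * eval ![a t, g] (C (y 0) * W 0 + C (y 1) * W 1)) * ea
  have inv : ∀ t, a t ≠ 0 ∧ v (a t) < v τ ^ 2 ∧ v (w t) ≤ v (a t) := by
    intro t
    induction t with
    | zero => exact ⟨ha0, haτ, hwa⟩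
    | succ t ih =>
      obtain ⟨h0, h1, h2⟩ := ih
      obtain ⟨-, h4, h5, -, -⟩ := step t h0 h1 h2
      refine ⟨?_, ?_, h5⟩
      · intro h6
        rw [h6, map_zero] at h4
        exact mul_ne_zero hvτ ((v.ne_zero_iff).2 h0) h4.symm
      · rw [h4]
        exact (mul_le_of_le_one_left' hτ1.le).trans_lt h1
  refine ⟨⟨Q, C (x 0) * W 0 + C (x 1) * W 1, C (y 0) * W 0 + C (y 1) * W 1, ?_⟩,
    fun t i => hu t (inv t).1 i⟩
  refine ⟨hvτ, hτ1, fun t => (inv t).1, fun t => ?_, fun t => ?_, hτ, ?_, fun t => ?_,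
    fun t => ?_⟩
  · exact (step t (inv t).1 (inv t).2.1 (inv t).2.2).2.1
  · exact (step t (inv t).1 (inv t).2.1 (inv t).2.2).1
  · intro h
    rw [h, map_zero] at hα0
    exact zero_ne_one hα0
  · exact (step t (inv t).1 (inv t).2.1 (inv t).2.2).2.2.2.1
  · exact (step t (inv t).1 (inv t).2.1 (inv t).2.2).2.2.2.2

variable {S : Type} [CommRing S] [IsDomain S]

theorem slow_regime {π : S} (hπ : Unif π)
    {v : Valuation (FractionRing S) (WithZero (Multiplicative ℤ))}
    (hv : ∀ (r : S) (n : ℕ), π ^ n ∣ r ↔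
      v (algebraMap S (FractionRing S) r) ≤ WithZero.exp (-(n : ℤ)))
    {A : Fin 3 → MvPolynomial (Fin 2) S} (hA0 : ¬ π ∣ (A 0).coeff 0) {p : ℕ → Fin 2 → S}
    (hp : Orb π A p) (hinj : Function.Injective p) {o : Fin 2 → S} (hlim : Tends π p o)
    (hdet : tM A o 0 0 * tM A o 1 1 - tM A o 0 1 * tM A o 1 0 = 0)
    (htr0 : tM A o 0 0 + tM A o 1 1 ≠ 0) (htr : π ∣ tM A o 0 0 + tM A o 1 1)
    {H : MvPolynomial (Fin 2) S} {ε : Fin 2 → S} (hε : ∀ i, ∑ j, tM A o i j * ε j = 0)
    (hH : ¬ π ∣ ∑ j, eval o (pderiv j H) * ε j) (hinf : {j | eval (p j) H = 0}.Infinite) :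
    ∃ (J : ℕ) (a g : ℕ → FractionRing S) (β β₀ : FractionRing S)
      (b n₁ n₂ : MvPolynomial (Fin 2) (FractionRing S)) (lam : WithZero (Multiplicative ℤ))
      (E : Fin 2 → FractionRing S), Slow v a g β β₀ b n₁ n₂ lam ∧ E ≠ 0 ∧
      ∀ t i, algebraMap S (FractionRing S) (p (J + t) i) = algebraMap S _ (o i) +
        a t * (E i + g t * algebraMap S _ (ε i)) := by
  -- the valuation
  have hv1 : ∀ r : S, v (algebraMap S (FractionRing S) r) ≤ 1 := by
    intro r
    have h1 := (hv r 0).1 (by rw [pow_zero]; exact one_dvd _)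
    simpa using h1
  have hvπ : ∀ r : S, π ∣ r → v (algebraMap S (FractionRing S) r) < 1 := by
    intro r hr
    refine ((hv r 1).1 (by rw [pow_one]; exact hr)).trans_lt ?_
    rw [← WithZero.exp_zero, WithZero.exp_lt_exp]
    norm_num
  have hvu : ∀ r : S, ¬ π ∣ r → v (algebraMap S (FractionRing S) r) = 1 := by
    intro r hr
    refine le_antisymm (hv1 r) (le_of_not_gt fun h => hr ?_)
    rw [← pow_one π]
    refine (hv r 1).2 ?_
    by_cases h0 : v (algebraMap S (FractionRing S) r) = 0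
    · rw [h0]
      exact zero_le
    · rw [← WithZero.exp_log h0] at h ⊢
      rw [← WithZero.exp_zero, WithZero.exp_lt_exp] at h
      rw [WithZero.exp_le_exp]
      push_cast
      omega
  have hιinj : Function.Injective (algebraMap S (FractionRing S)) :=
    IsFractionRing.injective S (FractionRing S)
  -- the fixed point
  obtain ⟨ho, hf0, hf1⟩ := lim_fixed hπ hp hlim
  have hfix : ∀ i : Fin 2, o i * eval o (A 0) = eval o (A i.succ) := by
    intro i
    fin_cases i
    · exact hf0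
    · exact hf1
  have hstep : ∀ (j : ℕ) (i : Fin 2),
      p (j + 1) i * eval (p j) (A 0) = eval (p j) (A i.succ) := by
    intro j i
    fin_cases i
    · exact hp.step0 j
    · exact hp.step1 j
  have hun : ∀ u : Fin 2 → S, (∀ i, π ∣ u i) → ¬ π ∣ eval u (A 0) := by
    intro u hu h
    obtain ⟨t, ht⟩ := eval_mod (A 0) hu
    refine hA0 ?_
    have h1 : (A 0).coeff 0 = eval u (A 0) - π * t := by linear_combination -ht
    rw [h1]
    exact dvd_sub h (Dvd.intro t rfl)
  have hα : ∀ j, v (algebraMap S (FractionRing S) (eval (p j) (A 0))) = 1 := fun j =>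
    hvu _ (hun _ (hp.small j))
  have hα0 : v (algebraMap S (FractionRing S) (eval o (A 0))) = 1 := hvu _ (hun _ ho)
  -- the direction `e`
  obtain ⟨e, hδ⟩ : ∃ e : Fin 2 → S, ¬ π ∣ e 0 * ε 1 - e 1 * ε 0 := by
    by_cases h : π ∣ ε 1
    · refine ⟨![0, 1], fun h0 => hH ?_⟩
      have h1 : π ∣ ε 0 := by
        have h2 : (![0, 1] : Fin 2 → S) 0 * ε 1 - (![0, 1] : Fin 2 → S) 1 * ε 0 = -ε 0 := by
          simp
        rw [h2, dvd_neg] at h0
        exact h0
      rw [Fin.sum_univ_two]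
      exact dvd_add (Dvd.dvd.mul_left h1 _) (Dvd.dvd.mul_left h _)
    · refine ⟨![1, 0], fun h0 => h ?_⟩
      have h2 : (![1, 0] : Fin 2 → S) 0 * ε 1 - (![1, 0] : Fin 2 → S) 1 * ε 0 = ε 1 := by
        simp
      rw [h2] at h0
      exact h0
  have hδ1 : v (algebraMap S (FractionRing S) (e 0) * algebraMap S (FractionRing S) (ε 1) -
      algebraMap S (FractionRing S) (e 1) * algebraMap S (FractionRing S) (ε 0)) = 1 := by
    rw [← map_mul, ← map_mul, ← map_sub]
    exact hvu _ hδ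
  have hδ0 : algebraMap S (FractionRing S) (e 0) * algebraMap S (FractionRing S) (ε 1) -
      algebraMap S (FractionRing S) (e 1) * algebraMap S (FractionRing S) (ε 0) ≠ 0 := by
    intro h
    rw [h, map_zero] at hδ1
    exact zero_ne_one hδ1
  have hTε : ∀ i, algebraMap S (FractionRing S) (tM A o i 0) *
      algebraMap S (FractionRing S) (ε 0) + algebraMap S (FractionRing S) (tM A o i 1) *
      algebraMap S (FractionRing S) (ε 1) = 0 := by
    intro i
    have h := congrArg (algebraMap S (FractionRing S)) (hε i)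
    rw [Fin.sum_univ_two, map_add, map_mul, map_mul, map_zero] at h
    exact h
  have hdet' : algebraMap S (FractionRing S) (tM A o 0 0) *
      algebraMap S (FractionRing S) (tM A o 1 1) - algebraMap S (FractionRing S) (tM A o 0 1) *
      algebraMap S (FractionRing S) (tM A o 1 0) = 0 := by
    rw [← map_mul, ← map_mul, ← map_sub, hdet, map_zero]
  obtain ⟨τ, E, x, y, hτ0, hτ1, hE1, hTE, hxy, hxE, hyE, hx, hy⟩ :
      ∃ (τ : FractionRing S) (E x y : Fin 2 → FractionRing S), τ ≠ 0 ∧ v τ < 1 ∧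
        (∀ i, v (E i) ≤ 1) ∧
        (∀ i : Fin 2, algebraMap S (FractionRing S) (tM A o i 0) * E 0 +
          algebraMap S (FractionRing S) (tM A o i 1) * E 1 = τ * E i) ∧
        (∀ (u : Fin 2 → FractionRing S) (i : Fin 2),
          u i = (x 0 * u 0 + x 1 * u 1) * E i +
            (y 0 * u 0 + y 1 * u 1) * algebraMap S (FractionRing S) (ε i)) ∧
        x 0 * E 0 + x 1 * E 1 = 1 ∧ y 0 * E 0 + y 1 * E 1 = 0 ∧
        (∀ i, v (x i) * v τ ≤ 1) ∧ ∀ i, v (y i) * v τ ≤ 1 := by
    obtain ⟨ν, hν1, hν2, hTE⟩ := SlowA_lin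
      (fun i j => algebraMap S (FractionRing S) (tM A o i j))
      (fun i => algebraMap S (FractionRing S) (ε i))
      (fun i => algebraMap S (FractionRing S) (e i)) hTε hdet' hδ0
    have hτ0 : algebraMap S (FractionRing S) (tM A o 0 0) +
        algebraMap S (FractionRing S) (tM A o 1 1) ≠ 0 := by
      rw [← map_add]
      intro h
      rw [← map_zero (algebraMap S (FractionRing S))] at h
      exact htr0 (hιinj h)
    have hτ1 : v (algebraMap S (FractionRing S) (tM A o 0 0) +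
        algebraMap S (FractionRing S) (tM A o 1 1)) < 1 := by
      rw [← map_add]
      exact hvπ _ htr
    have hE1 : ∀ i : Fin 2, v (algebraMap S (FractionRing S) (tM A o i 0) *
        algebraMap S (FractionRing S) (e 0) + algebraMap S (FractionRing S) (tM A o i 1) *
        algebraMap S (FractionRing S) (e 1)) ≤ 1 := by
      intro i
      rw [← map_mul, ← map_mul, ← map_add]
      exact hv1 _
    have hvν : v ν ≤ 1 := by
      rw [hν2, map_div₀, hδ1, div_one, ← map_mul, ← map_mul, ← map_mul, ← map_mul, ← map_add,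
        ← map_add, ← map_mul, ← map_mul, ← map_sub]
      exact hv1 _
    obtain ⟨x, y, hxy, hxE, hyE, hx, hy⟩ := SlowA_coord
      (e := fun i => algebraMap S (FractionRing S) (e i))
      (ε := fun i => algebraMap S (FractionRing S) (ε i))
      (E := fun i => algebraMap S (FractionRing S) (tM A o i 0) *
        algebraMap S (FractionRing S) (e 0) + algebraMap S (FractionRing S) (tM A o i 1) *
        algebraMap S (FractionRing S) (e 1)) (fun i => hv1 _) (fun i => hv1 _) hδ1 hτ0 hτ1.le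
      hvν hν1
    exact ⟨_, _, x, y, hτ0, hτ1, hE1, hTE, hxy, hxE, hyE, hx, hy⟩
  have hvτ : v τ ≠ 0 := (v.ne_zero_iff).2 hτ0
  obtain ⟨M, hM⟩ := SlowA_exists_exp (pow_ne_zero 3 hvτ)
  obtain ⟨J₀, hJ₀⟩ := hlim M
  obtain ⟨J, hJ, hJJ⟩ := hinf.exists_gt J₀
  have hJ0 : eval (p J) H = 0 := hJ
  have hHo : eval o H = 0 := eval_lim_eq_zero hπ hlim hinf
  obtain ⟨a, ha⟩ : ∃ a : ℕ → FractionRing S, ∀ t, a t =
      x 0 * algebraMap S (FractionRing S) (p (J + t) 0 - o 0) +
      x 1 * algebraMap S (FractionRing S) (p (J + t) 1 - o 1) := ⟨_, fun t => rfl⟩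
  obtain ⟨w, hw⟩ : ∃ w : ℕ → FractionRing S, ∀ t, w t =
      y 0 * algebraMap S (FractionRing S) (p (J + t) 0 - o 0) +
      y 1 * algebraMap S (FractionRing S) (p (J + t) 1 - o 1) := ⟨_, fun t => rfl⟩
  have hsmall : ∀ z : Fin 2 → FractionRing S, (∀ i, v (z i) * v τ ≤ 1) →
      v (z 0 * algebraMap S (FractionRing S) (p (J + 0) 0 - o 0) +
        z 1 * algebraMap S (FractionRing S) (p (J + 0) 1 - o 1)) < v τ ^ 2 := by
    intro z hz
    have h1 : ∀ i : Fin 2, v (z i * algebraMap S (FractionRing S) (p (J + 0) i - o i)) <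
        v τ ^ 2 := by
      intro i
      refine lt_of_mul_lt_mul_right (a := v τ) ?_ zero_le
      rw [← pow_succ, map_mul, mul_right_comm]
      have h2 : v (algebraMap S (FractionRing S) (p (J + 0) i - o i)) ≤
          WithZero.exp (-(M : ℤ)) := (hv _ M).1 (hJ₀ (J + 0) (by omega) i)
      calc v (z i) * v τ * v (algebraMap S (FractionRing S) (p (J + 0) i - o i))
          ≤ 1 * WithZero.exp (-(M : ℤ)) := mul_le_mul' (hz i) h2
        _ = WithZero.exp (-(M : ℤ)) := one_mul _
        _ < v τ ^ 3 := hM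
    exact (v.map_add _ _).trans_lt (max_lt (h1 0) (h1 1))
  have ha1 : v (a 0) < v τ ^ 2 := by
    rw [ha]
    exact hsmall x hx
  have hw1 : v (w 0) < v τ ^ 2 := by
    rw [hw]
    exact hsmall y hy
  have hu : ∀ i : Fin 2, algebraMap S (FractionRing S) (p J i) =
      algebraMap S (FractionRing S) (o i) + (a 0 * E i + w 0 *
        algebraMap S (FractionRing S) (ε i)) := by
    intro i
    have h1 := hxy (fun i => algebraMap S (FractionRing S) (p (J + 0) i - o i)) i
    rw [← ha, ← hw, map_sub, add_zero] at h1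
    linear_combination h1
  have hone : v τ ^ 2 ≤ 1 := pow_le_one' hτ1.le 2
  have hwa : v (w 0) ≤ v (a 0) := by
    by_contra hlt
    rw [not_le] at hlt
    have hw0 : w 0 ≠ 0 := by
      intro h
      rw [h, map_zero] at hlt
      exact not_lt_zero hlt
    have hvw : v (w 0) ≠ 0 := (v.ne_zero_iff).2 hw0
    obtain ⟨R, hR⟩ := SlowA_taylor (L := FractionRing S) H o
    have h1 := hR (w 0) (fun i => a 0 / w 0 * E i + algebraMap S (FractionRing S) (ε i))
    have h2 : (fun i => algebraMap S (FractionRing S) (o i) +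
        w 0 * (a 0 / w 0 * E i + algebraMap S (FractionRing S) (ε i))) =
        fun i => algebraMap S (FractionRing S) (p J i) := by
      funext i
      rw [hu i, mul_add, ← mul_assoc, mul_div_cancel₀ _ hw0]
    have h3 : aeval (fun i => algebraMap S (FractionRing S) (p J i)) H =
        algebraMap S (FractionRing S) (eval (p J) H) := by
      have h3 := aeval_algebraMap_apply (R := S) (FractionRing S) (p J) H
      rw [← coe_aeval_eq_eval]
      exact h3
    rw [h2, h3, hJ0, hHo, map_zero, zero_add] at h1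
    have hr : v (a 0 / w 0) < 1 := by
      rw [map_div₀]
      exact (div_lt_one₀ (zero_lt_iff.2 hvw)).2 hlt
    have hW1 : ∀ i : Fin 2,
        v (a 0 / w 0 * E i + algebraMap S (FractionRing S) (ε i)) ≤ 1 := fun i =>
      v.map_add_le (by rw [map_mul]; exact mul_le_one' hr.le (hE1 i)) (hv1 _)
    have hRle := SlowA_le hv1 R ![w 0, a 0 / w 0 * E 0 + algebraMap S (FractionRing S) (ε 0),
      a 0 / w 0 * E 1 + algebraMap S (FractionRing S) (ε 1)] (by
        intro i
        fin_cases i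
        · exact (hw1.trans_le hone).le
        · exact hW1 0
        · exact hW1 1)
    have hunit : v (algebraMap S (FractionRing S) (eval o (pderiv 0 H)) *
        algebraMap S (FractionRing S) (ε 0) +
        algebraMap S (FractionRing S) (eval o (pderiv 1 H)) *
        algebraMap S (FractionRing S) (ε 1)) = 1 := by
      rw [← map_mul, ← map_mul, ← map_add]
      rw [Fin.sum_univ_two] at hH
      exact hvu _ hH
    have h4 : algebraMap S (FractionRing S) (eval o (pderiv 0 H)) *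
        algebraMap S (FractionRing S) (ε 0) +
        algebraMap S (FractionRing S) (eval o (pderiv 1 H)) *
        algebraMap S (FractionRing S) (ε 1) =
        -(a 0 / w 0 * (algebraMap S (FractionRing S) (eval o (pderiv 0 H)) * E 0 +
          algebraMap S (FractionRing S) (eval o (pderiv 1 H)) * E 1) +
          w 0 * aeval ![w 0, a 0 / w 0 * E 0 + algebraMap S (FractionRing S) (ε 0),
            a 0 / w 0 * E 1 + algebraMap S (FractionRing S) (ε 1)] R) := by
      refine mul_left_cancel₀ hw0 ?_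
      linear_combination -h1
    rw [h4, Valuation.map_neg] at hunit
    refine absurd hunit (ne_of_lt ?_)
    refine (v.map_add _ _).trans_lt (max_lt ?_ ?_)
    · rw [map_mul]
      have h5 : v (algebraMap S (FractionRing S) (eval o (pderiv 0 H)) * E 0 +
          algebraMap S (FractionRing S) (eval o (pderiv 1 H)) * E 1) ≤ 1 :=
        v.map_add_le (by rw [map_mul]; exact mul_le_one' (hv1 _) (hE1 0))
          (by rw [map_mul]; exact mul_le_one' (hv1 _) (hE1 1))
      exact (mul_le_of_le_one_right' h5).trans_lt hr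
    · rw [map_mul]
      exact (mul_le_of_le_one_right' hRle).trans_lt (hw1.trans_le hone)
  have ha0 : a 0 ≠ 0 := by
    intro h
    have h1 : w 0 = 0 := by
      rw [h, map_zero] at hwa
      exact (v.zero_iff).1 (le_antisymm hwa zero_le)
    have h2 : p J = o := by
      funext i
      refine hιinj ?_
      rw [hu i, h, h1, zero_mul, zero_mul, add_zero, add_zero]
    have h3 : p (J + 1) = o := by
      funext i
      have h4 := hstep J i
      rw [h2, ← hfix i] at h4
      refine mul_right_cancel₀ ?_ h4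
      intro h5
      exact hun o ho (by rw [h5]; exact dvd_zero _)
    have h4 := hinj (h3.trans h2.symm)
    omega
  obtain ⟨⟨b, n₁, n₂, hslow⟩, hpt⟩ := SlowA_core hv1 hfix hstep hα hα0 hτ0 hτ1 hE1
    (fun i => hv1 (ε i)) hTE hTε hxy hxE hyE hx hy ha hw ha0 ha1 hwa
  refine ⟨J, a, fun t => w t / a t, τ, algebraMap S (FractionRing S) (eval o (A 0)), b, n₁, n₂,
    v τ, E, hslow, ?_, hpt⟩
  intro h
  rw [h] at hxE
  simp at hxE

end Pool.Agent.Helper63.TS2
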