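import Pool.Agent.Helper63.TS2.Defs

/-!
# Expansions along slowly convergent orbits
-/

set_option autoImplicit false

namespace Pool.Agent.Helper63.TS2

open MvPolynomial

variable {L : Type} [Field L]

/-- A sequence of points `(a t, g t)` of a valued field which is given by the recursion
`a' (β₀ + a b) = a (β + a n₁)`, `g' (β + a n₁) = a n₂` and for which the values of `a` decrease
like a geometric progression. -/
structure Slow (v : Valuation L (WithZero (Multiplicative ℤ))) (a g : ℕ → L) (β β₀ : L)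
    (b n₁ n₂ : MvPolynomial (Fin 2) L) (lam : WithZero (Multiplicative ℤ)) : Prop where
  lam0 : lam ≠ 0
  lam1 : lam < 1
  ne : ∀ t, a t ≠ 0
  val_a : ∀ t, v (a (t + 1)) = lam * v (a t)
  val_g : ∀ t, v (g t) ≤ 1
  beta : β ≠ 0
  beta₀ : β₀ ≠ 0
  rec_a : ∀ t, a (t + 1) * (β₀ + a t * eval ![a t, g t] b) = a t * (β + a t * eval ![a t, g t] n₁)
  rec_g : ∀ t, g (t + 1) * (β + a t * eval ![a t, g t] n₁) = a t * eval ![a t, g t] n₂

variable {v : Valuation L (WithZero (Multiplicative ℤ))} {a g : ℕ → L} {β β₀ : L}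
  {b n₁ n₂ : MvPolynomial (Fin 2) L} {lam : WithZero (Multiplicative ℤ)}

namespace SlowB

/-- `f` is of order at least `I` along the sequence `a`. -/
def Sm (v : Valuation L (WithZero (Multiplicative ℤ))) (a : ℕ → L) (I : ℕ) (f : ℕ → L) : Prop :=
  ∃ (c : WithZero (Multiplicative ℤ)) (T : ℕ), ∀ t, T ≤ t → v (f t) ≤ c * v (a t) ^ I

/-- `f` is a polynomial in `a` up to order `I` along the sequence `a`. -/
def Ap (v : Valuation L (WithZero (Multiplicative ℤ))) (a : ℕ → L) (I : ℕ) (f : ℕ → L) : Prop :=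
  ∃ q : Polynomial L, Sm v a I (fun t => f t - q.eval (a t))

/-- The values of `a` decrease like a geometric progression. -/
structure Geo (v : Valuation L (WithZero (Multiplicative ℤ))) (a : ℕ → L)
    (lam : WithZero (Multiplicative ℤ)) : Prop where
  lam0 : lam ≠ 0
  lam1 : lam < 1
  ne : ∀ t, a t ≠ 0
  val_a : ∀ t, v (a (t + 1)) = lam * v (a t)

theorem Geo.pow (h : Geo v a lam) (t : ℕ) : v (a t) = lam ^ t * v (a 0) := by
  induction t with
  | zero => simp
  | succ t ih => rw [h.val_a, ih, pow_succ', mul_assoc]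

theorem Geo.vne (h : Geo v a lam) (t : ℕ) : v (a t) ≠ 0 :=
  (Valuation.ne_zero_iff v).2 (h.ne t)

theorem Geo.small (h : Geo v a lam) {ε : WithZero (Multiplicative ℤ)} (hε : ε ≠ 0) :
    ∃ T : ℕ, ∀ t, T ≤ t → v (a t) < ε := by
  have h0 : v (a 0) ≠ 0 := h.vne 0
  have hd : ε / v (a 0) ≠ 0 := div_ne_zero hε h0
  obtain ⟨n, hn⟩ := exists_pow_lt₀ h.lam1 (Units.mk0 _ hd)
  rw [Units.val_mk0] at hn
  refine ⟨n, fun t ht => ?_⟩
  have h1 : lam ^ t ≤ lam ^ n := pow_le_pow_right_of_le_one' h.lam1.le ht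
  have h2 : lam ^ t < ε / v (a 0) := lt_of_le_of_lt h1 hn
  rw [h.pow t]
  have h3 := (lt_div_iff₀ (zero_lt_iff.2 h0)).1 h2
  exact h3

theorem Geo.small' (h : Geo v a lam) (c : WithZero (Multiplicative ℤ))
    {ε : WithZero (Multiplicative ℤ)} (hε : ε ≠ 0) :
    ∃ T : ℕ, ∀ t, T ≤ t → c * v (a t) < ε := by
  by_cases hc : c = 0
  · exact ⟨0, fun t _ => by rw [hc, zero_mul]; exact zero_lt_iff.2 hε⟩
  · obtain ⟨T, hT⟩ := h.small (ε := ε / c) (div_ne_zero hε hc)
    refine ⟨T, fun t ht => ?_⟩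
    have h1 := (lt_div_iff₀ (zero_lt_iff.2 hc)).1 (hT t ht)
    rwa [mul_comm] at h1

theorem Geo.le_one (h : Geo v a lam) : ∃ T : ℕ, ∀ t, T ≤ t → v (a t) ≤ 1 := by
  obtain ⟨T, hT⟩ := h.small (ε := 1) one_ne_zero
  exact ⟨T, fun t ht => (hT t ht).le⟩

theorem Sm.congr {I : ℕ} {f f' : ℕ → L} (T₀ : ℕ) (he : ∀ t, T₀ ≤ t → f t = f' t)
    (hf : Sm v a I f) : Sm v a I f' := by
  obtain ⟨c, T, hT⟩ := hf
  refine ⟨c, max T T₀, fun t ht => ?_⟩
  rw [← he t (le_trans (le_max_right _ _) ht)]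
  exact hT t (le_trans (le_max_left _ _) ht)

theorem Sm.zero (I : ℕ) : Sm v a I (fun _ => 0) :=
  ⟨0, 0, fun t _ => by rw [map_zero]; exact zero_le⟩

theorem Sm.const (c : L) : Sm v a 0 (fun _ => c) :=
  ⟨v c, 0, fun t _ => by rw [pow_zero, mul_one]⟩

theorem Sm.id : Sm v a 1 a :=
  ⟨1, 0, fun t _ => by rw [pow_one, one_mul]⟩

theorem Sm.add {I : ℕ} {f f' : ℕ → L} (hf : Sm v a I f) (hf' : Sm v a I f') :
    Sm v a I (fun t => f t + f' t) := by
  obtain ⟨c, T, hT⟩ := hf
  obtain ⟨c', T', hT'⟩ := hf'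
  refine ⟨max c c', max T T', fun t ht => ?_⟩
  refine Valuation.map_add_le v ?_ ?_
  · exact (hT t (le_trans (le_max_left _ _) ht)).trans
      (mul_le_mul_left (le_max_left _ _) _)
  · exact (hT' t (le_trans (le_max_right _ _) ht)).trans
      (mul_le_mul_left (le_max_right _ _) _)

theorem Sm.neg {I : ℕ} {f : ℕ → L} (hf : Sm v a I f) : Sm v a I (fun t => - f t) := by
  obtain ⟨c, T, hT⟩ := hf
  exact ⟨c, T, fun t ht => by rw [Valuation.map_neg]; exact hT t ht⟩

theorem Sm.sub {I : ℕ} {f f' : ℕ → L} (hf : Sm v a I f) (hf' : Sm v a I f') :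
    Sm v a I (fun t => f t - f' t) := by
  have := hf.add hf'.neg
  exact this.congr 0 fun t _ => by ring

theorem Sm.mul {I J : ℕ} {f f' : ℕ → L} (hf : Sm v a I f) (hf' : Sm v a J f') :
    Sm v a (I + J) (fun t => f t * f' t) := by
  obtain ⟨c, T, hT⟩ := hf
  obtain ⟨c', T', hT'⟩ := hf'
  refine ⟨c * c', max T T', fun t ht => ?_⟩
  rw [map_mul]
  refine (mul_le_mul' (hT t (le_trans (le_max_left _ _) ht))
    (hT' t (le_trans (le_max_right _ _) ht))).trans (le_of_eq ?_)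
  rw [pow_add]; ac_rfl

theorem Sm.mono (h : Geo v a lam) {I J : ℕ} (hJI : J ≤ I) {f : ℕ → L} (hf : Sm v a I f) :
    Sm v a J f := by
  obtain ⟨c, T, hT⟩ := hf
  obtain ⟨T', hT'⟩ := h.le_one
  refine ⟨c, max T T', fun t ht => ?_⟩
  refine (hT t (le_trans (le_max_left _ _) ht)).trans (mul_le_mul_right ?_ _)
  exact pow_le_pow_right_of_le_one' (hT' t (le_trans (le_max_right _ _) ht)) hJI

theorem Sm.eval (h : Geo v a lam) (q : Polynomial L) : Sm v a 0 (fun t => q.eval (a t)) := by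
  induction q using Polynomial.induction_on with
  | C c => simpa using Sm.const c
  | add p q hp hq => simpa using hp.add hq
  | monomial n c ih =>
    have h1 := ih.mul (Sm.id.mono h (Nat.zero_le 1))
    refine h1.congr 0 fun t _ => ?_
    simp only [Polynomial.eval_mul, Polynomial.eval_C, Polynomial.eval_pow, Polynomial.eval_X]
    ring

theorem Sm.shift (h : Geo v a lam) {I : ℕ} {f : ℕ → L} (hf : Sm v a I f) :
    Sm v a I (fun t => f (t - 1)) := by
  obtain ⟨c, T, hT⟩ := hf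
  refine ⟨c * (lam⁻¹) ^ I, T + 1, fun t ht => ?_⟩
  obtain ⟨s, rfl⟩ : ∃ s, t = s + 1 := ⟨t - 1, by omega⟩
  show v (f (s + 1 - 1)) ≤ _
  rw [Nat.add_sub_cancel, h.val_a]
  refine (hT s (by omega)).trans (le_of_eq ?_)
  rw [mul_pow, mul_assoc, ← mul_assoc (lam⁻¹ ^ I), ← mul_pow, inv_mul_cancel₀ h.lam0, one_pow,
    one_mul]

theorem Ap.congr {I : ℕ} {f f' : ℕ → L} (T₀ : ℕ) (he : ∀ t, T₀ ≤ t → f t = f' t)
    (hf : Ap v a I f) : Ap v a I f' := by
  obtain ⟨q, hq⟩ := hf
  exact ⟨q, hq.congr T₀ fun t ht => by rw [he t ht]⟩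

theorem Ap.of_sm {I : ℕ} {f : ℕ → L} (hf : Sm v a I f) : Ap v a I f :=
  ⟨0, hf.congr 0 fun t _ => by simp⟩

theorem Ap.poly (I : ℕ) (q : Polynomial L) : Ap v a I (fun t => q.eval (a t)) :=
  ⟨q, (Sm.zero I).congr 0 fun t _ => by simp⟩

theorem Ap.id (I : ℕ) : Ap v a I a :=
  (Ap.poly I Polynomial.X).congr 0 fun t _ => by simp

theorem Ap.const (I : ℕ) (c : L) : Ap v a I (fun _ => c) :=
  (Ap.poly I (Polynomial.C c)).congr 0 fun t _ => by simp

theorem Ap.add {I : ℕ} {f f' : ℕ → L} (hf : Ap v a I f) (hf' : Ap v a I f') :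
    Ap v a I (fun t => f t + f' t) := by
  obtain ⟨q, hq⟩ := hf
  obtain ⟨q', hq'⟩ := hf'
  refine ⟨q + q', (hq.add hq').congr 0 fun t _ => ?_⟩
  rw [Polynomial.eval_add]; ring

theorem Ap.neg {I : ℕ} {f : ℕ → L} (hf : Ap v a I f) : Ap v a I (fun t => - f t) := by
  obtain ⟨q, hq⟩ := hf
  refine ⟨-q, hq.neg.congr 0 fun t _ => ?_⟩
  rw [Polynomial.eval_neg]; ring

theorem Ap.sub {I : ℕ} {f f' : ℕ → L} (hf : Ap v a I f) (hf' : Ap v a I f') :
    Ap v a I (fun t => f t - f' t) :=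
  (hf.add hf'.neg).congr 0 fun t _ => by ring

theorem Ap.mono (h : Geo v a lam) {I J : ℕ} (hJI : J ≤ I) {f : ℕ → L} (hf : Ap v a I f) :
    Ap v a J f := by
  obtain ⟨q, hq⟩ := hf
  exact ⟨q, hq.mono h hJI⟩

theorem Ap.mul (h : Geo v a lam) {I : ℕ} {f f' : ℕ → L} (hf : Ap v a I f) (hf' : Ap v a I f') :
    Ap v a I (fun t => f t * f' t) := by
  obtain ⟨q, hq⟩ := hf
  obtain ⟨q', hq'⟩ := hf'
  refine ⟨q * q', ?_⟩
  have h1 : Sm v a I (fun t => q.eval (a t) * (f' t - q'.eval (a t))) :=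
    ((Sm.eval h q).mul hq').mono h (by omega)
  have h2 : Sm v a I (fun t => q'.eval (a t) * (f t - q.eval (a t))) :=
    ((Sm.eval h q').mul hq).mono h (by omega)
  have h3 : Sm v a I (fun t => (f t - q.eval (a t)) * (f' t - q'.eval (a t))) :=
    (hq.mul hq').mono h (by omega)
  refine ((h1.add h2).add h3).congr 0 fun t _ => ?_
  rw [Polynomial.eval_mul]; ring

theorem Ap.a_mul {I : ℕ} {f : ℕ → L} (hf : Ap v a I f) :
    Ap v a (I + 1) (fun t => a t * f t) := by
  obtain ⟨q, hq⟩ := hf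
  refine ⟨Polynomial.X * q, ?_⟩
  have h1 := hq.mul (Sm.id (v := v) (a := a))
  refine h1.congr 0 fun t _ => ?_
  rw [Polynomial.eval_mul, Polynomial.eval_X]; ring

theorem Ap.gain (h : Geo v a lam) {r : ℕ} {f w : ℕ → L} (hf1 : Sm v a 1 f) (hw1 : Sm v a 1 w)
    (hf : Ap v a r f) (hw : Ap v a r w) : Ap v a (r + 1) (fun t => f t * w t) := by
  rcases Nat.eq_zero_or_pos r with hr | hr
  · subst hr
    exact Ap.of_sm ((hf1.mul hw1).mono h (by omega))
  · obtain ⟨q, hq⟩ := hf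
    obtain ⟨p, hp⟩ := hw
    have hq1 : Sm v a 1 (fun t => q.eval (a t)) :=
      (hf1.sub (hq.mono h hr)).congr 0 fun t _ => by ring
    refine ⟨q * p, ?_⟩
    have h1 : Sm v a (r + 1) (fun t => q.eval (a t) * (w t - p.eval (a t))) :=
      (hq1.mul hp).mono h (by omega)
    have h2 : Sm v a (r + 1) (fun t => (f t - q.eval (a t)) * w t) :=
      (hq.mul hw1).mono h (by omega)
    refine (h1.add h2).congr 0 fun t _ => ?_
    rw [Polynomial.eval_mul]; ring

theorem Ap.comp (h : Geo v a lam) {I : ℕ} {u : ℕ → L} (hu : Ap v a I u) (q : Polynomial L) :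
    Ap v a I (fun t => q.eval (u t)) := by
  induction q using Polynomial.induction_on with
  | C c => simpa using Ap.const I c
  | add p q hp hq => simpa using hp.add hq
  | monomial n c ih =>
    have h1 := ih.mul h hu
    refine h1.congr 0 fun t _ => ?_
    simp only [Polynomial.eval_mul, Polynomial.eval_C, Polynomial.eval_pow, Polynomial.eval_X]
    ring

theorem Ap.shift (h : Geo v a lam) {I : ℕ} (hu : Ap v a I (fun t => a (t - 1))) {f : ℕ → L}
    (hf : Ap v a I f) : Ap v a I (fun t => f (t - 1)) := by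
  obtain ⟨q, hq⟩ := hf
  have h1 : Ap v a I (fun t => q.eval (a (t - 1))) := Ap.comp h hu q
  have h2 : Ap v a I (fun t => f (t - 1) - q.eval (a (t - 1))) := Ap.of_sm (hq.shift h)
  exact (h1.add h2).congr 0 fun t _ => by ring

theorem Ap.mv (h : Geo v a lam) {I : ℕ} (hg : Ap v a I g) (P : MvPolynomial (Fin 2) L) :
    Ap v a I (fun t => MvPolynomial.eval ![a t, g t] P) := by
  induction P using MvPolynomial.induction_on with
  | C c => simpa using Ap.const I c
  | add p q hp hq => simpa using hp.add hq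
  | mul_X p i hp =>
    fin_cases i
    · simpa using hp.mul h (Ap.id I)
    · simpa using hp.mul h hg

theorem Sm.mv (h : Geo v a lam) (hg : Sm v a 0 g) (P : MvPolynomial (Fin 2) L) :
    Sm v a 0 (fun t => MvPolynomial.eval ![a t, g t] P) := by
  induction P using MvPolynomial.induction_on with
  | C c => simpa using Sm.const c
  | add p q hp hq => simpa using hp.add hq
  | mul_X p i hp =>
    fin_cases i
    · simpa using (hp.mul (Sm.id (v := v) (a := a))).mono h (Nat.zero_le _)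
    · simpa using hp.mul hg

/-- The value of `β + a n` is the value of `β`. -/
theorem val_den (h : Geo v a lam) {β : L} (hβ : β ≠ 0) {n : ℕ → L} (hn : Sm v a 0 n) :
    ∃ T : ℕ, ∀ t, T ≤ t → v (β + a t * n t) = v β := by
  obtain ⟨c, T, hT⟩ := hn
  obtain ⟨T', hT'⟩ := h.small' c ((Valuation.ne_zero_iff v).2 hβ)
  refine ⟨max T T', fun t ht => ?_⟩
  have h1 : v (a t * n t) < v β := by
    rw [map_mul]
    have h2 := hT t (le_trans (le_max_left _ _) ht)
    rw [pow_zero, mul_one] at h2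
    refine lt_of_le_of_lt (mul_le_mul_right h2 _) ?_
    rw [mul_comm]
    exact hT' t (le_trans (le_max_right _ _) ht)
  exact Valuation.map_add_eq_of_lt_left v h1

theorem Sm.inv (h : Geo v a lam) {β : L} (hβ : β ≠ 0) {n : ℕ → L} (hn : Sm v a 0 n) :
    Sm v a 0 (fun t => (β + a t * n t)⁻¹) := by
  obtain ⟨T, hT⟩ := val_den h hβ hn
  refine ⟨(v β)⁻¹, T, fun t ht => ?_⟩
  rw [map_inv₀, hT t ht, pow_zero, mul_one]

theorem den_ne (h : Geo v a lam) {β : L} (hβ : β ≠ 0) {n : ℕ → L} (hn : Sm v a 0 n) :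
    ∃ T : ℕ, ∀ t, T ≤ t → β + a t * n t ≠ 0 := by
  obtain ⟨T, hT⟩ := val_den h hβ hn
  refine ⟨T, fun t ht h0 => ?_⟩
  have h1 := hT t ht
  rw [h0, map_zero] at h1
  exact (Valuation.ne_zero_iff v).2 hβ h1.symm

theorem Ap.inv (h : Geo v a lam) {β : L} (hβ : β ≠ 0) {n : ℕ → L} (hn : Sm v a 0 n) {J : ℕ}
    (hnJ : Ap v a J n) : Ap v a J (fun t => (β + a t * n t)⁻¹) := by
  have key : ∀ r : ℕ, r ≤ J → Ap v a r (fun t => (β + a t * n t)⁻¹) := by
    intro r
    induction r with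
    | zero => intro _; exact Ap.of_sm (Sm.inv h hβ hn)
    | succ r ih =>
      intro hr
      have h1 := ih (by omega)
      have h2 : Ap v a (r + 1) (fun t => a t * (n t * (β + a t * n t)⁻¹)) :=
        ((hnJ.mono h (by omega)).mul h h1).a_mul
      have h3 := (Ap.const (v := v) (a := a) (r + 1) β⁻¹).mul h
        ((Ap.const (v := v) (a := a) (r + 1) 1).sub h2)
      obtain ⟨T, hT⟩ := den_ne h hβ hn
      refine h3.congr T fun t ht => ?_
      have h4 := hT t ht
      field_simp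
      ring
  exact key J le_rfl

end SlowB

open SlowB

theorem Slow.geo (h : Slow v a g β β₀ b n₁ n₂ lam) : Geo v a lam :=
  ⟨h.lam0, h.lam1, h.ne, h.val_a⟩

theorem Slow.sm_g (h : Slow v a g β β₀ b n₁ n₂ lam) : Sm v a 0 g :=
  ⟨1, 0, fun t _ => by rw [pow_zero, mul_one]; exact h.val_g t⟩

theorem Slow.ap_step (h : Slow v a g β β₀ b n₁ n₂ lam) {J : ℕ} (hJ : Ap v a J g) :
    Ap v a (J + 2) (fun t => a (t - 1)) := by
  have G := h.geo
  have key : ∀ r : ℕ, r ≤ J + 2 → Ap v a r (fun t => a (t - 1)) := by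
    intro r
    induction r with
    | zero => intro _; exact Ap.of_sm ((Sm.id.shift G).mono G (Nat.zero_le _))
    | succ r ih =>
      intro hr
      have h1 := ih (by omega)
      have h2 : Ap v a r (fun t => a t * eval ![a t, g t] b) :=
        (Ap.a_mul (Ap.mv G hJ b)).mono G (by omega)
      have h3 : Ap v a r (fun t => a t * eval ![a t, g t] n₁) :=
        (Ap.a_mul (Ap.mv G hJ n₁)).mono G (by omega)
      have h4 : Ap v a (r + 1) (fun t => a t * (a (t - 1) * eval ![a (t - 1), g (t - 1)] b)) :=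
        (Ap.shift G h1 h2).a_mul
      have h5 : Ap v a r (fun t => a (t - 1) * eval ![a (t - 1), g (t - 1)] n₁) :=
        Ap.shift G h1 h3
      have s1 : Sm v a 1 (fun t => a (t - 1)) := Sm.id.shift G
      have s2 : Sm v a 1 (fun t => a (t - 1) * eval ![a (t - 1), g (t - 1)] n₁) :=
        (Sm.id.mul (Sm.mv G h.sm_g n₁)).shift G
      have h6 := Ap.gain G s1 s2 h1 h5
      have h7 := (Ap.const (v := v) (a := a) (r + 1) β⁻¹).mul G
        ((((Ap.const (v := v) (a := a) (r + 1) β₀).mul G (Ap.id (r + 1))).add h4).sub h6)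
      refine h7.congr 1 fun t ht => ?_
      obtain ⟨s, rfl⟩ : ∃ s, t = s + 1 := ⟨t - 1, by omega⟩
      rw [Nat.add_sub_cancel]
      have h8 := h.rec_a s
      have hβ := h.beta
      rw [inv_mul_eq_iff_eq_mul₀ hβ]
      linear_combination h8
  exact key _ le_rfl

theorem Slow.ap_g (h : Slow v a g β β₀ b n₁ n₂ lam) (J : ℕ) : Ap v a J g := by
  have G := h.geo
  induction J with
  | zero => exact Ap.of_sm h.sm_g
  | succ J ih =>
    have h1 : Ap v a (J + 1) (fun t => a (t - 1)) := (h.ap_step ih).mono G (by omega)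
    have h2 := Ap.inv G h.beta (Sm.mv G h.sm_g n₁) (Ap.mv G ih n₁)
    have h3 := ((Ap.mv G ih n₂).mul G h2).a_mul
    have h4 := Ap.shift G h1 h3
    obtain ⟨T, hT⟩ := den_ne G h.beta (Sm.mv G h.sm_g n₁)
    refine h4.congr (T + 1) fun t ht => ?_
    obtain ⟨s, rfl⟩ : ∃ s, t = s + 1 := ⟨t - 1, by omega⟩
    rw [Nat.add_sub_cancel]
    have h5 := h.rec_g s
    have h6 := hT s (by omega)
    rw [← mul_assoc, ← div_eq_mul_inv, div_eq_iff h6]
    exact h5.symm

theorem slow_poly (h : Slow v a g β β₀ b n₁ n₂ lam) (I : ℕ) (P : MvPolynomial (Fin 2) L) :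
    ∃ (q : Polynomial L) (c : WithZero (Multiplicative ℤ)) (T : ℕ), ∀ t, T ≤ t →
      v (eval ![a t, g t] P - q.eval (a t)) ≤ c * v (a t) ^ I :=
  Ap.mv h.geo (h.ap_g I) P

namespace SlowB

/-- A polynomial is bounded on the unit disc. -/
theorem bdd (v : Valuation L (WithZero (Multiplicative ℤ))) (q : Polynomial L) :
    ∃ M : WithZero (Multiplicative ℤ), ∀ u, v u ≤ 1 → v (q.eval u) ≤ M := by
  induction q using Polynomial.induction_on with
  | C c => exact ⟨v c, fun u _ => by rw [Polynomial.eval_C]⟩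
  | add p q hp hq =>
    obtain ⟨M, hM⟩ := hp
    obtain ⟨N, hN⟩ := hq
    refine ⟨max M N, fun u hu => ?_⟩
    rw [Polynomial.eval_add]
    exact Valuation.map_add_le v ((hM u hu).trans (le_max_left _ _))
      ((hN u hu).trans (le_max_right _ _))
  | monomial n c ih =>
    obtain ⟨M, hM⟩ := ih
    refine ⟨M, fun u hu => ?_⟩
    rw [pow_succ, ← mul_assoc, Polynomial.eval_mul, Polynomial.eval_X, map_mul]
    exact mul_le_of_le_of_le_one (hM u hu) hu

/-- The value of a polynomial near zero. -/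
theorem low (v : Valuation L (WithZero (Multiplicative ℤ))) {q : Polynomial L} (hq : q ≠ 0) :
    ∃ (s : ℕ) (d ε : WithZero (Multiplicative ℤ)), d ≠ 0 ∧ ε ≠ 0 ∧
      ∀ u, v u < ε → v (q.eval u) = d * v u ^ s := by
  obtain ⟨p, hp, hd⟩ := Polynomial.exists_eq_pow_rootMultiplicity_mul_and_not_dvd q hq 0
  rw [Polynomial.dvd_iff_isRoot] at hd
  have h0 : p.eval 0 ≠ 0 := hd
  obtain ⟨M, hM⟩ := bdd v p.divX
  have hv0 : v (p.eval 0) ≠ 0 := (Valuation.ne_zero_iff v).2 h0
  set M' : WithZero (Multiplicative ℤ) := max M 1 with hM'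
  have hM1 : (1 : WithZero (Multiplicative ℤ)) ≤ M' := le_max_right _ _
  have hM0 : M' ≠ 0 := (lt_of_lt_of_le zero_lt_one hM1).ne'
  refine ⟨q.rootMultiplicity 0, v (p.eval 0), min 1 (v (p.eval 0) / M'), hv0, ?_, fun u hu => ?_⟩
  · rcases min_choice 1 (v (p.eval 0) / M') with h1 | h1
    · rw [h1]; exact one_ne_zero
    · rw [h1]; exact div_ne_zero hv0 hM0
  · have hu1 : v u ≤ 1 := (lt_of_lt_of_le hu (min_le_left _ _)).le
    have hu2 : v u < v (p.eval 0) / M' := lt_of_lt_of_le hu (min_le_right _ _)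
    have h1 : p.eval u = p.eval 0 + p.divX.eval u * u := by
      have h2 := congrArg (Polynomial.eval u) (Polynomial.divX_mul_X_add p)
      rw [Polynomial.eval_add, Polynomial.eval_mul, Polynomial.eval_X, Polynomial.eval_C] at h2
      rw [← h2, ← Polynomial.coeff_zero_eq_eval_zero]; ring
    have h3 : v (p.divX.eval u * u) < v (p.eval 0) := by
      rw [map_mul]
      refine lt_of_le_of_lt (mul_le_mul_left ((hM u hu1).trans (le_max_left M 1)) _) ?_
      rw [← hM', mul_comm]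
      exact (lt_div_iff₀ (zero_lt_iff.2 hM0)).1 hu2
    have h4 : v (p.eval u) = v (p.eval 0) := by
      rw [h1]; exact Valuation.map_add_eq_of_lt_left v h3
    have h5 : q.eval u = u ^ (q.rootMultiplicity 0) * p.eval u := by
      conv_lhs => rw [hp]
      rw [Polynomial.eval_mul, Polynomial.eval_pow, Polynomial.eval_sub, Polynomial.eval_X,
        Polynomial.eval_C, sub_zero]
    rw [h5, map_mul, map_pow, h4, mul_comm]

end SlowB

theorem slow_zero (h : Slow v a g β β₀ b n₁ n₂ lam) {P : MvPolynomial (Fin 2) L}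
    (hinf : {t | eval ![a t, g t] P = 0}.Infinite) (I : ℕ) :
    ∃ (c : WithZero (Multiplicative ℤ)) (T : ℕ), ∀ t, T ≤ t →
      v (eval ![a t, g t] P) ≤ c * v (a t) ^ I := by
  have G := h.geo
  obtain ⟨q, c, T, hT⟩ := slow_poly h I P
  have hq' : Sm v a I (fun t => q.eval (a t)) := by
    by_cases hq : q = 0
    · subst hq
      exact (Sm.zero I).congr 0 fun t _ => by simp
    · obtain ⟨s, d, ε, hd, hε, hs⟩ := low v hq
      obtain ⟨T₁, hT₁⟩ := G.small hε
      have hsI : I ≤ s := by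
        by_contra hlt
        push Not at hlt
        obtain ⟨T₂, hT₂⟩ := G.small' c hd
        obtain ⟨T₃, hT₃⟩ := G.le_one
        obtain ⟨t, ht, htT⟩ := hinf.exists_gt (max (max T T₁) (max T₂ T₃))
        have e1 : T ≤ t := le_trans (le_trans (le_max_left _ _) (le_max_left _ _)) htT.le
        have e2 : T₁ ≤ t := le_trans (le_trans (le_max_right _ _) (le_max_left _ _)) htT.le
        have e3 : T₂ ≤ t := le_trans (le_trans (le_max_left _ _) (le_max_right _ _)) htT.le
        have e4 : T₃ ≤ t := le_trans (le_trans (le_max_right _ _) (le_max_right _ _)) htT.le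
        have h1 := hT t e1
        have h2 : eval ![a t, g t] P = 0 := ht
        rw [h2, zero_sub, Valuation.map_neg, hs _ (hT₁ t e2)] at h1
        have h3 : v (a t) ^ I ≤ v (a t) ^ (s + 1) :=
          pow_le_pow_right_of_le_one' (hT₃ t e4) hlt
        have h4 : d * v (a t) ^ s ≤ (c * v (a t)) * v (a t) ^ s := by
          refine h1.trans ((mul_le_mul_right h3 c).trans (le_of_eq ?_))
          rw [pow_succ]; ac_rfl
        have h5 : (0 : WithZero (Multiplicative ℤ)) < v (a t) ^ s :=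
          zero_lt_iff.2 (pow_ne_zero _ (G.vne t))
        have h6 : d ≤ c * v (a t) := le_of_mul_le_mul_right h4 h5
        exact absurd (hT₂ t e3) (not_lt.2 h6)
      refine Sm.mono G hsI ⟨d, T₁, fun t ht => ?_⟩
      rw [hs _ (hT₁ t ht)]
  have h1 : Sm v a I (fun t => eval ![a t, g t] P - q.eval (a t)) := ⟨c, T, hT⟩
  exact (h1.add hq').congr 0 fun t _ => by ring

theorem slow_univ (h : Slow v a g β β₀ b n₁ n₂ lam) {ρ : Polynomial L} {o E e : L} (hE : E ≠ 0)
    (hρ : ∀ I : ℕ, ∃ (c : WithZero (Multiplicative ℤ)) (T : ℕ), ∀ t, T ≤ t →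
      v (ρ.eval (o + a t * (E + g t * e))) ≤ c * v (a t) ^ I) : ρ = 0 := by
  have G := h.geo
  by_contra hne
  set σ : Polynomial L := ρ.comp (Polynomial.C o + Polynomial.X) with hσ
  have hσ0 : σ ≠ 0 := by
    intro h0
    apply hne
    have h1 : σ.comp (Polynomial.X - Polynomial.C o) = ρ := by
      rw [hσ, Polynomial.comp_assoc]
      simp
    rw [← h1, h0, Polynomial.zero_comp]
  -- the values of `g` tend to zero
  have hg1 : Sm v a 1 g := by
    have s1 := (Sm.id.mul ((Sm.mv G h.sm_g n₂).mul (Sm.inv G h.beta (Sm.mv G h.sm_g n₁)))).shift G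
    obtain ⟨T, hT⟩ := den_ne G h.beta (Sm.mv G h.sm_g n₁)
    refine s1.congr (T + 1) fun t ht => ?_
    obtain ⟨s, rfl⟩ : ∃ s, t = s + 1 := ⟨t - 1, by omega⟩
    rw [Nat.add_sub_cancel]
    have h5 := h.rec_g s
    have h6 := hT s (by omega)
    rw [← mul_assoc, ← div_eq_mul_inv, div_eq_iff h6]
    exact h5.symm
  obtain ⟨cg, Tg, hTg⟩ := hg1
  have hvE : v E ≠ 0 := (Valuation.ne_zero_iff v).2 hE
  have hu : ∃ T : ℕ, ∀ t, T ≤ t → v (a t * (E + g t * e)) = v (a t) * v E := by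
    obtain ⟨T, hT⟩ := G.small' (cg * v e) hvE
    refine ⟨max T Tg, fun t ht => ?_⟩
    have h1 : v (g t * e) < v E := by
      rw [map_mul]
      have h2 := hTg t (le_trans (le_max_right _ _) ht)
      rw [pow_one] at h2
      refine lt_of_le_of_lt (mul_le_mul_left h2 _) ?_
      have h3 := hT t (le_trans (le_max_left _ _) ht)
      calc cg * v (a t) * v e = cg * v e * v (a t) := by ac_rfl
        _ < v E := h3
    rw [map_mul, Valuation.map_add_eq_of_lt_left v h1]
  obtain ⟨Tu, hTu⟩ := hu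
  obtain ⟨s, d, ε, hd, hε, hs⟩ := low v hσ0
  obtain ⟨T₁, hT₁⟩ := G.small' (v E) hε
  obtain ⟨c, T₂, hT₂⟩ := hρ (s + 1)
  have hdE : d * v E ^ s ≠ 0 := mul_ne_zero hd (pow_ne_zero _ hvE)
  obtain ⟨T₃, hT₃⟩ := G.small' c hdE
  set t := max (max Tu T₁) (max T₂ T₃) with ht
  have e1 : Tu ≤ t := le_trans (le_max_left _ _) (le_max_left _ _)
  have e2 : T₁ ≤ t := le_trans (le_max_right _ _) (le_max_left _ _)
  have e3 : T₂ ≤ t := le_trans (le_max_left _ _) (le_max_right _ _)
  have e4 : T₃ ≤ t := le_trans (le_max_right _ _) (le_max_right _ _)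
  have h1 := hT₂ t e3
  have h2 : σ.eval (a t * (E + g t * e)) = ρ.eval (o + a t * (E + g t * e)) := by
    rw [hσ, Polynomial.eval_comp, Polynomial.eval_add, Polynomial.eval_C, Polynomial.eval_X]
  have h3 : v (a t * (E + g t * e)) < ε := by
    rw [hTu t e1, mul_comm]
    exact hT₁ t e2
  rw [← h2, hs _ h3, hTu t e1] at h1
  have h4 : (d * v E ^ s) * v (a t) ^ s ≤ (c * v (a t)) * v (a t) ^ s := by
    refine le_trans (le_of_eq ?_) (h1.trans (le_of_eq ?_))
    · rw [mul_pow]; ac_rfl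
    · rw [pow_succ]; ac_rfl
  have h5 : (0 : WithZero (Multiplicative ℤ)) < v (a t) ^ s :=
    zero_lt_iff.2 (pow_ne_zero _ (G.vne t))
  have h6 : d * v E ^ s ≤ c * v (a t) := le_of_mul_le_mul_right h4 h5
  exact absurd (hT₃ t e4) (not_lt.2 h6)

end Pool.Agent.Helper63.TS2
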